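import Mathlib

namespace Pool.Agent.SphN
open Topology Set Filter

/-- `h` is isotopic to the identity: joined to `1` by a jointly continuous family of
homeomorphisms. -/
def Isot {X : Type*} [TopologicalSpace X] (h : X ≃ₜ X) : Prop :=
  ∃ H : unitInterval → (X ≃ₜ X),
    Continuous (fun q : unitInterval × X => H q.1 q.2) ∧ H 0 = 1 ∧ H 1 = h

/-- Germ extension property. -/
def GermExt (X : Type*) [TopologicalSpace X] : Prop :=
  ∀ u : X ≃ₜ X, Isot u → ∀ x : X, u x = x → ∀ V ∈ 𝓝 x,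
    ∃ f : X ≃ₜ X, (∀ y, y ∉ V → f y = y) ∧ ∀ᶠ y in 𝓝 x, f y = u y

/-- The Gaussian integers in `ℂ`. -/
def Zl : Set ℂ := {z | ∃ m n : ℤ, z = (m : ℂ) + (n : ℂ) * Complex.I}

/-- The pillowcase map: branched covering `ℂ → S` whose fibres are the orbits of the group
generated by translations by `2 Z[i]` and `z ↦ - z`. -/
structure Pil {S : Type*} [TopologicalSpace S] (p : ℂ → S) : Prop where
  cont : Continuous p
  opn : IsOpenMap p
  surj : Function.Surjective p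
  fib : ∀ z w : ℂ, p z = p w ↔ ∃ l ∈ Zl, w = 2 * l + z ∨ w = 2 * l - z

/-- `H` is a lift of the isotopy `h` through the pillowcase map `p`. -/
structure IsLift {S : Type*} [TopologicalSpace S] (p : ℂ → S)
    (h : unitInterval → (S ≃ₜ S)) (H : unitInterval → ℂ → ℂ) : Prop where
  path : ∀ z, Continuous fun t => H t z
  lift : ∀ t z, p (H t z) = h t (p z)
  zero : ∀ z, H 0 z = z
  fix : ∀ t, ∀ z ∈ Zl, H t z = z
  avoid : ∀ t, ∀ z ∉ Zl, H t z ∉ Zl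
  contOn : ContinuousOn (fun q : unitInterval × ℂ => H q.1 q.2) {q | q.2 ∉ Zl}

/-- The unit sphere of the imaginary quaternions, as the set of square roots of `-1`. -/
abbrev Sq : Type := {q : Quaternion ℝ // q * q = -1}

theorem ad_mem (u : Quaternion ℝ) (hu : u ≠ 0) (q : Sq) :
    (u * q.1 * u⁻¹) * (u * q.1 * u⁻¹) = -1 := by
  have h1 : (u * q.1 * u⁻¹) * (u * q.1 * u⁻¹) = u * q.1 * (u⁻¹ * u) * q.1 * u⁻¹ := by
    noncomm_ring
  rw [h1, inv_mul_cancel₀ hu, mul_one, mul_assoc u, q.2]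
  simp [hu]

/-- Conjugation by a nonzero quaternion. -/
noncomputable def Ad (u : Quaternion ℝ) (hu : u ≠ 0) : Sq ≃ₜ Sq where
  toFun q := ⟨u * q.1 * u⁻¹, ad_mem u hu q⟩
  invFun q := ⟨u⁻¹ * q.1 * u⁻¹⁻¹, ad_mem u⁻¹ (inv_ne_zero hu) q⟩
  left_inv q := by
    apply Subtype.ext
    show u⁻¹ * (u * q.1 * u⁻¹) * u⁻¹⁻¹ = q.1
    rw [inv_inv]
    have h1 : u⁻¹ * (u * q.1 * u⁻¹) * u = (u⁻¹ * u) * q.1 * (u⁻¹ * u) := by noncomm_ring
    rw [h1, inv_mul_cancel₀ hu, one_mul, mul_one]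
  right_inv q := by
    apply Subtype.ext
    show u * (u⁻¹ * q.1 * u⁻¹⁻¹) * u⁻¹ = q.1
    rw [inv_inv]
    have h1 : u * (u⁻¹ * q.1 * u) * u⁻¹ = (u * u⁻¹) * q.1 * (u * u⁻¹) := by noncomm_ring
    rw [h1, mul_inv_cancel₀ hu, one_mul, mul_one]
  continuous_toFun := by fun_prop
  continuous_invFun := by fun_prop

@[simp] theorem Ad_coe (u : Quaternion ℝ) (hu : u ≠ 0) (q : Sq) :
    ((Ad u hu q : Sq) : Quaternion ℝ) = u * q.1 * u⁻¹ := rfl

/-- `h` followed by any rotation bringing `h x` back to `x` is locally extendable at `x`. -/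
def Tm (h : Sq ≃ₜ Sq) : Prop :=
  ∀ x : Sq, ∀ (u : Quaternion ℝ) (hu : u ≠ 0), Ad u hu (h x) = x → ∀ V ∈ 𝓝 x,
    ∃ f : Sq ≃ₜ Sq, (∀ y, y ∉ V → f y = y) ∧ ∀ᶠ y in 𝓝 x, f y = Ad u hu (h y)

end Pool.Agent.SphN
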