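import Mathlib
import Pool.Agent.SphN.Defs

set_option autoImplicit false

namespace Pool.Agent.SphN
open Topology Set Filter

theorem isot_symm_cont {X : Type*} [TopologicalSpace X] [CompactSpace X] [T2Space X]
    (H : unitInterval → (X ≃ₜ X)) (hH : Continuous fun q : unitInterval × X => H q.1 q.2) :
    Continuous fun q : unitInterval × X => (H q.1)⁻¹ q.2 := by
  let e : unitInterval × X ≃ unitInterval × X :=
    { toFun := fun q => (q.1, H q.1 q.2)
      invFun := fun q => (q.1, (H q.1)⁻¹ q.2)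
      left_inv := fun q => Prod.ext rfl ((H q.1).symm_apply_apply q.2)
      right_inv := fun q => Prod.ext rfl ((H q.1).apply_symm_apply q.2) }
  have hc : Continuous e := continuous_fst.prodMk hH
  exact continuous_snd.comp (Continuous.homeoOfEquivCompactToT2 hc).symm.continuous

theorem isot_one {X : Type*} [TopologicalSpace X] : Isot (1 : X ≃ₜ X) :=
  ⟨fun _ => 1, continuous_snd, rfl, rfl⟩

theorem isot_mul {X : Type*} [TopologicalSpace X] {f g : X ≃ₜ X} (hf : Isot f) (hg : Isot g) :
    Isot (f * g) := by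
  obtain ⟨H, hc, h0, h1⟩ := hf
  obtain ⟨K, kc, k0, k1⟩ := hg
  exact ⟨fun t => H t * K t, hc.comp (continuous_fst.prodMk kc), by simp only [h0, k0, mul_one],
    by simp only [h1, k1]⟩

theorem isot_inv {X : Type*} [TopologicalSpace X] [CompactSpace X] [T2Space X] {f : X ≃ₜ X}
    (hf : Isot f) : Isot f⁻¹ := by
  obtain ⟨H, hc, h0, h1⟩ := hf
  exact ⟨fun t => (H t)⁻¹, isot_symm_cont H hc, by simp only [h0, inv_one], by simp only [h1]⟩

theorem isot_conj {X Y : Type*} [TopologicalSpace X] [TopologicalSpace Y] (e : X ≃ₜ Y)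
    {f : X ≃ₜ X} (hf : Isot f) : Isot (e.symm.trans (f.trans e)) := by
  obtain ⟨H, hc, h0, h1⟩ := hf
  refine ⟨fun t => e.symm.trans ((H t).trans e), ?_, ?_, by simp only [h1]⟩
  · exact e.continuous.comp (hc.comp (continuous_fst.prodMk (e.symm.continuous.comp continuous_snd)))
  · simp only [h0]
    ext y
    exact e.apply_symm_apply y

theorem isot_conj' {X : Type*} [TopologicalSpace X] (e : X ≃ₜ X)
    {f : X ≃ₜ X} (hf : Isot f) : Isot (e * f * e⁻¹) :=
  isot_conj e hf

theorem germExt_congr {X Y : Type*} [TopologicalSpace X] [TopologicalSpace Y] (e : X ≃ₜ Y)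
    (h : GermExt X) : GermExt Y := by
  intro u hu y huy V hV
  have h1 : Isot (e.trans (u.trans e.symm)) := isot_conj e.symm hu
  have h2 : (e.trans (u.trans e.symm)) (e.symm y) = e.symm y := by
    show e.symm (u (e (e.symm y))) = e.symm y
    rw [e.apply_symm_apply, huy]
  have h3 : e ⁻¹' V ∈ 𝓝 (e.symm y) := by
    apply e.continuous.continuousAt.preimage_mem_nhds
    rw [e.apply_symm_apply]
    exact hV
  obtain ⟨f, hf1, hf2⟩ := h _ h1 _ h2 _ h3
  refine ⟨e.symm.trans (f.trans e), ?_, ?_⟩
  · intro z hz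
    show e (f (e.symm z)) = z
    rw [hf1, e.apply_symm_apply]
    show ¬ e (e.symm z) ∈ V
    rw [e.apply_symm_apply]
    exact hz
  · filter_upwards [(e.symm.continuous.tendsto y).eventually hf2] with z hz
    show e (f (e.symm z)) = u z
    rw [hz]
    show e (e.symm (u (e (e.symm z)))) = u z
    rw [e.apply_symm_apply, e.apply_symm_apply]

/-- path in the compact-open topology versus joint continuity -/
theorem isot_iff_joined {X : Type*} [TopologicalSpace X] [CompactSpace X] [T2Space X]
    (f : X ≃ₜ X) :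
    Isot f ↔ ∃ γ : unitInterval → (X ≃ₜ X),
      Continuous (fun t => (⟨γ t, (γ t).continuous⟩ : C(X, X))) ∧ γ 0 = 1 ∧ γ 1 = f := by
  constructor
  · rintro ⟨H, hc, h0, h1⟩
    refine ⟨H, ?_, h0, h1⟩
    exact (ContinuousMap.curry ⟨fun q : unitInterval × X => H q.1 q.2, hc⟩).continuous
  · rintro ⟨γ, hc, h0, h1⟩
    refine ⟨γ, ?_, h0, h1⟩
    exact ContinuousMap.continuous_uncurry_of_continuous
      (⟨fun t => (⟨γ t, (γ t).continuous⟩ : C(X, X)), hc⟩ : C(unitInterval, C(X, X)))

end Pool.Agent.SphN
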