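import Pool.Agent.SphN.Defs

namespace Pool.Agent.SphN
open Topology Set Filter

/-- inversion `z ↦ 1/z` of the Riemann sphere, as a function -/
noncomputable def iotaF : OnePoint ℂ → OnePoint ℂ := fun x =>
  Option.elim x ((0 : ℂ) : OnePoint ℂ)
    (fun z : ℂ => if z = 0 then OnePoint.infty else ((z⁻¹ : ℂ) : OnePoint ℂ))

theorem iotaF_infty : iotaF OnePoint.infty = ((0 : ℂ) : OnePoint ℂ) := rfl

theorem iotaF_zero : iotaF ((0 : ℂ) : OnePoint ℂ) = OnePoint.infty := by
  show (if (0 : ℂ) = 0 then OnePoint.infty else (((0 : ℂ)⁻¹ : ℂ) : OnePoint ℂ)) = _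
  simp

theorem iotaF_coe (z : ℂ) (hz : z ≠ 0) : iotaF (z : OnePoint ℂ) = ((z⁻¹ : ℂ) : OnePoint ℂ) := by
  show (if z = 0 then OnePoint.infty else ((z⁻¹ : ℂ) : OnePoint ℂ)) = _
  simp [hz]

theorem iotaF_iotaF (x : OnePoint ℂ) : iotaF (iotaF x) = x := by
  induction x using OnePoint.rec with
  | infty => rw [iotaF_infty, iotaF_zero]
  | coe z =>
    by_cases hz : z = 0
    · subst hz; rw [iotaF_zero, iotaF_infty]
    · rw [iotaF_coe z hz, iotaF_coe _ (inv_ne_zero hz), inv_inv]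

theorem iotaF_cont : Continuous iotaF := by
  rw [continuous_iff_continuousAt]
  have hcc : coclosedCompact ℂ = Bornology.cobounded ℂ := by
    rw [coclosedCompact_eq_cocompact, Metric.cobounded_eq_cocompact]
  intro x
  induction x using OnePoint.rec with
  | infty =>
    rw [OnePoint.continuousAt_infty', iotaF_infty, hcc]
    have h1 : Tendsto (fun z : ℂ => ((z⁻¹ : ℂ) : OnePoint ℂ)) (Bornology.cobounded ℂ)
        (𝓝 ((0 : ℂ) : OnePoint ℂ)) :=
      (OnePoint.continuous_coe.tendsto (0 : ℂ)).comp tendsto_inv₀_cobounded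
    refine h1.congr' ?_
    have h2 : ∀ᶠ z : ℂ in Bornology.cobounded ℂ, z ≠ 0 := by
      have h4 : ({(0 : ℂ)}ᶜ : Set ℂ) ∈ Bornology.cobounded ℂ := by
        rw [← Bornology.isBounded_def]
        exact Bornology.isBounded_singleton
      filter_upwards [h4] with z hz
      exact hz
    filter_upwards [h2] with z hz
    exact (iotaF_coe z hz).symm
  | coe z =>
    rw [OnePoint.continuousAt_coe]
    by_cases hz : z = 0
    · subst hz
      show Tendsto (iotaF ∘ ((↑) : ℂ → OnePoint ℂ)) (𝓝 0) (𝓝 (iotaF ((0 : ℂ) : OnePoint ℂ)))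
      rw [iotaF_zero, ← pure_sup_nhdsNE, tendsto_sup]
      constructor
      · rw [tendsto_pure_left]
        intro s hs
        show iotaF ((0 : ℂ) : OnePoint ℂ) ∈ s
        rw [iotaF_zero]
        exact mem_of_mem_nhds hs
      · have h1 : Tendsto (fun z : ℂ => ((z⁻¹ : ℂ) : OnePoint ℂ)) (𝓝[≠] 0) (𝓝 OnePoint.infty) := by
          have h3 : Tendsto ((↑) : ℂ → OnePoint ℂ) (Bornology.cobounded ℂ) (𝓝 OnePoint.infty) := by
            rw [← hcc]
            exact OnePoint.tendsto_coe_infty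
          exact h3.comp tendsto_inv₀_nhdsNE_zero
        refine h1.congr' ?_
        filter_upwards [self_mem_nhdsWithin] with w hw
        exact (iotaF_coe w hw).symm
    · have h1 : ContinuousAt (fun z : ℂ => ((z⁻¹ : ℂ) : OnePoint ℂ)) z :=
        OnePoint.continuous_coe.continuousAt.comp (continuousAt_inv₀ hz)
      refine h1.congr ?_
      filter_upwards [isOpen_ne.mem_nhds hz] with w hw
      exact (iotaF_coe w hw).symm

/-- inversion `z ↦ 1/z` of the Riemann sphere -/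
noncomputable def iota : OnePoint ℂ ≃ₜ OnePoint ℂ where
  toFun := iotaF
  invFun := iotaF
  left_inv := iotaF_iotaF
  right_inv := iotaF_iotaF
  continuous_toFun := iotaF_cont
  continuous_invFun := iotaF_cont

/-- the absolute value on the Riemann sphere, with values in `[0,∞]` -/
noncomputable def nm : OnePoint ℂ → ENNReal := fun x =>
  Option.elim x ⊤ (fun z : ℂ => ENNReal.ofReal ‖z‖)

@[simp] theorem nm_infty : nm OnePoint.infty = ⊤ := rfl
@[simp] theorem nm_coe (z : ℂ) : nm (z : OnePoint ℂ) = ENNReal.ofReal ‖z‖ := rfl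

/-- extension of a homeomorphism of the plane to the Riemann sphere -/
noncomputable def ext (h : ℂ ≃ₜ ℂ) : OnePoint ℂ ≃ₜ OnePoint ℂ := h.onePointCongr

@[simp] theorem ext_infty (h : ℂ ≃ₜ ℂ) : ext h OnePoint.infty = OnePoint.infty := rfl
@[simp] theorem ext_coe (h : ℂ ≃ₜ ℂ) (z : ℂ) : ext h (z : OnePoint ℂ) = ((h z : ℂ) : OnePoint ℂ) :=
  rfl

open Classical in
/-- multiplication by `a ≠ 0` on the Riemann sphere (identity for `a = 0`) -/
noncomputable def scal (a : ℂ) : OnePoint ℂ ≃ₜ OnePoint ℂ :=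
  if h : a ≠ 0 then ext (Homeomorph.mulLeft₀ a h) else 1

/-- translation by `b` on the Riemann sphere -/
noncomputable def trn (b : ℂ) : OnePoint ℂ ≃ₜ OnePoint ℂ := ext (Homeomorph.addLeft b)

theorem scal_coe (a : ℂ) (ha : a ≠ 0) (z : ℂ) :
    scal a (z : OnePoint ℂ) = ((a * z : ℂ) : OnePoint ℂ) := by
  unfold scal; rw [dif_pos ha]; rfl

@[simp] theorem scal_infty (a : ℂ) : scal a OnePoint.infty = OnePoint.infty := by
  unfold scal; split_ifs <;> rfl

theorem trn_coe (b z : ℂ) : trn b (z : OnePoint ℂ) = ((b + z : ℂ) : OnePoint ℂ) := rfl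

@[simp] theorem trn_infty (b : ℂ) : trn b OnePoint.infty = OnePoint.infty := rfl

/-- the geometric situation in the proof of the main step -/
structure Setup (f g K : OnePoint ℂ ≃ₜ OnePoint ℂ) (a b : ℝ) : Prop where
  a0 : 0 < a
  ab : a < b
  b1 : b < 1
  hf : ∀ x, nm x ≤ ENNReal.ofReal b → f x = iota x
  hg : ∀ x, nm x ≤ ENNReal.ofReal b → g x = iota x
  k1 : ∀ x, nm x ≤ ENNReal.ofReal a → K x = x
  k2 : ∀ z : ℂ, ‖z‖ = 1 / a → K z = ((((a * b : ℝ) : ℂ) * z : ℂ) : OnePoint ℂ)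
  k3 : ∀ x y, nm x ≤ nm y ↔ nm (K x) ≤ nm (K y)

/-- the modified product -/
noncomputable def LL (f g K θ₁ θ₂ : OnePoint ℂ ≃ₜ OnePoint ℂ) : OnePoint ℂ ≃ₜ OnePoint ℂ :=
  f * ((K * (θ₁ * θ₂)) * g * (K * (θ₁ * θ₂))⁻¹)

/-- property `P(n)`: every nontrivial element of `G` is a product of exactly `n` conjugates of
every nontrivial element of `G`. -/
def PN (X : Type*) [TopologicalSpace X] (n : ℕ) : Prop :=
  ∀ A B : X ≃ₜ X, Isot A → Isot B → A ≠ 1 → B ≠ 1 →
    ∃ H : Fin n → (X ≃ₜ X), B = (List.ofFn fun i => H i * A * (H i)⁻¹).prod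

end Pool.Agent.SphN
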