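import Mathlib
import Pool.Agent.SphN.Defs2

set_option autoImplicit false

namespace Pool.Agent.SphN
open Topology Set Filter

theorem nm_cont : Continuous nm := by
  rw [OnePoint.continuous_iff]
  refine ⟨?_, ?_⟩
  · show Tendsto (fun z : ℂ => ENNReal.ofReal ‖z‖) (coclosedCompact ℂ) (𝓝 ⊤)
    rw [coclosedCompact_eq_cocompact]
    exact ENNReal.tendsto_ofReal_atTop.comp (tendsto_norm_cocompact_atTop (E := ℂ))
  · show Continuous (fun z : ℂ => ENNReal.ofReal ‖z‖)
    exact ENNReal.continuous_ofReal.comp continuous_norm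

@[simp] theorem nm_iota (x : OnePoint ℂ) : nm (iota x) = (nm x)⁻¹ := by
  induction x using OnePoint.rec with
  | infty =>
    have h1 : iota OnePoint.infty = ((0 : ℂ) : OnePoint ℂ) := rfl
    rw [h1, nm_infty, nm_coe]; simp
  | coe z =>
    by_cases hz : z = 0
    · subst hz
      have h1 : iota ((0 : ℂ) : OnePoint ℂ) = OnePoint.infty := iotaF_zero
      rw [h1, nm_infty, nm_coe]
      simp
    · have h1 : iota (z : OnePoint ℂ) = ((z⁻¹ : ℂ) : OnePoint ℂ) := iotaF_coe z hz
      rw [h1, nm_coe, nm_coe, norm_inv, ENNReal.ofReal_inv_of_pos (norm_pos_iff.mpr hz)]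

theorem iota_iota (x : OnePoint ℂ) : iota (iota x) = x := iotaF_iotaF x

theorem iota_mul : iota * iota = 1 := by
  ext x
  exact iota_iota x

theorem iota_zero : iota ((0 : ℂ) : OnePoint ℂ) = OnePoint.infty := iotaF_zero

theorem iota_infty : iota OnePoint.infty = ((0 : ℂ) : OnePoint ℂ) := rfl

theorem nm_eq_zero (x : OnePoint ℂ) : nm x = 0 ↔ x = ((0 : ℂ) : OnePoint ℂ) := by
  induction x using OnePoint.rec with
  | infty =>
    constructor
    · intro h
      rw [nm_infty] at h
      exact absurd h ENNReal.top_ne_zero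
    · intro h
      exact absurd h (OnePoint.infty_ne_coe _)
  | coe z =>
    rw [nm_coe, ENNReal.ofReal_eq_zero, OnePoint.coe_eq_coe]
    exact norm_le_zero_iff

theorem nm_eq_top (x : OnePoint ℂ) : nm x = ⊤ ↔ x = OnePoint.infty := by
  induction x using OnePoint.rec with
  | infty => exact ⟨fun _ => rfl, fun _ => rfl⟩
  | coe z =>
    constructor
    · intro h
      rw [nm_coe] at h
      exact absurd h ENNReal.ofReal_ne_top
    · intro h
      exact absurd h (OnePoint.coe_ne_infty _)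

theorem nhds_zero_basis (U : Set (OnePoint ℂ)) (hU : U ∈ 𝓝 ((0 : ℂ) : OnePoint ℂ)) :
    ∃ ε : ℝ, 0 < ε ∧ ∀ x, nm x ≤ ENNReal.ofReal ε → x ∈ U := by
  have h1 : (fun z : ℂ => (z : OnePoint ℂ)) ⁻¹' U ∈ 𝓝 (0 : ℂ) :=
    OnePoint.continuous_coe.continuousAt.preimage_mem_nhds hU
  obtain ⟨ε, hε, hsub⟩ := Metric.mem_nhds_iff.mp h1
  refine ⟨ε / 2, by linarith, fun x hx => ?_⟩
  induction x using OnePoint.rec with
  | infty =>
    rw [nm_infty, top_le_iff] at hx
    exact absurd hx ENNReal.ofReal_ne_top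
  | coe z =>
    rw [nm_coe, ENNReal.ofReal_le_ofReal_iff (by linarith)] at hx
    apply hsub
    rw [Metric.mem_ball, dist_zero_right]
    linarith

theorem nhds_infty_basis (U : Set (OnePoint ℂ)) (hU : U ∈ 𝓝 (OnePoint.infty : OnePoint ℂ)) :
    ∃ ε : ℝ, 0 < ε ∧ ∀ x, ENNReal.ofReal ε ≤ nm x → x ∈ U := by
  have h1 : (fun z : ℂ => (z : OnePoint ℂ)) ⁻¹' U ∈ coclosedCompact ℂ := by
    rw [← OnePoint.comap_coe_nhds_infty]
    exact preimage_mem_comap hU
  rw [coclosedCompact_eq_cocompact, mem_cocompact] at h1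
  obtain ⟨K, hK, hKU⟩ := h1
  obtain ⟨r, hr⟩ := hK.isBounded.subset_closedBall 0
  refine ⟨max r 0 + 1, by positivity, fun x hx => ?_⟩
  induction x using OnePoint.rec with
  | infty => exact mem_of_mem_nhds hU
  | coe z =>
    rw [nm_coe, ENNReal.ofReal_le_ofReal_iff (norm_nonneg z)] at hx
    refine hKU (fun hz => ?_)
    have h2 := hr hz
    rw [Metric.mem_closedBall, dist_zero_right] at h2
    have h3 := le_max_left r 0
    linarith

end Pool.Agent.SphN
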