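import Mathlib
import Pool.Agent.SphN.NormS
import Pool.Agent.SphN.Isotopy

set_option autoImplicit false

namespace Pool.Agent.SphN
open Topology Set Filter

theorem iota_coe (z : ℂ) (hz : z ≠ 0) : iota (z : OnePoint ℂ) = ((z⁻¹ : ℂ) : OnePoint ℂ) :=
  iotaF_coe z hz

theorem scal_nm (a : ℂ) (ha : ‖a‖ = 1) (x : OnePoint ℂ) : nm (scal a x) = nm x := by
  have ha0 : a ≠ 0 := by
    intro h; rw [h, norm_zero] at ha; exact zero_ne_one ha
  induction x using OnePoint.rec with
  | infty => rw [scal_infty]
  | coe z => rw [scal_coe a ha0, nm_coe, nm_coe, norm_mul, ha, one_mul]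

theorem nhds_infty_nm (U : Set (OnePoint ℂ)) (hU : U ∈ 𝓝 (OnePoint.infty : OnePoint ℂ)) :
    ∃ R : ENNReal, R ≠ ⊤ ∧ ∀ x, R < nm x → x ∈ U := by
  rw [OnePoint.nhds_infty_eq, Filter.coclosedCompact_eq_cocompact] at hU
  obtain ⟨h1, h2⟩ := hU
  rw [mem_map, Metric.mem_cocompact_iff_closedBall_compl_subset (0 : ℂ)] at h1
  obtain ⟨r, hr⟩ := h1
  refine ⟨ENNReal.ofReal (max r 0), ENNReal.ofReal_ne_top, fun x hx => ?_⟩
  induction x using OnePoint.rec with
  | infty => simpa using h2
  | coe z =>
    rw [nm_coe, ENNReal.ofReal_lt_ofReal_iff_of_nonneg (le_max_right _ _)] at hx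
    refine hr ?_
    rw [mem_compl_iff, mem_closedBall_zero_iff, not_le]
    exact (le_max_left _ _).trans_lt hx

/-- a jointly continuous family of homeomorphisms of the plane preserving the absolute value
extends to an isotopy of the Riemann sphere -/
theorem rot_isot : Isot (scal (-1)) := by
  have hn : ∀ t : unitInterval, ‖Complex.exp ((Real.pi * (t : ℝ) : ℝ) * Complex.I)‖ = 1 :=
    fun t => Complex.norm_exp_ofReal_mul_I _
  have hne : ∀ t : unitInterval, Complex.exp ((Real.pi * (t : ℝ) : ℝ) * Complex.I) ≠ 0 :=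
    fun t => Complex.exp_ne_zero _
  refine ⟨fun t => scal (Complex.exp ((Real.pi * (t : ℝ) : ℝ) * Complex.I)), ?_, ?_, ?_⟩
  · rw [continuous_iff_continuousAt]
    rintro ⟨t, x⟩
    induction x using OnePoint.rec with
    | infty =>
      intro U hU
      simp only [scal_infty] at hU
      obtain ⟨R, hR, hRU⟩ := nhds_infty_nm U hU
      have h1 : ∀ᶠ q : unitInterval × OnePoint ℂ in 𝓝 (t, OnePoint.infty), R < nm q.2 := by
        have hc : ContinuousAt (fun q : unitInterval × OnePoint ℂ => nm q.2)
            (t, OnePoint.infty) := (nm_cont.comp continuous_snd).continuousAt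
        refine hc.eventually (lt_mem_nhds ?_)
        show R < nm OnePoint.infty
        rw [nm_infty]; exact lt_top_iff_ne_top.2 hR
      rw [mem_map]
      filter_upwards [h1] with q hq
      refine hRU _ ?_
      rw [scal_nm _ (hn q.1)]
      exact hq
    | coe z =>
      have hj : IsOpenEmbedding (Prod.map id (fun z : ℂ => (z : OnePoint ℂ)) :
          unitInterval × ℂ → unitInterval × OnePoint ℂ) :=
        IsOpenEmbedding.id.prodMap OnePoint.isOpenEmbedding_coe
      have : (t, (z : OnePoint ℂ)) = Prod.map id (fun z : ℂ => (z : OnePoint ℂ)) (t, z) := rfl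
      rw [this, ← hj.continuousAt_iff]
      have e : ((fun q : unitInterval × OnePoint ℂ =>
          (scal (Complex.exp ((Real.pi * (q.1 : ℝ) : ℝ) * Complex.I))) q.2) ∘
          Prod.map id (fun z : ℂ => (z : OnePoint ℂ))) =
          fun q : unitInterval × ℂ => ((Complex.exp ((Real.pi * (q.1 : ℝ) : ℝ) * Complex.I) * q.2 : ℂ)
            : OnePoint ℂ) := by
        funext q
        exact scal_coe _ (hne q.1) q.2
      rw [e]
      refine (OnePoint.continuous_coe.comp ?_).continuousAt
      fun_prop
  · ext1 x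
    have e : Complex.exp ((Real.pi * ((0 : unitInterval) : ℝ) : ℝ) * Complex.I) = 1 := by simp
    show scal (Complex.exp ((Real.pi * ((0 : unitInterval) : ℝ) : ℝ) * Complex.I)) x = x
    rw [e]
    induction x using OnePoint.rec with
    | infty => rw [scal_infty]
    | coe z => rw [scal_coe 1 one_ne_zero, one_mul]
  · have e : Complex.exp ((Real.pi * ((1 : unitInterval) : ℝ) : ℝ) * Complex.I) = -1 := by
      simp [Complex.exp_pi_mul_I]
    simp only [e]

theorem isot_iota : Isot iota := by
  set Q : OnePoint ℂ ≃ₜ OnePoint ℂ := trn 1 * scal (-2) * iota * trn 1 with hQ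
  have m1 : (-1 : ℂ) ≠ 0 := by norm_num
  have m2 : (-2 : ℂ) ≠ 0 := by norm_num
  have Qi : Q OnePoint.infty = ((1 : ℂ) : OnePoint ℂ) := by
    rw [hQ]
    simp only [Homeomorph.mul_apply, trn_infty, iota_infty]
    rw [scal_coe _ m2, trn_coe]; norm_num
  have Qm : Q ((-1 : ℂ) : OnePoint ℂ) = OnePoint.infty := by
    rw [hQ]
    simp only [Homeomorph.mul_apply, trn_coe]
    rw [show (1 : ℂ) + -1 = 0 by norm_num, iota_zero, scal_infty, trn_infty]
  have Qc : ∀ z : ℂ, z ≠ -1 → Q (z : OnePoint ℂ) = (((1 : ℂ) + -2 * (1 + z)⁻¹ : ℂ) : OnePoint ℂ) := by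
    intro z hz
    have h1 : (1 : ℂ) + z ≠ 0 := by
      intro h; exact hz (by linear_combination h)
    rw [hQ]
    simp only [Homeomorph.mul_apply, trn_coe]
    rw [iota_coe _ h1, scal_coe _ m2, trn_coe]
  have key : iota * Q = Q * scal (-1) := by
    ext1 x
    show iota (Q x) = Q (scal (-1) x)
    induction x using OnePoint.rec with
    | infty =>
      rw [scal_infty, Qi, iota_coe 1 one_ne_zero, inv_one]
    | coe z =>
      rw [scal_coe _ m1]
      by_cases hz : z = -1
      · subst hz
        rw [Qm, iota_infty, Qc _ (by norm_num)]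
        norm_num
      · by_cases hz1 : z = 1
        · subst hz1
          rw [show (-1 : ℂ) * 1 = -1 by norm_num, Qm, Qc _ (by norm_num)]
          rw [show (1 : ℂ) + -2 * (1 + 1)⁻¹ = 0 by norm_num, iota_zero]
        · have h1 : (1 : ℂ) + z ≠ 0 := by
            intro h; exact hz (by linear_combination h)
          have h2 : (1 : ℂ) - z ≠ 0 := by
            intro h; exact hz1 (by linear_combination -h)
          have h3 : (-1 : ℂ) * z ≠ -1 := by
            intro h; exact hz1 (by linear_combination -h)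
          have h4 : (1 : ℂ) + -2 * (1 + z)⁻¹ ≠ 0 := by
            intro h
            field_simp at h
            exact h2 (by linear_combination -h)
          rw [Qc z hz, iota_coe _ h4, Qc _ h3]
          congr 1
          have h5 : (1 : ℂ) + -1 * z ≠ 0 := by
            intro h; exact h2 (by linear_combination h)
          have h6 : (1 : ℂ) + z - 2 ≠ 0 := by
            intro h; exact h2 (by linear_combination -h)
          have e1 : (1 : ℂ) + -2 * (1 + z)⁻¹ = (1 + z - 2) / (1 + z) := by
            field_simp; ring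
          have e2 : (1 : ℂ) + -2 * (1 + -1 * z)⁻¹ = (1 + -1 * z - 2) / (1 + -1 * z) := by
            rw [eq_div_iff h5, add_mul, mul_assoc, inv_mul_cancel₀ h5]; ring
          rw [e1, e2, inv_div, div_eq_div_iff h6 h5]
          ring
  have e : iota = Q * scal (-1) * Q⁻¹ := by
    rw [← key, mul_assoc, mul_inv_cancel, mul_one]
  rw [e]
  exact isot_conj' Q rot_isot

theorem two_trans (x y : OnePoint ℂ) (hxy : x ≠ y) :
    ∃ P : OnePoint ℂ ≃ₜ OnePoint ℂ, P x = ((0 : ℂ) : OnePoint ℂ) ∧ P y = OnePoint.infty := by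
  have base : ∀ x : OnePoint ℂ, x ≠ OnePoint.infty →
      ∃ P : OnePoint ℂ ≃ₜ OnePoint ℂ, P x = ((0 : ℂ) : OnePoint ℂ) ∧
        P OnePoint.infty = OnePoint.infty := by
    intro x hx
    induction x using OnePoint.rec with
    | infty => exact absurd rfl hx
    | coe z =>
      refine ⟨trn (-z), ?_, trn_infty _⟩
      rw [trn_coe, neg_add_cancel]
  induction y using OnePoint.rec with
  | infty => exact base x hxy
  | coe w =>
    have h1 : (iota * trn (-w)) ((w : ℂ) : OnePoint ℂ) = OnePoint.infty := by
      rw [Homeomorph.mul_apply, trn_coe, neg_add_cancel, iota_zero]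
    have h2 : (iota * trn (-w)) x ≠ OnePoint.infty := by
      intro h
      exact hxy ((iota * trn (-w)).injective (h.trans h1.symm))
    obtain ⟨P, hP0, hP1⟩ := base _ h2
    refine ⟨P * (iota * trn (-w)), ?_, ?_⟩
    · rw [Homeomorph.mul_apply P]; exact hP0
    · rw [Homeomorph.mul_apply P, h1]; exact hP1

end Pool.Agent.SphN
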