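import Mathlib
import Pool.Agent.SphN.IotaIsot

set_option autoImplicit false

namespace Pool.Agent.SphN
open Topology Set Filter

/-- radial map -/
noncomputable def rfc (t : ℝ) (z : ℂ) : ℂ := (((1 - t) + t * min ‖z‖ 1 : ℝ) : ℂ) * z

noncomputable def rFc (t : ℝ) : OnePoint ℂ → OnePoint ℂ := fun x =>
  Option.elim x OnePoint.infty (fun z : ℂ => ((rfc t z : ℂ) : OnePoint ℂ))

theorem rFc_infty (t : ℝ) : rFc t OnePoint.infty = OnePoint.infty := rfl

theorem rFc_coe (t : ℝ) (z : ℂ) : rFc t (z : OnePoint ℂ) = ((rfc t z : ℂ) : OnePoint ℂ) := rfl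

theorem rfc_fac_nonneg {t : ℝ} (h0 : 0 ≤ t) (h1 : t ≤ 1) (s : ℝ) (hs : 0 ≤ s) :
    0 ≤ (1 - t) + t * min s 1 := by
  have : 0 ≤ min s 1 := le_min hs zero_le_one
  have := mul_nonneg h0 this
  linarith

theorem rfc_norm {t : ℝ} (h0 : 0 ≤ t) (h1 : t ≤ 1) (z : ℂ) :
    ‖rfc t z‖ = ((1 - t) + t * min ‖z‖ 1) * ‖z‖ := by
  unfold rfc
  rw [norm_mul, Complex.norm_real, Real.norm_eq_abs,
    abs_of_nonneg (rfc_fac_nonneg h0 h1 _ (norm_nonneg _))]

theorem rho_lt {t : ℝ} (h0 : 0 ≤ t) (h1 : t ≤ 1) {s s' : ℝ} (hs : 0 ≤ s) (hss : s < s') :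
    ((1 - t) + t * min s 1) * s < ((1 - t) + t * min s' 1) * s' := by
  have hs' : 0 < s' := lt_of_le_of_lt hs hss
  have a1 : min s 1 ≤ min s' 1 := min_le_min_right _ hss.le
  have a2 : 0 < min s' 1 := lt_min hs' one_pos
  have a3 : 0 ≤ min s 1 := le_min hs zero_le_one
  have a4 : 0 < (1 - t) + t * min s' 1 := by
    rcases eq_or_lt_of_le h1 with h | h
    · rw [h]; linarith
    · have := mul_nonneg h0 a2.le
      linarith
  calc ((1 - t) + t * min s 1) * s ≤ ((1 - t) + t * min s' 1) * s := by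
        apply mul_le_mul_of_nonneg_right _ hs
        have := mul_le_mul_of_nonneg_left a1 h0
        linarith
    _ < ((1 - t) + t * min s' 1) * s' := mul_lt_mul_of_pos_left hss a4

theorem rho_inj {t : ℝ} (h0 : 0 ≤ t) (h1 : t ≤ 1) {s s' : ℝ} (hs : 0 ≤ s) (hs' : 0 ≤ s')
    (h : ((1 - t) + t * min s 1) * s = ((1 - t) + t * min s' 1) * s') : s = s' := by
  rcases lt_trichotomy s s' with h2 | h2 | h2
  · exact absurd h (rho_lt h0 h1 hs h2).ne
  · exact h2
  · exact absurd h (rho_lt h0 h1 hs' h2).ne'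

theorem rfc_inj {t : ℝ} (h0 : 0 ≤ t) (h1 : t ≤ 1) : Function.Injective (rfc t) := by
  intro z w h
  have hn := congrArg norm h
  rw [rfc_norm h0 h1, rfc_norm h0 h1] at hn
  have hzw : ‖z‖ = ‖w‖ := rho_inj h0 h1 (norm_nonneg _) (norm_nonneg _) hn
  by_cases hz : z = 0
  · subst hz
    rw [norm_zero] at hzw
    exact (norm_eq_zero.mp hzw.symm).symm
  · unfold rfc at h
    rw [← hzw] at h
    apply mul_left_cancel₀ _ h
    have hz' : 0 < ‖z‖ := norm_pos_iff.mpr hz
    have := rho_lt h0 h1 le_rfl hz'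
    rw [mul_zero] at this
    have h4 : (1 - t) + t * min ‖z‖ 1 ≠ 0 := by
      intro h5; rw [h5, zero_mul] at this; exact lt_irrefl _ this
    exact_mod_cast h4

theorem rfc_surj {t : ℝ} (h0 : 0 ≤ t) (h1 : t ≤ 1) : Function.Surjective (rfc t) := by
  intro w
  by_cases hw : w = 0
  · exact ⟨0, by rw [hw]; unfold rfc; rw [mul_zero]⟩
  have hw' : 0 < ‖w‖ := norm_pos_iff.mpr hw
  have hc : ContinuousOn (fun s : ℝ => ((1 - t) + t * min s 1) * s) (Icc 0 (max ‖w‖ 1)) := by
    fun_prop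
  obtain ⟨s, hs, hsw⟩ := intermediate_value_Icc (le_max_of_le_right zero_le_one) hc
    (show ‖w‖ ∈ Icc _ _ from ⟨by simp, by
      show ‖w‖ ≤ ((1 - t) + t * min (max ‖w‖ 1) 1) * (max ‖w‖ 1)
      rw [min_eq_right (le_max_right _ _)]
      have : (1 - t + t * 1) = 1 := by ring
      rw [this, one_mul]
      exact le_max_left _ _⟩)
  have hsw' : ((1 - t) + t * min s 1) * s = ‖w‖ := hsw
  refine ⟨((s / ‖w‖ : ℝ) : ℂ) * w, ?_⟩
  unfold rfc
  have hn : ‖((s / ‖w‖ : ℝ) : ℂ) * w‖ = s := by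
    rw [norm_mul, Complex.norm_real, Real.norm_eq_abs, abs_of_nonneg (div_nonneg hs.1 hw'.le)]
    field_simp
  rw [hn, ← mul_assoc, ← Complex.ofReal_mul]
  have : ((1 - t) + t * min s 1) * (s / ‖w‖) = 1 := by
    rw [← mul_div_assoc, hsw', div_self hw'.ne']
  rw [this]; simp

theorem rFc_bij {t : ℝ} (h0 : 0 ≤ t) (h1 : t ≤ 1) : Function.Bijective (rFc t) := by
  constructor
  · intro x y h
    induction x using OnePoint.rec with
    | infty =>
      induction y using OnePoint.rec with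
      | infty => rfl
      | coe w =>
        rw [rFc_infty, rFc_coe] at h
        exact absurd h (OnePoint.infty_ne_coe _)
    | coe z =>
      induction y using OnePoint.rec with
      | infty =>
        rw [rFc_infty, rFc_coe] at h
        exact absurd h (OnePoint.coe_ne_infty _)
      | coe w =>
        rw [rFc_coe, rFc_coe] at h
        rw [rfc_inj h0 h1 (OnePoint.coe_injective h)]
  · intro y
    induction y using OnePoint.rec with
    | infty => exact ⟨OnePoint.infty, rfl⟩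
    | coe w =>
      obtain ⟨z, hz⟩ := rfc_surj h0 h1 w
      exact ⟨z, by rw [rFc_coe, hz]⟩

theorem rFc_cont : Continuous (fun q : unitInterval × OnePoint ℂ => rFc (q.1 : ℝ) q.2) := by
  rw [continuous_iff_continuousAt]
  rintro ⟨t, x⟩
  induction x using OnePoint.rec with
  | infty =>
    have hev : (fun q : unitInterval × OnePoint ℂ => rFc (q.1 : ℝ) q.2) =ᶠ[𝓝 (t, OnePoint.infty)]
        (fun q => q.2) := by
      have ho : IsOpen {q : unitInterval × OnePoint ℂ | 1 < nm q.2} :=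
        isOpen_lt continuous_const (nm_cont.comp continuous_snd)
      have hm : {q : unitInterval × OnePoint ℂ | 1 < nm q.2} ∈ 𝓝 (t, OnePoint.infty) := by
        apply ho.mem_nhds
        show 1 < nm OnePoint.infty
        simp
      filter_upwards [hm]
      rintro ⟨t', x'⟩ hx'
      have hx'' : 1 < nm x' := hx'
      show rFc (t' : ℝ) x' = x'
      induction x' using OnePoint.rec with
      | infty => rfl
      | coe z =>
        rw [rFc_coe]
        congr 1
        rw [nm_coe] at hx''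
        have h1 : 1 < ‖z‖ := by
          by_contra hcon
          push Not at hcon
          have := ENNReal.ofReal_le_one.mpr hcon
          exact absurd hx'' (not_lt.mpr this)
        unfold rfc
        rw [min_eq_right h1.le]
        have : ((1 : ℝ) - t' + t' * 1) = 1 := by ring
        rw [this]; simp
    exact continuousAt_snd.congr hev.symm
  | coe z =>
    have hoe : Topology.IsOpenEmbedding (Prod.map (id : unitInterval → unitInterval)
        ((↑) : ℂ → OnePoint ℂ)) :=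
      Topology.IsOpenEmbedding.id.prodMap OnePoint.isOpenEmbedding_coe
    have := hoe.continuousAt_iff (g := fun q : unitInterval × OnePoint ℂ => rFc (q.1 : ℝ) q.2)
      (x := (t, z))
    apply this.mp
    have hc : Continuous (fun q : unitInterval × ℂ => rfc (q.1 : ℝ) q.2) := by
      unfold rfc
      fun_prop
    have := OnePoint.continuous_coe.comp hc
    exact this.continuousAt

/-- the map `z ↦ z |z|` on the unit disc and the identity outside -/
theorem contr_exists : ∃ B : OnePoint ℂ ≃ₜ OnePoint ℂ, Isot B ∧ B OnePoint.infty = OnePoint.infty ∧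
    (∀ z : ℂ, 1 ≤ ‖z‖ → B z = (z : OnePoint ℂ)) ∧
    (∀ z : ℂ, ‖z‖ ≤ 1 → B z = (((‖z‖ : ℝ) : ℂ) * z : ℂ)) := by
  have hct : ∀ t : unitInterval, Continuous (rFc (t : ℝ)) := fun t =>
    rFc_cont.comp (by fun_prop : Continuous (fun x : OnePoint ℂ => (t, x)))
  let H : unitInterval → (OnePoint ℂ ≃ₜ OnePoint ℂ) := fun t =>
    Continuous.homeoOfEquivCompactToT2
      (f := Equiv.ofBijective (rFc (t : ℝ)) (rFc_bij t.2.1 t.2.2)) (hct t)
  have hH : ∀ t x, H t x = rFc (t : ℝ) x := fun t x => rfl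
  refine ⟨H 1, ⟨H, ?_, ?_, rfl⟩, ?_, ?_, ?_⟩
  · simp only [hH]
    exact rFc_cont
  · ext x
    rw [hH]
    induction x using OnePoint.rec with
    | infty => rfl
    | coe z =>
      show ((rfc ((0 : unitInterval) : ℝ) z : ℂ) : OnePoint ℂ) = (z : OnePoint ℂ)
      unfold rfc
      simp
  · rfl
  · intro z hz
    rw [hH, rFc_coe]
    unfold rfc
    rw [min_eq_right hz]
    simp
  · intro z hz
    rw [hH, rFc_coe]
    unfold rfc
    rw [min_eq_left hz]
    simp

theorem coe_zero_nm : nm ((0 : ℂ) : OnePoint ℂ) = 0 := by simp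

theorem fix_cases (B : OnePoint ℂ ≃ₜ OnePoint ℂ)
    (h2 : ∀ z : ℂ, ‖z‖ ≤ 1 → B z = (((‖z‖ : ℝ) : ℂ) * z : ℂ)) (x : OnePoint ℂ) (hx : B x = x) :
    x = ((0 : ℂ) : OnePoint ℂ) ∨ 1 ≤ nm x := by
  induction x using OnePoint.rec with
  | infty => right; simp
  | coe z =>
    by_cases hz : 1 ≤ ‖z‖
    · right
      rw [nm_coe]
      exact ENNReal.one_le_ofReal.mpr hz
    · left
      push Not at hz
      rw [h2 z hz.le] at hx
      have h3 := OnePoint.coe_injective hx
      by_contra hne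
      have hz0 : z ≠ 0 := fun h => hne (by rw [h])
      have h4 : (((‖z‖ : ℝ) : ℂ) - 1) * z = 0 := by rw [sub_mul, h3, one_mul, sub_self]
      rcases mul_eq_zero.mp h4 with h5 | h5
      · have : ((‖z‖ : ℝ) : ℂ) = 1 := sub_eq_zero.mp h5
        have : ‖z‖ = 1 := by exact_mod_cast this
        linarith
      · exact hz0 h5

theorem fix_of_nm (B : OnePoint ℂ ≃ₜ OnePoint ℂ) (h0 : B OnePoint.infty = OnePoint.infty)
    (h1 : ∀ z : ℂ, 1 ≤ ‖z‖ → B z = (z : OnePoint ℂ)) (x : OnePoint ℂ) (hx : 1 ≤ nm x) :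
    B x = x := by
  induction x using OnePoint.rec with
  | infty => exact h0
  | coe z =>
    apply h1
    rw [nm_coe] at hx
    exact ENNReal.one_le_ofReal.mp hx

theorem nm_B_le (B : OnePoint ℂ ≃ₜ OnePoint ℂ) (h0 : B OnePoint.infty = OnePoint.infty)
    (h1 : ∀ z : ℂ, 1 ≤ ‖z‖ → B z = (z : OnePoint ℂ))
    (h2 : ∀ z : ℂ, ‖z‖ ≤ 1 → B z = (((‖z‖ : ℝ) : ℂ) * z : ℂ)) (x : OnePoint ℂ) :
    nm (B x) ≤ nm x := by
  induction x using OnePoint.rec with
  | infty => rw [h0]
  | coe z =>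
    by_cases hz : 1 ≤ ‖z‖
    · rw [h1 z hz]
    · push Not at hz
      rw [h2 z hz.le, nm_coe, nm_coe]
      apply ENNReal.ofReal_le_ofReal
      rw [norm_mul, Complex.norm_real, norm_norm]
      nlinarith [norm_nonneg z]

/-- points of norm at least one are limits of other such points -/
theorem acc_pt (p : OnePoint ℂ) (hp : 1 ≤ nm p) :
    p ∈ closure {x : OnePoint ℂ | 1 ≤ nm x ∧ x ≠ p} := by
  induction p using OnePoint.rec with
  | infty =>
    have hseq : Tendsto (fun n : ℕ => ((((1 : ℝ) / ((n : ℝ) + 1) : ℝ) : ℂ))) atTop (𝓝 0) := by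
      have := tendsto_one_div_add_atTop_nhds_zero_nat (𝕜 := ℝ)
      have h := (Complex.continuous_ofReal.tendsto 0).comp this
      rw [Complex.ofReal_zero] at h
      exact h
    have h3 : Tendsto (fun n : ℕ => iotaF (((((1 : ℝ) / ((n : ℝ) + 1) : ℝ) : ℂ)) : OnePoint ℂ))
        atTop (𝓝 OnePoint.infty) := by
      have h4 := (iotaF_cont.comp OnePoint.continuous_coe).tendsto (0 : ℂ)
      rw [← iotaF_zero]
      exact h4.comp hseq
    apply mem_closure_of_tendsto h3
    apply Eventually.of_forall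
    intro n
    have hn : ((((1 : ℝ) / ((n : ℝ) + 1) : ℝ) : ℂ)) ≠ 0 := by
      have : (1 : ℝ) / ((n : ℝ) + 1) ≠ 0 := by positivity
      exact_mod_cast this
    refine ⟨?_, ?_⟩
    · rw [iotaF_coe _ hn, nm_coe]
      apply ENNReal.one_le_ofReal.mpr
      rw [norm_inv, Complex.norm_real, Real.norm_eq_abs, abs_of_nonneg (by positivity)]
      rw [one_div, inv_inv]
      have : (0 : ℝ) ≤ n := Nat.cast_nonneg n
      linarith
    · rw [iotaF_coe _ hn]
      exact OnePoint.coe_ne_infty _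
  | coe y =>
    have hy : 1 ≤ ‖y‖ := ENNReal.one_le_ofReal.mp hp
    have hseq : Tendsto (fun n : ℕ => (((1 + (1 : ℝ) / ((n : ℝ) + 1) : ℝ) : ℂ) * y)) atTop
        (𝓝 y) := by
      have := tendsto_one_div_add_atTop_nhds_zero_nat (𝕜 := ℝ)
      have hc : Continuous (fun r : ℝ => ((1 + r : ℝ) : ℂ) * y) := by fun_prop
      have h : Tendsto (fun n : ℕ => (((1 + (1 : ℝ) / ((n : ℝ) + 1) : ℝ) : ℂ) * y)) atTop
        (𝓝 ((((1 + 0 : ℝ)) : ℂ) * y)) := (hc.tendsto 0).comp this
      have e : ((((1 + 0 : ℝ)) : ℂ) * y) = y := by simp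
      rwa [e] at h
    have h3 := (OnePoint.continuous_coe.tendsto y).comp hseq
    apply mem_closure_of_tendsto h3
    apply Eventually.of_forall
    intro n
    have hpos : (0 : ℝ) < 1 / ((n : ℝ) + 1) := by positivity
    refine ⟨?_, ?_⟩
    · show 1 ≤ nm (((((1 + (1 : ℝ) / ((n : ℝ) + 1) : ℝ) : ℂ) * y : ℂ)) : OnePoint ℂ)
      rw [nm_coe]
      apply ENNReal.one_le_ofReal.mpr
      rw [norm_mul, Complex.norm_real, Real.norm_eq_abs, abs_of_nonneg (by positivity)]
      nlinarith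
    · intro h
      have h4 := OnePoint.coe_injective (show (((((1 + (1 : ℝ) / ((n : ℝ) + 1) : ℝ) : ℂ) * y : ℂ)) : OnePoint ℂ) = (y : OnePoint ℂ) from h)
      have h5 := congrArg norm h4
      rw [norm_mul, Complex.norm_real, Real.norm_eq_abs, abs_of_nonneg (by positivity)] at h5
      nlinarith

/-- `B` is not conjugate to its inverse -/
theorem not_reversible (B s : OnePoint ℂ ≃ₜ OnePoint ℂ)
    (h0 : B OnePoint.infty = OnePoint.infty)
    (h1 : ∀ z : ℂ, 1 ≤ ‖z‖ → B z = (z : OnePoint ℂ))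
    (h2 : ∀ z : ℂ, ‖z‖ ≤ 1 → B z = (((‖z‖ : ℝ) : ℂ) * z : ℂ)) : s * B * s⁻¹ ≠ B⁻¹ := by
  intro hrev
  have hr : ∀ x, B (s (B x)) = s x := by
    intro x
    have h3 : (s * B * s⁻¹) (s x) = B⁻¹ (s x) := by rw [hrev]
    have h4 : (s * B * s⁻¹) (s x) = s (B x) := by
      show s (B (s.symm (s x))) = s (B x)
      rw [Homeomorph.symm_apply_apply]
    rw [h4] at h3
    rw [h3]
    show B (B.symm (s x)) = s x
    rw [Homeomorph.apply_symm_apply]
  have hB0 : B ((0 : ℂ) : OnePoint ℂ) = ((0 : ℂ) : OnePoint ℂ) := by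
    rw [h2 0 (by simp)]; simp
  have hfixback : ∀ x, B (s x) = s x → B x = x := by
    intro x hx
    have h3 := hr x
    have h4 : B (s (B x)) = B (s x) := by rw [h3, hx]
    exact s.injective (B.injective h4)
  -- `s 0 = 0`
  have hs0 : s ((0 : ℂ) : OnePoint ℂ) = ((0 : ℂ) : OnePoint ℂ) := by
    have hfp : B (s ((0 : ℂ) : OnePoint ℂ)) = s ((0 : ℂ) : OnePoint ℂ) := by
      have := hr ((0 : ℂ) : OnePoint ℂ)
      rwa [hB0] at this
    rcases fix_cases B h2 _ hfp with h3 | h3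
    · exact h3
    · exfalso
      have hcl := acc_pt _ h3
      have hsub : s.symm '' {x : OnePoint ℂ | 1 ≤ nm x ∧ x ≠ s ((0 : ℂ) : OnePoint ℂ)} ⊆
          {x | 1 ≤ nm x} := by
        rintro _ ⟨x, ⟨hx1, hx2⟩, rfl⟩
        have hBx := fix_of_nm B h0 h1 x hx1
        have h5 : B (s.symm x) = s.symm x := by
          apply hfixback
          rw [Homeomorph.apply_symm_apply]
          exact hBx
        rcases fix_cases B h2 _ h5 with h6 | h6
        · exact absurd (by rw [← h6, Homeomorph.apply_symm_apply]) hx2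
        · exact h6
      have h6 : s.symm (s ((0 : ℂ) : OnePoint ℂ)) ∈
          closure (s.symm '' {x : OnePoint ℂ | 1 ≤ nm x ∧ x ≠ s ((0 : ℂ) : OnePoint ℂ)}) :=
        image_closure_subset_closure_image s.symm.continuous (mem_image_of_mem _ hcl)
      rw [Homeomorph.symm_apply_apply] at h6
      have hclosed : IsClosed {x : OnePoint ℂ | 1 ≤ nm x} := isClosed_le continuous_const nm_cont
      have h7 := (closure_minimal hsub hclosed) h6
      have h8 : 1 ≤ nm ((0 : ℂ) : OnePoint ℂ) := h7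
      rw [coe_zero_nm] at h8
      exact absurd h8 (by simp)
  -- the orbit of `1/2`
  let a : ℕ → ℝ := fun n => (1 / 2 : ℝ) ^ (2 ^ n)
  have ha0 : ∀ n, 0 < a n := fun n => by positivity
  have ha1 : ∀ n, a n ≤ 1 := fun n => pow_le_one₀ (by norm_num) (by norm_num)
  let xs : ℕ → OnePoint ℂ := fun n => (((a n : ℝ) : ℂ) : OnePoint ℂ)
  have hxs : ∀ n, B (xs n) = xs (n + 1) := by
    intro n
    show B (((a n : ℝ) : ℂ) : OnePoint ℂ) = (((a (n + 1) : ℝ) : ℂ) : OnePoint ℂ)
    have hn : ‖((a n : ℝ) : ℂ)‖ = a n := by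
      rw [Complex.norm_real, Real.norm_eq_abs, abs_of_pos (ha0 n)]
    rw [h2 _ (by rw [hn]; exact ha1 n), hn, ← Complex.ofReal_mul]
    congr 3
    show (1 / 2 : ℝ) ^ (2 ^ n) * (1 / 2 : ℝ) ^ (2 ^ n) = (1 / 2 : ℝ) ^ (2 ^ (n + 1))
    rw [← pow_add]; congr 1; ring
  have hmono : ∀ n, nm (s (xs 0)) ≤ nm (s (xs n)) := by
    intro n
    induction n with
    | zero => exact le_rfl
    | succ n ih =>
      refine ih.trans ?_
      have := hr (xs n)
      rw [hxs] at this
      rw [← this]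
      exact nm_B_le B h0 h1 h2 _
  have hlim : Tendsto (fun n => nm (s (xs n))) atTop (𝓝 0) := by
    have h3 : Tendsto a atTop (𝓝 0) := by
      have h4 : Tendsto (fun n : ℕ => (1 / 2 : ℝ) ^ n) atTop (𝓝 0) :=
        tendsto_pow_atTop_nhds_zero_of_lt_one (by norm_num) (by norm_num)
      have h5 : Tendsto (fun n : ℕ => 2 ^ n) atTop atTop :=
        tendsto_pow_atTop_atTop_of_one_lt (by norm_num)
      exact h4.comp h5
    have hc : Continuous (fun r : ℝ => nm (s (((r : ℝ) : ℂ) : OnePoint ℂ))) :=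
      nm_cont.comp (s.continuous.comp (OnePoint.continuous_coe.comp Complex.continuous_ofReal))
    have h6 := (hc.tendsto 0).comp h3
    have h7 : nm (s (((0 : ℝ) : ℂ) : OnePoint ℂ)) = 0 := by
      rw [Complex.ofReal_zero, hs0, coe_zero_nm]
    rw [h7] at h6
    exact h6
  have h8 : nm (s (xs 0)) ≤ 0 := ge_of_tendsto' hlim hmono
  have h9 : nm (s (xs 0)) = 0 := le_antisymm h8 bot_le
  have h10 : s (xs 0) = ((0 : ℂ) : OnePoint ℂ) := by
    generalize s (xs 0) = y at h9
    induction y using OnePoint.rec with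
    | infty => simp at h9
    | coe z =>
      rw [nm_coe, ENNReal.ofReal_eq_zero] at h9
      have : z = 0 := norm_eq_zero.mp (le_antisymm h9 (norm_nonneg _))
      rw [this]
  rw [← hs0] at h10
  have h11 := OnePoint.coe_injective (s.injective h10)
  have h12 : a 0 = 0 := by exact_mod_cast h11
  exact (ha0 0).ne' h12

theorem scal_neg_sq : scal (-1) * scal (-1) = 1 := by
  ext x
  rw [Homeomorph.mul_apply]
  induction x using OnePoint.rec with
  | infty => rw [scal_infty, scal_infty]; rfl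
  | coe z =>
    rw [scal_coe _ (by norm_num), scal_coe _ (by norm_num)]
    simp

theorem scal_neg_ne : scal (-1) ≠ 1 := by
  intro h
  have h1 : scal (-1) ((1 : ℂ) : OnePoint ℂ) = ((1 : ℂ) : OnePoint ℂ) := by rw [h]; rfl
  rw [scal_coe _ (by norm_num)] at h1
  have := OnePoint.coe_injective h1
  norm_num at this

theorem B_ne_one (B : OnePoint ℂ ≃ₜ OnePoint ℂ)
    (h2 : ∀ z : ℂ, ‖z‖ ≤ 1 → B z = (((‖z‖ : ℝ) : ℂ) * z : ℂ)) : B ≠ 1 := by
  intro h
  have hn : ‖(((1 / 2 : ℝ)) : ℂ)‖ = 1 / 2 := by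
    rw [Complex.norm_real]; norm_num
  have h1 := h2 (((1 / 2 : ℝ)) : ℂ) (by rw [hn]; norm_num)
  rw [h, hn] at h1
  have h3 : (((1 / 2 : ℝ) : ℂ)) = (((1 / 2 : ℝ)) : ℂ) * (((1 / 2 : ℝ)) : ℂ) :=
    OnePoint.coe_injective h1
  rw [← Complex.ofReal_mul] at h3
  have h4 : (1 / 2 : ℝ) = 1 / 2 * (1 / 2) := by exact_mod_cast h3
  norm_num at h4

theorem conj_sq {G : Type*} [Group G] {A : G} (hA : A * A = 1) (H : G) :
    (H * A * H⁻¹) * (H * A * H⁻¹) = 1 := by
  have : (H * A * H⁻¹) * (H * A * H⁻¹) = H * (A * A) * H⁻¹ := by group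
  rw [this, hA]; group

theorem rev_aux {G : Type*} [Group G] {S T B : G} (hS : S * S = 1) (hT : T * T = 1)
    (hB : B = S * T) : S * B * S⁻¹ = B⁻¹ := by
  have hSi : S⁻¹ = S := (eq_inv_of_mul_eq_one_left hS).symm
  have hTi : T⁻¹ = T := (eq_inv_of_mul_eq_one_left hT).symm
  rw [hB, mul_inv_rev, hTi, hSi, ← mul_assoc, hS, one_mul]

theorem not_pn_one : ¬ PN (OnePoint ℂ) 1 := by
  intro h
  obtain ⟨B, hB, h0, h1, h2⟩ := contr_exists
  obtain ⟨H, hH⟩ := h (scal (-1)) B rot_isot hB scal_neg_ne (B_ne_one B h2)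
  have hH' : B = H 0 * scal (-1) * (H 0)⁻¹ := by
    rw [hH]; simp
  apply not_reversible B 1 h0 h1 h2
  have h3 : B * B = 1 := by rw [hH']; exact conj_sq scal_neg_sq _
  rw [one_mul, inv_one, mul_one]
  exact eq_inv_of_mul_eq_one_left h3

theorem not_pn_two : ¬ PN (OnePoint ℂ) 2 := by
  intro h
  obtain ⟨B, hB, h0, h1, h2⟩ := contr_exists
  obtain ⟨H, hH⟩ := h (scal (-1)) B rot_isot hB scal_neg_ne (B_ne_one B h2)
  have hH' : B = (H 0 * scal (-1) * (H 0)⁻¹) * (H 1 * scal (-1) * (H 1)⁻¹) := by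
    rw [hH]; simp [List.ofFn_succ]
  have hS := conj_sq scal_neg_sq (H 0)
  have hT := conj_sq scal_neg_sq (H 1)
  exact not_reversible B _ h0 h1 h2 (rev_aux hS hT hH')

end Pool.Agent.SphN
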