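import Mathlib
import Pool.Agent.SphN.NormS

set_option autoImplicit false

namespace Pool.Agent.SphN
open Topology Set Filter

variable {f g K : OnePoint ℂ ≃ₜ OnePoint ℂ} {a b : ℝ}

theorem Setup.c4_a1 (hs : Setup f g K a b) : a < 1 / a := by
  have h := hs.a0
  have h2 : a < 1 := hs.ab.trans hs.b1
  rw [lt_div_iff₀ h]
  nlinarith

theorem Setup.c4_x0 (hs : Setup f g K a b) :
    ∃ x0 : OnePoint ℂ, nm x0 = ENNReal.ofReal (1 / a) ∧ nm (K x0) = ENNReal.ofReal b := by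
  have ha := hs.a0
  have hb : 0 < b := ha.trans hs.ab
  have hn : ‖((1 / a : ℝ) : ℂ)‖ = 1 / a := by
    rw [Complex.norm_real, Real.norm_eq_abs, abs_of_pos (by positivity)]
  refine ⟨(((1 / a : ℝ) : ℂ) : OnePoint ℂ), by rw [nm_coe, hn], ?_⟩
  rw [hs.k2 _ hn, nm_coe, norm_mul, hn, Complex.norm_real, Real.norm_eq_abs,
    abs_of_pos (by positivity)]
  congr 1
  field_simp

theorem Setup.c4_x1 (hs : Setup f g K a b) :
    ∃ x0 : OnePoint ℂ, nm x0 = ENNReal.ofReal a ∧ nm (K x0) = ENNReal.ofReal a := by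
  have ha := hs.a0
  have hn : ‖((a : ℝ) : ℂ)‖ = a := by
    rw [Complex.norm_real, Real.norm_eq_abs, abs_of_pos (by positivity)]
  refine ⟨(((a : ℝ) : ℂ) : OnePoint ℂ), by rw [nm_coe, hn], ?_⟩
  rw [hs.k1 _ (by rw [nm_coe, hn]), nm_coe, hn]

theorem Setup.K_lt (hs : Setup f g K a b) (x : OnePoint ℂ) :
    ENNReal.ofReal (1 / a) < nm x ↔ ENNReal.ofReal b < nm (K x) := by
  rw [← not_le, ← not_le, not_iff_not]
  obtain ⟨x0, h0, h1⟩ := hs.c4_x0
  rw [← h0, hs.k3 x x0, h1]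

theorem Setup.K_le (hs : Setup f g K a b) (x : OnePoint ℂ) :
    ENNReal.ofReal (1 / a) ≤ nm x ↔ ENNReal.ofReal b ≤ nm (K x) := by
  obtain ⟨x0, h0, h1⟩ := hs.c4_x0
  rw [← h0, hs.k3 x0 x, h1]

theorem Setup.Ka_lt (hs : Setup f g K a b) (x : OnePoint ℂ) :
    ENNReal.ofReal a < nm x ↔ ENNReal.ofReal a < nm (K x) := by
  rw [← not_le, ← not_le, not_iff_not]
  obtain ⟨x0, h0, h1⟩ := hs.c4_x1
  conv_lhs => rw [← h0]
  rw [hs.k3 x x0, h1]

theorem Setup.Ka_le (hs : Setup f g K a b) (x : OnePoint ℂ) :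
    ENNReal.ofReal a ≤ nm x ↔ ENNReal.ofReal a ≤ nm (K x) := by
  obtain ⟨x0, h0, h1⟩ := hs.c4_x1
  conv_lhs => rw [← h0]
  rw [hs.k3 x0 x, h1]

theorem c4_inv {t : ℝ} (ht : 0 < t) : ENNReal.ofReal (1 / t) = (ENNReal.ofReal t)⁻¹ := by
  rw [one_div, ENNReal.ofReal_inv_of_pos ht]

theorem c4_back (f : OnePoint ℂ ≃ₜ OnePoint ℂ) (b : ℝ)
    (hf : ∀ x, nm x ≤ ENNReal.ofReal b → f x = iota x) (x : OnePoint ℂ)
    (h : nm (iota (f x)) ≤ ENNReal.ofReal b) : iota (f x) = x := by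
  apply f.injective
  rw [hf _ h, iota_iota]

/-- on discs `|z| ≤ t`, `t ≤ b`, the map `f` is the inversion, so it maps the disc onto the
complementary disc `|z| ≥ 1/t` -/
theorem disc_iff (f : OnePoint ℂ ≃ₜ OnePoint ℂ) (b t : ℝ)
    (hf : ∀ x, nm x ≤ ENNReal.ofReal b → f x = iota x) (ht : 0 < t) (htb : t ≤ b)
    (x : OnePoint ℂ) : nm x ≤ ENNReal.ofReal t ↔ ENNReal.ofReal (1 / t) ≤ nm (f x) := by
  rw [c4_inv ht]
  refine ⟨fun h => ?_, fun h => ?_⟩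
  · rw [hf x (h.trans (ENNReal.ofReal_le_ofReal htb)), nm_iota]
    exact ENNReal.inv_le_inv.mpr h
  · have h3 : nm (iota (f x)) ≤ ENNReal.ofReal t := by
      rw [nm_iota]
      exact ENNReal.inv_le_iff_inv_le.mp h
    rw [← c4_back f b hf x (h3.trans (ENNReal.ofReal_le_ofReal htb))]
    exact h3

theorem disc_iff' (f : OnePoint ℂ ≃ₜ OnePoint ℂ) (b t : ℝ)
    (hf : ∀ x, nm x ≤ ENNReal.ofReal b → f x = iota x) (ht : 0 < t) (htb : t ≤ b)
    (x : OnePoint ℂ) : nm x < ENNReal.ofReal t ↔ ENNReal.ofReal (1 / t) < nm (f x) := by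
  rw [c4_inv ht]
  refine ⟨fun h => ?_, fun h => ?_⟩
  · rw [hf x (h.le.trans (ENNReal.ofReal_le_ofReal htb)), nm_iota]
    exact ENNReal.inv_lt_inv.mpr h
  · have h3 : nm (iota (f x)) < ENNReal.ofReal t := by
      rw [nm_iota]
      exact ENNReal.inv_lt_iff_inv_lt.mp h
    rw [← c4_back f b hf x (h3.le.trans (ENNReal.ofReal_le_ofReal htb))]
    exact h3

/-- a homeomorphism which is the identity off a disc preserves the disc -/
theorem supp_lt (θ : OnePoint ℂ ≃ₜ OnePoint ℂ) (t : ENNReal) (h : ∀ x, t ≤ nm x → θ x = x)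
    (x : OnePoint ℂ) : nm x < t ↔ nm (θ x) < t := by
  refine ⟨fun hx => ?_, fun hx => ?_⟩
  · by_contra hc
    rw [not_lt] at hc
    have h1 : θ x = x := θ.injective (h _ hc)
    rw [h1] at hc
    exact absurd hx (not_lt.mpr hc)
  · by_contra hc
    rw [not_lt] at hc
    rw [h x hc] at hx
    exact absurd hx (not_lt.mpr hc)

theorem supp_gt (θ : OnePoint ℂ ≃ₜ OnePoint ℂ) (t : ENNReal) (h : ∀ x, nm x ≤ t → θ x = x)
    (x : OnePoint ℂ) : t < nm x ↔ t < nm (θ x) := by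
  refine ⟨fun hx => ?_, fun hx => ?_⟩
  · by_contra hc
    rw [not_lt] at hc
    have h1 : θ x = x := θ.injective (h _ hc)
    rw [h1] at hc
    exact absurd hx (not_lt.mpr hc)
  · by_contra hc
    rw [not_lt] at hc
    rw [h x hc] at hx
    exact absurd hx (not_lt.mpr hc)

theorem c4_LL (f g K θ₁ θ₂ : OnePoint ℂ ≃ₜ OnePoint ℂ) (y : OnePoint ℂ) :
    LL f g K θ₁ θ₂ (K (θ₁ (θ₂ y))) = f (K (θ₁ (θ₂ (g y)))) := by
  have h : (K * (θ₁ * θ₂))⁻¹ (K (θ₁ (θ₂ y))) = y :=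
    (K * (θ₁ * θ₂)).symm_apply_apply y
  show f ((K * (θ₁ * θ₂)) (g ((K * (θ₁ * θ₂))⁻¹ (K (θ₁ (θ₂ y)))))) = _
  rw [h]
  rfl

/-- the modified product maps `|z| ≥ a` onto `|z| ≥ 1/b` and is a scaling on `|z| = a` -/
theorem Setup.bdry (hs : Setup f g K a b) (θ₁ θ₂ : OnePoint ℂ ≃ₜ OnePoint ℂ)
    (h1 : ∀ x, nm x ≤ ENNReal.ofReal (1 / a) → θ₁ x = x)
    (h2 : ∀ x, ENNReal.ofReal a ≤ nm x → θ₂ x = x) :
    (∀ x, ENNReal.ofReal a ≤ nm x ↔ ENNReal.ofReal (1 / b) ≤ nm (LL f g K θ₁ θ₂ x)) ∧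
    ∀ x, nm x = ENNReal.ofReal a → LL f g K θ₁ θ₂ x = scal ((1 / (a * b) : ℝ) : ℂ) x := by
  have ha := hs.a0
  have hb : 0 < b := ha.trans hs.ab
  have haa := hs.c4_a1
  have haaE : ENNReal.ofReal a < ENNReal.ofReal (1 / a) :=
    (ENNReal.ofReal_lt_ofReal_iff (by positivity)).mpr haa
  constructor
  · intro x
    obtain ⟨y, rfl⟩ : ∃ y, K (θ₁ (θ₂ y)) = x :=
      ⟨θ₂.symm (θ₁.symm (K.symm x)), by simp⟩
    have hL : LL f g K θ₁ θ₂ (K (θ₁ (θ₂ y))) = f (K (θ₁ (θ₂ (g y)))) := c4_LL f g K θ₁ θ₂ y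
    rw [hL, ← not_lt, ← not_lt, not_iff_not]
    -- left chain
    have e1 : nm (K (θ₁ (θ₂ y))) < ENNReal.ofReal a ↔ nm (θ₁ (θ₂ y)) < ENNReal.ofReal a := by
      rw [← not_le, ← not_le, not_iff_not]
      exact (hs.Ka_le _).symm
    have e2 : nm (θ₁ (θ₂ y)) < ENNReal.ofReal a ↔ nm (θ₂ y) < ENNReal.ofReal a := by
      refine ⟨fun h => ?_, fun h => ?_⟩
      · have h3 : θ₁ (θ₂ y) = θ₂ y := θ₁.injective (h1 _ (h.trans haaE).le)
        rwa [h3] at h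
      · rw [h1 _ (h.trans haaE).le]; exact h
    have e3 : nm (θ₂ y) < ENNReal.ofReal a ↔ nm y < ENNReal.ofReal a := (supp_lt θ₂ _ h2 y).symm
    have e4 := disc_iff' g b a hs.hg ha hs.ab.le y
    have e5 : ENNReal.ofReal (1 / a) < nm (g y) ↔ ENNReal.ofReal (1 / a) < nm (θ₂ (g y)) := by
      refine ⟨fun h => ?_, fun h => ?_⟩
      · rw [h2 _ (haaE.trans h).le]; exact h
      · have h3 : θ₂ (g y) = g y := θ₂.injective (h2 _ (haaE.trans h).le)
        rwa [h3] at h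
    have e6 := supp_gt θ₁ _ h1 (θ₂ (g y))
    have e7 := hs.K_lt (θ₁ (θ₂ (g y)))
    have e8 : ENNReal.ofReal b < nm (K (θ₁ (θ₂ (g y)))) ↔
        nm (f (K (θ₁ (θ₂ (g y))))) < ENNReal.ofReal (1 / b) := by
      rw [← not_le, ← not_le, not_iff_not]
      exact disc_iff f b b hs.hf hb le_rfl _
    exact e1.trans (e2.trans (e3.trans (e4.trans (e5.trans (e6.trans (e7.trans e8))))))
  · intro x hx
    have k0 : K x = x := hs.k1 x hx.le
    have t1 : θ₁ x = x := h1 x (hx.le.trans haaE.le)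
    have t2 : θ₂ x = x := h2 x hx.ge
    have hL : LL f g K θ₁ θ₂ x = f (K (θ₁ (θ₂ (g x)))) := by
      have := c4_LL f g K θ₁ θ₂ x
      rwa [t2, t1, k0] at this
    rw [hL, hs.hg x (hx.le.trans (ENNReal.ofReal_le_ofReal hs.ab.le))]
    induction x using OnePoint.rec with
    | infty => exact absurd hx (by rw [nm_infty]; exact ENNReal.ofReal_ne_top.symm)
    | coe z =>
      have hz : ‖z‖ = a := by
        rw [nm_coe] at hx
        rw [← ENNReal.ofReal_eq_ofReal_iff (norm_nonneg _) ha.le]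
        exact hx
      have hz0 : z ≠ 0 := by
        rintro rfl
        rw [norm_zero] at hz
        exact ha.ne hz
      have hi : iota (z : OnePoint ℂ) = ((z⁻¹ : ℂ) : OnePoint ℂ) := iotaF_coe z hz0
      have hn : ‖z⁻¹‖ = 1 / a := by rw [norm_inv, hz, one_div]
      have hnn : nm ((z⁻¹ : ℂ) : OnePoint ℂ) = ENNReal.ofReal (1 / a) := by rw [nm_coe, hn]
      have hne : (((a * b : ℝ) : ℂ) * z⁻¹) ≠ 0 :=
        mul_ne_zero (by exact_mod_cast (by positivity : a * b ≠ 0)) (inv_ne_zero hz0)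
      rw [hi, h2 _ (by rw [hnn]; exact haaE.le), h1 _ hnn.le, hs.k2 _ hn, hs.hf _ (by
        rw [nm_coe, norm_mul, hn, Complex.norm_real, Real.norm_eq_abs, abs_of_pos (by positivity)]
        apply ENNReal.ofReal_le_ofReal
        apply le_of_eq
        field_simp), scal_coe _ (by
          have : (1 / (a * b) : ℝ) ≠ 0 := by positivity
          exact_mod_cast this)]
      have h5 : iota ((((a * b : ℝ) : ℂ) * z⁻¹ : ℂ) : OnePoint ℂ)
        = (((((a * b : ℝ) : ℂ) * z⁻¹)⁻¹ : ℂ) : OnePoint ℂ) := iotaF_coe _ hne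
      rw [h5]
      congr 1
      rw [mul_inv, inv_inv]
      push_cast
      rw [one_div]

end Pool.Agent.SphN
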