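import Mathlib
import Pool.Agent.SphN.Defs

set_option autoImplicit false

namespace Pool.Agent.SphN
open Topology Set Filter

theorem h208_max_abs (x y : ℝ) : |max 0 x - max 0 y| ≤ |x - y| := by
  rcases le_total 0 x with hx | hx <;> rcases le_total 0 y with hy | hy
  · rw [max_eq_right hx, max_eq_right hy]
  · rw [max_eq_right hx, max_eq_left hy, abs_of_nonneg (by linarith), abs_of_nonneg (by linarith)]
    linarith
  · rw [max_eq_left hx, max_eq_right hy, abs_of_nonpos (by linarith), abs_of_nonpos (by linarith)]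
    linarith
  · rw [max_eq_left hx, max_eq_left hy, sub_self, abs_zero]
    exact abs_nonneg _

/-- push a point of the disc to the centre -/
theorem push_disc (a : ℝ) (ha : 0 < a) (c : ℂ) (hc : ‖c‖ < a) :
    ∃ ν : ℂ ≃ₜ ℂ, (∀ z, a ≤ ‖z‖ → ν z = z) ∧ ν c = 0 := by
  set P : ℂ → ℂ := fun x => x + (max 0 (1 - ‖x‖ / a)) • c with hP
  have hK : 0 ≤ ‖c‖ / a := by positivity
  have hlin : ApproximatesLinearOn P ((ContinuousLinearEquiv.refl ℝ ℂ : ℂ ≃L[ℝ] ℂ) : ℂ →L[ℝ] ℂ)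
      univ ⟨‖c‖ / a, hK⟩ := by
    intro x _ y _
    have h1 : P x - P y - ((ContinuousLinearEquiv.refl ℝ ℂ : ℂ ≃L[ℝ] ℂ) : ℂ →L[ℝ] ℂ) (x - y) =
        (max 0 (1 - ‖x‖ / a) - max 0 (1 - ‖y‖ / a)) • c := by
      simp only [hP, sub_smul, ContinuousLinearEquiv.coe_coe, ContinuousLinearEquiv.refl_apply]
      ring
    rw [h1, norm_smul, Real.norm_eq_abs]
    have h2 := h208_max_abs (1 - ‖x‖ / a) (1 - ‖y‖ / a)
    have h3 : |(1 - ‖x‖ / a) - (1 - ‖y‖ / a)| ≤ ‖x - y‖ / a := by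
      have : (1 - ‖x‖ / a) - (1 - ‖y‖ / a) = (‖y‖ - ‖x‖) / a := by ring
      rw [this, abs_div, abs_of_pos ha]
      apply div_le_div_of_nonneg_right _ ha.le
      rw [abs_sub_comm]
      exact abs_norm_sub_norm_le x y
    show |max 0 (1 - ‖x‖ / a) - max 0 (1 - ‖y‖ / a)| * ‖c‖ ≤ ‖c‖ / a * ‖x - y‖
    calc |max 0 (1 - ‖x‖ / a) - max 0 (1 - ‖y‖ / a)| * ‖c‖ ≤ (‖x - y‖ / a) * ‖c‖ :=
          mul_le_mul_of_nonneg_right (h2.trans h3) (norm_nonneg _)
      _ = ‖c‖ / a * ‖x - y‖ := by ring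
  have hc' : Subsingleton ℂ ∨ (⟨‖c‖ / a, hK⟩ : NNReal) <
      ‖(((ContinuousLinearEquiv.refl ℝ ℂ : ℂ ≃L[ℝ] ℂ).symm : ℂ ≃L[ℝ] ℂ) : ℂ →L[ℝ] ℂ)‖₊⁻¹ := by
    right
    have h1 : ‖(((ContinuousLinearEquiv.refl ℝ ℂ : ℂ ≃L[ℝ] ℂ).symm : ℂ ≃L[ℝ] ℂ) : ℂ →L[ℝ] ℂ)‖₊ = 1 := by
      have : (((ContinuousLinearEquiv.refl ℝ ℂ : ℂ ≃L[ℝ] ℂ).symm : ℂ ≃L[ℝ] ℂ) : ℂ →L[ℝ] ℂ) =
        ContinuousLinearMap.id ℝ ℂ := rfl
      rw [this]
      exact ContinuousLinearMap.nnnorm_id
    rw [h1, inv_one]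
    refine NNReal.coe_lt_coe.1 ?_
    show ‖c‖ / a < ((1 : NNReal) : ℝ)
    rw [NNReal.coe_one, div_lt_one ha]
    exact hc
  set Q := hlin.toHomeomorph P hc' with hQ
  have hQP : ∀ x, Q x = P x := fun x => rfl
  refine ⟨Q.symm, ?_, ?_⟩
  · intro z hz
    rw [Homeomorph.symm_apply_eq, hQP]
    show z = z + (max 0 (1 - ‖z‖ / a)) • c
    have : 1 - ‖z‖ / a ≤ 0 := by
      rw [sub_nonpos, one_le_div ha]
      exact hz
    rw [max_eq_left this, zero_smul, add_zero]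
  · rw [Homeomorph.symm_apply_eq, hQP]
    show c = 0 + (max 0 (1 - ‖(0:ℂ)‖ / a)) • c
    simp

/-- radial homeomorphisms -/
theorem h208_radial_cont (e : ℝ ≃o ℝ) (h0 : e 0 = 0) :
    Continuous (fun z : ℂ => (e ‖z‖ / ‖z‖) • z) := by
  have he : Continuous e := e.continuous
  rw [continuous_iff_continuousAt]
  intro z
  by_cases hz : z = 0
  · subst hz
    show Tendsto (fun z : ℂ => (e ‖z‖ / ‖z‖) • z) (𝓝 0) (𝓝 ((e ‖(0 : ℂ)‖ / ‖(0 : ℂ)‖) • (0 : ℂ)))
    rw [smul_zero, tendsto_zero_iff_norm_tendsto_zero]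
    have h1 : Tendsto (fun z : ℂ => e ‖z‖) (𝓝 0) (𝓝 0) := by
      have : Continuous (fun z : ℂ => e ‖z‖) := he.comp continuous_norm
      have h2 := this.tendsto (0 : ℂ)
      simpa [h0] using h2
    refine h1.congr (fun w => ?_)
    by_cases hw : w = 0
    · rw [hw]; simp [h0]
    · have hw' : 0 < ‖w‖ := norm_pos_iff.2 hw
      have hew : 0 ≤ e ‖w‖ := by rw [← h0]; exact e.monotone hw'.le
      rw [norm_smul, Real.norm_eq_abs, abs_of_nonneg (by positivity), div_mul_cancel₀ _ hw'.ne']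
  · have hz' : ‖z‖ ≠ 0 := norm_ne_zero_iff.2 hz
    refine Tendsto.smul (f := fun z : ℂ => e ‖z‖ / ‖z‖) (g := fun z : ℂ => z) ?_ ?_
    · exact ((he.comp continuous_norm).continuousAt).div continuous_norm.continuousAt hz'
    · exact continuousAt_id

theorem h208_radial_norm (e : ℝ ≃o ℝ) (h0 : e 0 = 0) (z : ℂ) :
    ‖(e ‖z‖ / ‖z‖) • z‖ = e ‖z‖ := by
  by_cases hw : z = 0
  · rw [hw]; simp [h0]
  · have hw' : 0 < ‖z‖ := norm_pos_iff.2 hw
    have hew : 0 ≤ e ‖z‖ := by rw [← h0]; exact e.monotone hw'.le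
    rw [norm_smul, Real.norm_eq_abs, abs_of_nonneg (by positivity), div_mul_cancel₀ _ hw'.ne']

theorem h208_radial_inv (e : ℝ ≃o ℝ) (h0 : e 0 = 0) (z : ℂ) :
    (e.symm ‖(e ‖z‖ / ‖z‖) • z‖ / ‖(e ‖z‖ / ‖z‖) • z‖) • ((e ‖z‖ / ‖z‖) • z) = z := by
  rw [h208_radial_norm e h0, OrderIso.symm_apply_apply]
  by_cases hw : z = 0
  · rw [hw]; simp
  · have hw' : 0 < ‖z‖ := norm_pos_iff.2 hw
    have hew : 0 < e ‖z‖ := by rw [← h0]; exact e.strictMono hw'
    rw [smul_smul, div_mul_div_comm, mul_comm (‖z‖), div_self (by positivity), one_smul]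

theorem h208_radial (e : ℝ ≃o ℝ) (h0 : e 0 = 0) :
    ∃ R : ℂ ≃ₜ ℂ, ∀ z, R z = (e ‖z‖ / ‖z‖) • z := by
  have h0' : e.symm 0 = 0 := by rw [OrderIso.symm_apply_eq, h0]
  refine ⟨{ toFun := fun z => (e ‖z‖ / ‖z‖) • z
            invFun := fun z => (e.symm ‖z‖ / ‖z‖) • z
            left_inv := fun z => h208_radial_inv e h0 z
            right_inv := fun z => h208_radial_inv e.symm h0' z
            continuous_toFun := h208_radial_cont e h0
            continuous_invFun := h208_radial_cont e.symm h0' }, fun z => rfl⟩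

/-- a continuous monotone majorant -/
theorem h208_majorant (a : ℝ) (ha : 0 < a) (F : ℂ → ℂ)
    (hF : ContinuousOn F (Metric.closedBall 0 a)) (hF0 : F 0 = 0)
    (hm : ∀ z, ‖z‖ ≤ a → ‖F z‖ < a) :
    ∃ m : ℝ → ℝ, Continuous m ∧ Monotone m ∧ (∀ t ≤ 0, m t = 0) ∧ m a < a ∧
      ∀ z t, ‖z‖ ≤ t → t ≤ a → ‖F z‖ ≤ m t := by
  let cl : ℝ → ℝ := fun t => max 0 (min t a)
  have hcl0 : ∀ t, 0 ≤ cl t := fun t => le_max_left _ _
  have hcla : ∀ t, cl t ≤ a := fun t => max_le ha.le (min_le_right _ _)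
  have hclc : Continuous cl := by fun_prop
  have hclm : Monotone cl := fun s t hst => max_le_max le_rfl (min_le_min hst le_rfl)
  let f : ℝ → (Metric.closedBall (0 : ℂ) 1) → ℝ := fun t w => ‖F ((cl t) • (w : ℂ))‖
  have hin : ∀ t (w : Metric.closedBall (0 : ℂ) 1), ‖(cl t) • (w : ℂ)‖ ≤ a := by
    intro t w
    have hw : ‖(w : ℂ)‖ ≤ 1 := mem_closedBall_zero_iff.1 w.2
    rw [norm_smul, Real.norm_eq_abs, abs_of_nonneg (hcl0 t)]
    calc cl t * ‖(w : ℂ)‖ ≤ a * 1 := mul_le_mul (hcla t) hw (norm_nonneg _) ha.le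
      _ = a := mul_one a
  have hfc : Continuous ↿f := by
    show Continuous (fun q : ℝ × (Metric.closedBall (0 : ℂ) 1) => ‖F ((cl q.1) • (q.2 : ℂ))‖)
    apply Continuous.norm
    apply hF.comp_continuous (f := fun q : ℝ × (Metric.closedBall (0 : ℂ) 1) =>
      (cl q.1) • (q.2 : ℂ))
    · fun_prop
    · intro q
      simpa using hin q.1 q.2
  have hfc1 : ∀ t, Continuous (f t) := fun t =>
    hfc.comp (continuous_const.prodMk continuous_id)
  have hcpt : IsCompact (univ : Set (Metric.closedBall (0 : ℂ) 1)) := isCompact_univ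
  have hne : (univ : Set (Metric.closedBall (0 : ℂ) 1)).Nonempty := ⟨⟨0, by simp⟩, trivial⟩
  have hbdd : ∀ t, BddAbove (f t '' univ) := fun t =>
    (hcpt.image (hfc1 t)).bddAbove
  refine ⟨fun t => sSup (f t '' univ), hcpt.continuous_sSup hfc, ?_, ?_, ?_, ?_⟩
  · intro s t hst
    apply csSup_le (hne.image _)
    rintro _ ⟨w, -, rfl⟩
    have hcc := hclm hst
    by_cases ht : cl t = 0
    · have hs : cl s = 0 := le_antisymm (ht ▸ hcc) (hcl0 s)
      have : f s w = f t w := by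
        show ‖F ((cl s) • (w : ℂ))‖ = ‖F ((cl t) • (w : ℂ))‖
        rw [hs, ht]
      rw [this]
      exact le_csSup (hbdd t) ⟨w, trivial, rfl⟩
    · have ht' : 0 < cl t := lt_of_le_of_ne (hcl0 t) (Ne.symm ht)
      have hw : ‖(w : ℂ)‖ ≤ 1 := mem_closedBall_zero_iff.1 w.2
      have hw' : ‖(cl s / cl t) • (w : ℂ)‖ ≤ 1 := by
        rw [norm_smul, Real.norm_eq_abs, abs_of_nonneg (div_nonneg (hcl0 s) (hcl0 t))]
        have : cl s / cl t ≤ 1 := (div_le_one ht').2 hcc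
        calc cl s / cl t * ‖(w : ℂ)‖ ≤ 1 * 1 :=
              mul_le_mul this hw (norm_nonneg _) zero_le_one
          _ = 1 := one_mul 1
      have : f s w = f t ⟨(cl s / cl t) • (w : ℂ), by simpa using hw'⟩ := by
        show ‖F ((cl s) • (w : ℂ))‖ = ‖F ((cl t) • ((cl s / cl t) • (w : ℂ)))‖
        rw [smul_smul, mul_div_cancel₀ _ ht'.ne']
      rw [this]
      exact le_csSup (hbdd t) ⟨_, trivial, rfl⟩
  · intro t ht
    have hclt : cl t = 0 := max_eq_left ((min_le_left _ _).trans ht)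
    have : f t '' univ = {0} := by
      ext x
      constructor
      · rintro ⟨w, -, rfl⟩
        show ‖F ((cl t) • (w : ℂ))‖ = 0
        rw [hclt, zero_smul, hF0, norm_zero]
      · rintro rfl
        refine ⟨⟨0, by simp⟩, trivial, ?_⟩
        show ‖F ((cl t) • (0 : ℂ))‖ = 0
        rw [smul_zero, hF0, norm_zero]
    show sSup (f t '' univ) = 0
    rw [this, csSup_singleton]
  · obtain ⟨w, -, hw⟩ := (hcpt.image (hfc1 a)).sSup_mem (hne.image _)
    show sSup (f a '' univ) < a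
    rw [← hw]
    exact hm _ (hin a w)
  · intro z t hzt hta
    have ht0 : 0 ≤ t := (norm_nonneg z).trans hzt
    have hclt : cl t = t := by
      show max 0 (min t a) = t
      rw [min_eq_left hta, max_eq_right ht0]
    by_cases ht : t = 0
    · have hz : z = 0 := norm_le_zero_iff.1 (ht ▸ hzt)
      rw [hz]
      apply le_csSup (hbdd t)
      refine ⟨⟨0, by simp⟩, trivial, ?_⟩
      show ‖F ((cl t) • (0 : ℂ))‖ = _
      rw [smul_zero]
    · have ht' : 0 < t := lt_of_le_of_ne ht0 (Ne.symm ht)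
      apply le_csSup (hbdd t)
      refine ⟨⟨(t⁻¹) • z, ?_⟩, trivial, ?_⟩
      · rw [mem_closedBall_zero_iff, norm_smul, norm_inv, Real.norm_eq_abs, abs_of_pos ht',
          inv_mul_le_iff₀ ht', mul_one]
        exact hzt
      · show ‖F ((cl t) • (t⁻¹ • z))‖ = _
        rw [hclt, smul_smul, mul_inv_cancel₀ ht, one_smul]

/-- radial homeomorphism of the disc making a given map a contraction towards the centre -/
theorem radial_contract (a : ℝ) (ha : 0 < a) (F : ℂ → ℂ)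
    (hF : ContinuousOn F (Metric.closedBall 0 a)) (hF0 : F 0 = 0)
    (hm : ∀ z, ‖z‖ ≤ a → ‖F z‖ < a) :
    ∃ R : ℂ ≃ₜ ℂ, (∀ z, a ≤ ‖z‖ → R z = z) ∧
      ∀ r > 0, ∃ n : ℕ, ∀ z, ‖z‖ ≤ a → ‖(fun w => F (R w))^[n] z‖ < r := by
  obtain ⟨m, hmc, hmm, hm0, hma, hmF⟩ := h208_majorant a ha F hF hF0 hm
  set s0 : ℝ := (m a + a) / 2 with hs0
  have hma0 : 0 ≤ m a := by rw [← hm0 0 le_rfl]; exact hmm ha.le
  have hs0pos : 0 < s0 := by rw [hs0]; linarith
  have hs0a : s0 < a := by rw [hs0]; linarith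
  have hms0 : m a ≤ s0 := by rw [hs0]; linarith
  set κ : ℝ := (a - s0) / a with hκ
  have hκ0 : 0 < κ := div_pos (by linarith) ha
  have hκ1 : κ < 1 := by rw [hκ, div_lt_one ha]; linarith
  have hκa : κ * a = a - s0 := div_mul_cancel₀ _ ha.ne'
  let ell : ℝ → ℝ := fun t => max t (min (2 * m t) s0 + κ * t)
  have hell_cont : Continuous ell := by fun_prop
  have hell_mono : StrictMono ell := by
    intro s t hst
    apply max_lt_max hst
    have h1 : min (2 * m s) s0 ≤ min (2 * m t) s0 :=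
      min_le_min (by have := hmm hst.le; linarith) le_rfl
    have h2 : κ * s < κ * t := mul_lt_mul_of_pos_left hst hκ0
    linarith
  have hell_0 : ell 0 = 0 := by
    show max (0 : ℝ) (min (2 * m 0) s0 + κ * 0) = 0
    rw [hm0 0 le_rfl, mul_zero, mul_zero, min_eq_left hs0pos.le, add_zero, max_self]
  have hell_a : ∀ t, a ≤ t → ell t = t := by
    intro t ht
    show max t (min (2 * m t) s0 + κ * t) = t
    apply max_eq_left
    have h1 : min (2 * m t) s0 ≤ s0 := min_le_right _ _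
    have h2 : (1 - κ) * a ≤ (1 - κ) * t := mul_le_mul_of_nonneg_left ht (by linarith)
    have h3 : (1 - κ) * a = s0 := by rw [sub_mul, hκa]; ring
    linarith
  have hell_neg : ∀ t ≤ 0, ell t = κ * t := by
    intro t ht
    show max t (min (2 * m t) s0 + κ * t) = κ * t
    rw [hm0 t ht, mul_zero, min_eq_left hs0pos.le, zero_add]
    apply max_eq_right
    nlinarith
  have hell_surj : Function.Surjective ell := by
    apply hell_cont.surjective
    · apply tendsto_atTop_mono (f := fun t => t)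
      · intro t
        exact le_max_left _ _
      · exact tendsto_id
    · have h1 : Tendsto (fun t : ℝ => κ * t) atBot atBot :=
        tendsto_id.const_mul_atBot hκ0
      refine h1.congr' ?_
      filter_upwards [eventually_le_atBot 0] with t ht
      exact (hell_neg t ht).symm
  let e : ℝ ≃o ℝ := StrictMono.orderIsoOfSurjective ell hell_mono hell_surj
  have he : ∀ t, e t = ell t := fun t => rfl
  have he0 : e.symm 0 = 0 := by rw [OrderIso.symm_apply_eq, he, hell_0]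
  obtain ⟨R, hR⟩ := h208_radial e.symm he0
  have hRn : ∀ z, ‖R z‖ = e.symm ‖z‖ := by
    intro z
    rw [hR]
    exact h208_radial_norm e.symm he0 z
  have hRn' : ∀ z, ell ‖R z‖ = ‖z‖ := by
    intro z
    rw [hRn, ← he, OrderIso.apply_symm_apply]
  refine ⟨R, ?_, ?_⟩
  · intro z hz
    have h1 : e.symm ‖z‖ = ‖z‖ := by
      rw [OrderIso.symm_apply_eq, he, hell_a _ hz]
    have hz0 : ‖z‖ ≠ 0 := (lt_of_lt_of_le ha hz).ne'
    rw [hR, h1, div_self hz0, one_smul]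
  · have hRle : ∀ z, ‖R z‖ ≤ ‖z‖ := by
      intro z
      rw [← hRn' z]
      exact le_max_left _ _
    have hG1 : ∀ z, ‖z‖ ≤ a → ‖F (R z)‖ ≤ s0 := by
      intro z hz
      exact (hmF (R z) a ((hRle z).trans hz) le_rfl).trans hms0
    have hG2 : ∀ z, ‖z‖ ≤ s0 → ‖F (R z)‖ ≤ ‖z‖ / 2 := by
      intro z hz
      have h1 := hRn' z
      have h2 : min (2 * m ‖R z‖) s0 + κ * ‖R z‖ ≤ ‖z‖ := by
        rw [← h1]; exact le_max_right _ _
      have h3 : ‖F (R z)‖ ≤ m ‖R z‖ := hmF (R z) _ le_rfl ((hRle z).trans (hz.trans hs0a.le))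
      have h4 : 0 ≤ κ * ‖R z‖ := by positivity
      rcases le_total (2 * m ‖R z‖) s0 with h5 | h5
      · rw [min_eq_left h5] at h2
        linarith
      · rw [min_eq_right h5] at h2
        have h6 : κ * ‖R z‖ = 0 := le_antisymm (by linarith) h4
        have h7 : ‖R z‖ = 0 := by
          rcases mul_eq_zero.1 h6 with h8 | h8
          · exact absurd h8 hκ0.ne'
          · exact h8
        rw [h7, hm0 0 le_rfl] at h3
        have := norm_nonneg z
        linarith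
    have hiter : ∀ n : ℕ, ∀ w, ‖w‖ ≤ s0 → ‖(fun w => F (R w))^[n] w‖ ≤ s0 / 2 ^ n := by
      intro n w hw
      induction n with
      | zero => simpa using hw
      | succ n ih =>
        rw [Function.iterate_succ_apply']
        have h1 : s0 / 2 ^ n ≤ s0 := div_le_self hs0pos.le (one_le_pow₀ (by norm_num))
        have h2 := hG2 _ (ih.trans h1)
        have h3 : s0 / 2 ^ (n + 1) = s0 / 2 ^ n / 2 := by rw [pow_succ]; field_simp
        rw [h3]
        show ‖F (R ((fun w => F (R w))^[n] w))‖ ≤ s0 / 2 ^ n / 2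
        linarith
    intro r hr
    obtain ⟨n, hn⟩ := exists_pow_lt_of_lt_one (div_pos hr hs0pos) (by norm_num : (1 / 2 : ℝ) < 1)
    refine ⟨n + 1, ?_⟩
    intro z hz
    rw [Function.iterate_succ_apply]
    refine lt_of_le_of_lt (hiter n _ (hG1 z hz)) ?_
    rw [lt_div_iff₀ hs0pos, one_div, inv_pow, inv_mul_eq_div] at hn
    exact hn

/-- combine the two -/
theorem disc_contract (a : ℝ) (ha : 0 < a) (ξ : ℂ → ℂ)
    (hξ : ContinuousOn ξ (Metric.closedBall 0 a)) (hm : ∀ z, ‖z‖ ≤ a → ‖ξ z‖ < a) :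
    ∃ θ : ℂ ≃ₜ ℂ, (∀ z, a ≤ ‖z‖ → θ z = z) ∧ ∃ c : ℂ, ‖c‖ < a ∧
      ∀ r > 0, ∃ n : ℕ, ∀ z, ‖z‖ ≤ a → ‖(fun w => ξ (θ w))^[n] z - c‖ < r := by
  have hc : ‖ξ 0‖ < a := hm 0 (by rw [norm_zero]; exact ha.le)
  obtain ⟨ν, hν1, hν2⟩ := push_disc a ha (ξ 0) hc
  have hνin : ∀ z, ‖z‖ < a → ‖ν z‖ < a := by
    intro z hz
    by_contra hcon
    rw [not_lt] at hcon
    have h1 := hν1 (ν z) hcon
    have h2 := ν.injective h1
    rw [h2] at hcon
    linarith
  have hνin' : ∀ z, ‖z‖ ≤ a → ‖ν z‖ ≤ a := by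
    intro z hz
    rcases lt_or_eq_of_le hz with h | h
    · exact (hνin z h).le
    · rw [hν1 z h.ge]; exact hz
  obtain ⟨R, hR1, hR2⟩ := radial_contract a ha (fun z => ν (ξ z))
    (ν.continuous.comp_continuousOn hξ) hν2 (fun z hz => hνin _ (hm z hz))
  refine ⟨ν.trans R, ?_, ξ 0, hc, ?_⟩
  · intro z hz
    show R (ν z) = z
    rw [hν1 z hz, hR1 z hz]
  · intro r hr
    have hcont : ContinuousAt ν.symm 0 := ν.symm.continuous.continuousAt
    have hν0 : ν.symm 0 = ξ 0 := by rw [Homeomorph.symm_apply_eq, hν2]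
    rw [Metric.continuousAt_iff] at hcont
    obtain ⟨r', hr', hball⟩ := hcont r hr
    obtain ⟨n, hn⟩ := hR2 r' hr'
    refine ⟨n, fun z hz => ?_⟩
    have hsemi : Function.Semiconj ν (fun w => ξ ((ν.trans R) w)) (fun w => ν (ξ (R w))) := by
      intro w
      rfl
    have h1 := (hsemi.iterate_right n) z
    have h2 := hn (ν z) (hνin' z hz)
    rw [← h1] at h2
    have h3 := hball (x := ν ((fun w => ξ ((ν.trans R) w))^[n] z)) (by
      rw [dist_zero_right]; exact h2)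
    rw [Homeomorph.symm_apply_apply, hν0, dist_eq_norm] at h3
    exact h3

end Pool.Agent.SphN
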