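import Mathlib
import Pool.Agent.SphN.Disc
import Pool.Agent.SphN.NormS

set_option autoImplicit false

namespace Pool.Agent.SphN
open Topology Set Filter

/-- the finite part -/
noncomputable def contract0_toC : OnePoint ℂ → ℂ := fun x => Option.elim x 0 id

theorem contract0_toC_coe (z : ℂ) : contract0_toC (z : OnePoint ℂ) = z := rfl

theorem contract0_toC_cont (w : ℂ) : ContinuousAt contract0_toC (w : OnePoint ℂ) := by
  rw [OnePoint.continuousAt_coe]
  exact continuousAt_id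

theorem contract0 (a : ℝ) (ha : 0 < a) (ξ : OnePoint ℂ → OnePoint ℂ) (hξ : Continuous ξ)
    (hm : ∀ x, nm x ≤ ENNReal.ofReal a → nm (ξ x) < ENNReal.ofReal a) :
    ∃ θ : OnePoint ℂ ≃ₜ OnePoint ℂ, (∀ x, ENNReal.ofReal a ≤ nm x → θ x = x) ∧
      ∃ c : OnePoint ℂ, ∀ U ∈ 𝓝 c, ∃ n : ℕ, ∀ x, nm x ≤ ENNReal.ofReal a →
        (fun w => ξ (θ w))^[n] x ∈ U := by
  have hfin : ∀ z : ℂ, ‖z‖ ≤ a → ξ (z : OnePoint ℂ) = ((contract0_toC (ξ z) : ℂ) : OnePoint ℂ) := by
    intro z hz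
    have h1 := hm (z : OnePoint ℂ) (by rw [nm_coe]; exact ENNReal.ofReal_le_ofReal hz)
    revert h1
    induction ξ (z : OnePoint ℂ) using OnePoint.rec with
    | infty =>
      intro h1
      rw [nm_infty] at h1
      exact absurd h1 not_top_lt
    | coe w => exact fun _ => rfl
  have hcont : ContinuousOn (fun z : ℂ => contract0_toC (ξ z)) (Metric.closedBall 0 a) := by
    intro z hz
    have hz' : ‖z‖ ≤ a := by simpa using hz
    apply ContinuousAt.continuousWithinAt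
    have h1 : ContinuousAt contract0_toC (ξ (z : OnePoint ℂ)) := by
      rw [hfin z hz']
      exact contract0_toC_cont _
    have h2 : ContinuousAt (fun z : ℂ => ξ (z : OnePoint ℂ)) z :=
      (hξ.comp OnePoint.continuous_coe).continuousAt
    exact ContinuousAt.comp (f := fun z : ℂ => ξ (z : OnePoint ℂ)) (g := contract0_toC) h1 h2
  have hlt : ∀ z : ℂ, ‖z‖ ≤ a → ‖contract0_toC (ξ z)‖ < a := by
    intro z hz
    have h1 := hm (z : OnePoint ℂ) (by rw [nm_coe]; exact ENNReal.ofReal_le_ofReal hz)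
    rw [hfin z hz, nm_coe] at h1
    exact (ENNReal.ofReal_lt_ofReal_iff ha).1 h1
  obtain ⟨θ, hθ, c, hc, hconv⟩ := disc_contract a ha (fun z : ℂ => contract0_toC (ξ z)) hcont hlt
  have hdisc : ∀ z, ‖z‖ ≤ a → ‖θ z‖ ≤ a := by
    intro z hz
    by_contra h1
    push Not at h1
    have h2 := hθ (θ z) h1.le
    have h3 := θ.injective h2
    rw [h3] at h1
    exact absurd hz (not_le.2 h1)
  have hiter : ∀ z : ℂ, ‖z‖ ≤ a → ∀ n : ℕ,
      (fun w => ξ (ext θ w))^[n] (z : OnePoint ℂ) =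
        (((fun w => contract0_toC (ξ ((θ w : ℂ) : OnePoint ℂ)))^[n] z : ℂ) : OnePoint ℂ) ∧
      ‖(fun w => contract0_toC (ξ ((θ w : ℂ) : OnePoint ℂ)))^[n] z‖ ≤ a := by
    intro z hz n
    induction n with
    | zero => exact ⟨rfl, hz⟩
    | succ n ih =>
      obtain ⟨i1, i2⟩ := ih
      rw [Function.iterate_succ_apply', Function.iterate_succ_apply', i1]
      set w := (fun w => contract0_toC (ξ ((θ w : ℂ) : OnePoint ℂ)))^[n] z with hw
      have h3 := hdisc w i2
      refine ⟨?_, (hlt _ h3).le⟩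
      show ξ (ext θ (w : OnePoint ℂ)) = _
      rw [ext_coe]
      exact hfin _ h3
  refine ⟨ext θ, ?_, (c : OnePoint ℂ), ?_⟩
  · intro x
    induction x using OnePoint.rec with
    | infty => intro _; exact ext_infty θ
    | coe z =>
      intro h
      rw [nm_coe] at h
      have h1 : a ≤ ‖z‖ := (ENNReal.ofReal_le_ofReal_iff (norm_nonneg z)).1 h
      rw [ext_coe, hθ z h1]
  · intro U hU
    have h1 : (fun z : ℂ => (z : OnePoint ℂ)) ⁻¹' U ∈ 𝓝 c :=
      OnePoint.continuous_coe.continuousAt.preimage_mem_nhds hU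
    obtain ⟨r, hr, hrU⟩ := Metric.mem_nhds_iff.1 h1
    obtain ⟨n, hn⟩ := hconv r hr
    refine ⟨n, fun x => ?_⟩
    induction x using OnePoint.rec with
    | infty =>
      intro h
      rw [nm_infty] at h
      exact absurd (top_le_iff.1 h) ENNReal.ofReal_ne_top
    | coe z =>
      intro h
      rw [nm_coe] at h
      have h2 : ‖z‖ ≤ a := (ENNReal.ofReal_le_ofReal_iff ha.le).1 h
      rw [(hiter z h2 n).1]
      apply hrU
      rw [Metric.mem_ball, dist_eq_norm]
      exact hn z h2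

theorem contractInf (b : ℝ) (hb : 0 < b) (ξ : OnePoint ℂ → OnePoint ℂ) (hξ : Continuous ξ)
    (hm : ∀ x, ENNReal.ofReal b ≤ nm x → ENNReal.ofReal b < nm (ξ x)) :
    ∃ θ : OnePoint ℂ ≃ₜ OnePoint ℂ, (∀ x, nm x ≤ ENNReal.ofReal b → θ x = x) ∧
      ∃ c : OnePoint ℂ, ∀ U ∈ 𝓝 c, ∃ n : ℕ, ∀ x, ENNReal.ofReal b ≤ nm x →
        (fun w => ξ (θ w))^[n] x ∈ U := by
  have hb' : (0 : ℝ) < b⁻¹ := inv_pos.2 hb
  have hinv : ENNReal.ofReal b⁻¹ = (ENNReal.ofReal b)⁻¹ := ENNReal.ofReal_inv_of_pos hb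
  have hc1 : Continuous (fun x => iota (ξ (iota x))) :=
    iota.continuous.comp (hξ.comp iota.continuous)
  obtain ⟨θ, hθ, c, hconv⟩ := contract0 b⁻¹ hb' (fun x => iota (ξ (iota x))) hc1 (by
    intro x hx
    rw [nm_iota, hinv, ENNReal.inv_lt_inv]
    apply hm
    rw [nm_iota, ENNReal.le_inv_iff_le_inv, ← hinv]
    exact hx)
  have hiter : ∀ (n : ℕ) (x : OnePoint ℂ),
      iota ((fun w => ξ ((iota * θ * iota : OnePoint ℂ ≃ₜ OnePoint ℂ) w))^[n] x) =
        (fun w => iota (ξ (iota (θ w))))^[n] (iota x) := by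
    intro n
    have hs : Function.Semiconj iota
        (fun w => ξ ((iota * θ * iota : OnePoint ℂ ≃ₜ OnePoint ℂ) w))
        (fun w => iota (ξ (iota (θ w)))) := fun y => rfl
    exact fun x => hs.iterate_right n x
  refine ⟨iota * θ * iota, ?_, iota c, ?_⟩
  · intro x hx
    have h1 : θ (iota x) = iota x := by
      apply hθ
      rw [nm_iota, hinv, ENNReal.inv_le_inv]
      exact hx
    show iota (θ (iota x)) = x
    rw [h1, iota_iota]
  · intro U hU
    have h1 : iota ⁻¹' U ∈ 𝓝 c := iota.continuous.continuousAt.preimage_mem_nhds hU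
    obtain ⟨n, hn⟩ := hconv _ h1
    refine ⟨n, fun x hx => ?_⟩
    have h2 := hn (iota x) (by
      rw [nm_iota, hinv, ENNReal.inv_le_inv]
      exact hx)
    have h3 : iota ((fun w => iota (ξ (iota (θ w))))^[n] (iota x)) ∈ U := h2
    rw [← hiter, iota_iota] at h3
    exact h3

end Pool.Agent.SphN
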