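import Mathlib
import Pool.Agent.SphN.Bdry
import Pool.Agent.SphN.DiscInf

set_option autoImplicit false

namespace Pool.Agent.SphN
open Topology Set Filter

variable {f g K : OnePoint ℂ ≃ₜ OnePoint ℂ} {a b : ℝ}

theorem aux_fix (θ : OnePoint ℂ ≃ₜ OnePoint ℂ) (x : OnePoint ℂ) (h : θ x = x) :
    θ.symm x = x := by
  conv_lhs => rw [← h]
  exact θ.symm_apply_apply x

theorem aux_inv (a : ℝ) (ha : 0 < a) : (ENNReal.ofReal (1 / a))⁻¹ = ENNReal.ofReal a := by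
  rw [one_div, ENNReal.ofReal_inv_of_pos ha, inv_inv]

theorem LL_apply (f g K θ₁ θ₂ : OnePoint ℂ ≃ₜ OnePoint ℂ) (x : OnePoint ℂ) :
    LL f g K θ₁ θ₂ x = f (K (θ₁ (θ₂ (g (θ₂.symm (θ₁.symm (K.symm x))))))) := rfl

theorem LL_symm_apply (f g K θ₁ θ₂ : OnePoint ℂ ≃ₜ OnePoint ℂ) (x : OnePoint ℂ) :
    (LL f g K θ₁ θ₂).symm x =
      K (θ₁ (θ₂ (g.symm (θ₂.symm (θ₁.symm (K.symm (f.symm x))))))) := rfl

/-- attracting side -/
theorem Setup.attract (hs : Setup f g K a b) :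
    ∃ θ₁ : OnePoint ℂ ≃ₜ OnePoint ℂ, (∀ x, nm x ≤ ENNReal.ofReal (1 / a) → θ₁ x = x) ∧
      ∃ c : OnePoint ℂ, ∀ θ₂ : OnePoint ℂ ≃ₜ OnePoint ℂ,
        (∀ x, ENNReal.ofReal a ≤ nm x → θ₂ x = x) →
        (∀ x, ENNReal.ofReal (1 / a) ≤ nm x → θ₂ (g x) = g x) →
        (∀ x, ENNReal.ofReal a ≤ nm x → ENNReal.ofReal (1 / b) ≤ nm (LL f g K θ₁ θ₂ x)) →
        ∀ U ∈ 𝓝 c, ∃ n : ℕ, ∀ x, ENNReal.ofReal a ≤ nm x →
          (⇑(LL f g K θ₁ θ₂))^[n] x ∈ U := by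
  have ha := hs.a0
  have hab := hs.ab
  have hb1 := hs.b1
  have hb : 0 < b := ha.trans hab
  have ha1 : a < 1 := hab.trans hb1
  have h1a : 1 < 1 / a := by rw [lt_div_iff₀ ha]; linarith
  have h1b : 1 < 1 / b := by rw [lt_div_iff₀ hb]; linarith
  have hpa : 0 < 1 / a := by linarith
  have e1 : ENNReal.ofReal a < ENNReal.ofReal (1 / a) :=
    (ENNReal.ofReal_lt_ofReal_iff hpa).2 (by linarith)
  have e2 : ENNReal.ofReal b ≤ ENNReal.ofReal (1 / b) := ENNReal.ofReal_le_ofReal (by linarith)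
  have hg1 : ∀ y, ENNReal.ofReal (1 / a) ≤ nm y → nm (g y) < ENNReal.ofReal (1 / a) := by
    intro y hy
    have := disc_iff g b a hs.hg ha hab.le y
    by_contra hcon
    rw [not_lt, ← this] at hcon
    exact absurd (hy.trans hcon) (not_le.2 e1)
  set ξ : OnePoint ℂ → OnePoint ℂ := fun y => K.symm (f (K (g y))) with hξ
  have hξc : Continuous ξ := by
    rw [hξ]
    fun_prop
  have hm : ∀ x, ENNReal.ofReal (1 / a) ≤ nm x → ENNReal.ofReal (1 / a) < nm (ξ x) := by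
    intro y hy
    rw [hs.K_lt]
    show ENNReal.ofReal b < nm (K (K.symm (f (K (g y)))))
    rw [K.apply_symm_apply]
    have h2 : nm (K (g y)) < ENNReal.ofReal b := by
      have := hs.K_le (g y)
      by_contra hcon
      rw [not_lt, ← this] at hcon
      exact absurd hcon (not_le.2 (hg1 y hy))
    exact e2.trans_lt ((disc_iff' f b b hs.hf hb le_rfl _).1 h2)
  obtain ⟨θ', hθ', c0, hc0⟩ := contractInf (1 / a) hpa ξ hξc hm
  refine ⟨θ'.symm, fun x hx => aux_fix θ' x (hθ' x hx), K c0, ?_⟩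
  intro θ₂ h2 h3 h4 U hU
  have hθge : ∀ y, ENNReal.ofReal (1 / a) ≤ nm y → ENNReal.ofReal (1 / a) ≤ nm (θ' y) := by
    intro y hy
    rcases eq_or_lt_of_le hy with h | h
    · rw [hθ' y h.symm.le]; exact hy
    · exact ((supp_gt θ' _ hθ' y).1 h).le
  have hLL : ∀ x, ENNReal.ofReal b ≤ nm x →
      LL f g K θ'.symm θ₂ x = K (ξ (θ' (K.symm x))) := by
    intro x hx
    have hy : ENNReal.ofReal (1 / a) ≤ nm (K.symm x) := by
      rw [hs.K_le, K.apply_symm_apply]; exact hx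
    have hz := hθge _ hy
    rw [LL_apply]
    have s1 : θ'.symm.symm (K.symm x) = θ' (K.symm x) := rfl
    rw [s1, aux_fix θ₂ _ (h2 _ (e1.le.trans hz)), h3 _ hz,
      aux_fix θ' _ (hθ' _ (hg1 _ hz).le)]
    show _ = K (K.symm (f (K (g (θ' (K.symm x))))))
    rw [K.apply_symm_apply]
  have hiter : ∀ n : ℕ, ∀ x, ENNReal.ofReal b ≤ nm x →
      (⇑(LL f g K θ'.symm θ₂))^[n] x = K ((fun w => ξ (θ' w))^[n] (K.symm x)) := by
    intro n
    induction n with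
    | zero => intro x _; simp
    | succ n ih =>
      intro x hx
      have hy : ENNReal.ofReal (1 / a) ≤ nm (K.symm x) := by
        rw [hs.K_le, K.apply_symm_apply]; exact hx
      rw [Function.iterate_succ_apply, Function.iterate_succ_apply, hLL x hx, ih, K.symm_apply_apply]
      exact ((hs.K_lt _).1 (hm _ (hθge _ hy))).le
  have hU' : K ⁻¹' U ∈ 𝓝 c0 := K.continuous.continuousAt hU
  obtain ⟨n, hn⟩ := hc0 _ hU'
  refine ⟨n + 1, fun x hx => ?_⟩
  have hx' : ENNReal.ofReal b ≤ nm (LL f g K θ'.symm θ₂ x) := e2.trans (h4 x hx)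
  rw [Function.iterate_succ_apply, hiter n _ hx']
  apply hn
  rw [hs.K_le, K.apply_symm_apply]
  exact hx'

/-- repelling side -/
theorem Setup.repel (hs : Setup f g K a b) (θ₁ : OnePoint ℂ ≃ₜ OnePoint ℂ)
    (h1 : ∀ x, nm x ≤ ENNReal.ofReal (1 / a) → θ₁ x = x) :
    ∃ θ₂ : OnePoint ℂ ≃ₜ OnePoint ℂ, (∀ x, ENNReal.ofReal a ≤ nm x → θ₂ x = x) ∧
      ∃ c : OnePoint ℂ, ∀ U ∈ 𝓝 c, ∃ n : ℕ, ∀ x, nm x ≤ ENNReal.ofReal a →
        (⇑(LL f g K θ₁ θ₂).symm)^[n] x ∈ U := by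
  have ha := hs.a0
  have hab := hs.ab
  have hb1 := hs.b1
  have hb : 0 < b := ha.trans hab
  have ha1 : a < 1 := hab.trans hb1
  have h1a : 1 < 1 / a := by rw [lt_div_iff₀ ha]; linarith
  have h1b : 1 < 1 / b := by rw [lt_div_iff₀ hb]; linarith
  have hpa : 0 < 1 / a := by linarith
  have hpb : 0 < 1 / b := by linarith
  have e1 : ENNReal.ofReal a < ENNReal.ofReal (1 / a) :=
    (ENNReal.ofReal_lt_ofReal_iff hpa).2 (by linarith)
  have e3 : ENNReal.ofReal a < ENNReal.ofReal (1 / b) :=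
    (ENNReal.ofReal_lt_ofReal_iff hpb).2 (by linarith)
  have e4 : ENNReal.ofReal a ≤ ENNReal.ofReal b := ENNReal.ofReal_le_ofReal hab.le
  have hw : ∀ x, nm x ≤ ENNReal.ofReal a →
      ENNReal.ofReal (1 / a) < nm (θ₁.symm (K.symm (f.symm x))) := by
    intro x hx
    rw [supp_gt θ₁ _ h1, θ₁.apply_symm_apply, hs.K_lt, K.apply_symm_apply]
    by_contra hcon
    rw [not_lt, disc_iff f b b hs.hf hb le_rfl, f.apply_symm_apply] at hcon
    exact absurd (hcon.trans hx) (not_le.2 e3)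
  set η : OnePoint ℂ → OnePoint ℂ := fun x => iota (θ₁.symm (K.symm (f.symm x))) with hη
  have hηc : Continuous η := by
    rw [hη]
    fun_prop
  have hm : ∀ x, nm x ≤ ENNReal.ofReal a → nm (η x) < ENNReal.ofReal a := by
    intro x hx
    show nm (iota _) < _
    rw [nm_iota, ← aux_inv a ha, ENNReal.inv_lt_inv]
    exact hw x hx
  obtain ⟨θ, hθ, c1, hc1⟩ := contract0 a ha η hηc hm
  refine ⟨θ, hθ, θ c1, ?_⟩
  intro U hU
  have hLL : ∀ x, nm x ≤ ENNReal.ofReal a → (LL f g K θ₁ θ).symm x = θ (η x) := by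
    intro x hx
    have hwx := hw x hx
    rw [LL_symm_apply]
    have s1 : θ.symm (θ₁.symm (K.symm (f.symm x))) = θ₁.symm (K.symm (f.symm x)) :=
      aux_fix θ _ (hθ _ (e1.le.trans hwx.le))
    have s2 : g.symm (θ₁.symm (K.symm (f.symm x))) = η x := by
      rw [Homeomorph.symm_apply_eq]
      rw [hs.hg _ ((hm x hx).le.trans e4)]
      show _ = iota (iota _)
      rw [iota_iota]
    rw [s1, s2]
    have s3 : nm (θ (η x)) < ENNReal.ofReal a := (supp_lt θ _ hθ _).1 (hm x hx)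
    rw [h1 _ (s3.le.trans e1.le), hs.k1 _ s3.le]
  have hLa : ∀ x, nm x ≤ ENNReal.ofReal a → nm ((LL f g K θ₁ θ).symm x) ≤ ENNReal.ofReal a := by
    intro x hx
    rw [hLL x hx]
    exact ((supp_lt θ _ hθ _).1 (hm x hx)).le
  have hiter : ∀ n : ℕ, ∀ x, nm x ≤ ENNReal.ofReal a →
      (⇑(LL f g K θ₁ θ).symm)^[n + 1] x = θ ((fun w => η (θ w))^[n] (η x)) := by
    intro n
    induction n with
    | zero => intro x hx; exact hLL x hx
    | succ n ih =>
      intro x hx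
      rw [Function.iterate_succ_apply, ih _ (hLa x hx), hLL x hx, Function.iterate_succ_apply]
  have hU' : θ ⁻¹' U ∈ 𝓝 c1 := θ.continuous.continuousAt hU
  obtain ⟨n, hn⟩ := hc1 _ hU'
  refine ⟨n + 1, fun x hx => ?_⟩
  rw [hiter n x hx]
  exact hn _ (hm x hx).le

end Pool.Agent.SphN
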