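import Mathlib
import Pool.Agent.SphN.Defs

set_option autoImplicit false

namespace Pool.Agent.SphN
open Topology Set Filter

section Conj

open Classical

variable {S : Type*} [TopologicalSpace S]

/-- the set `L^n X` -/
def CTn (L : S ≃ₜ S) (X : Set S) (n : ℤ) : Set S := {x | (L ^ (-n) : S ≃ₜ S) x ∈ X}

lemma CTn_mem (L : S ≃ₜ S) (X : Set S) (n : ℤ) (x : S) :
    x ∈ CTn L X n ↔ (L ^ (-n) : S ≃ₜ S) x ∈ X := Iff.rfl

lemma Cz_add (L : S ≃ₜ S) (a b : ℤ) (x : S) :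
    (L ^ a : S ≃ₜ S) ((L ^ b : S ≃ₜ S) x) = (L ^ (a + b) : S ≃ₜ S) x := by
  rw [zpow_add]; rfl

lemma Cz_one (L : S ≃ₜ S) (x : S) : (L ^ (1 : ℤ) : S ≃ₜ S) x = L x := by
  rw [zpow_one]

lemma Cz_zero (L : S ≃ₜ S) (x : S) : (L ^ (0 : ℤ) : S ≃ₜ S) x = x := by
  rw [zpow_zero]; rfl

lemma CTn_eq (L : S ≃ₜ S) (X : Set S) (n : ℤ) :
    CTn L X n = (L ^ (-n) : S ≃ₜ S) ⁻¹' X := rfl

lemma CTn_int (L : S ≃ₜ S) (X : Set S) (n : ℤ) :
    interior (CTn L X n) = (L ^ (-n) : S ≃ₜ S) ⁻¹' interior X := by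
  rw [CTn_eq, Homeomorph.preimage_interior]

lemma CTn_succ (L : S ≃ₜ S) (X : Set S) (hL : L '' X ⊆ interior X) (n : ℤ) :
    CTn L X (n + 1) ⊆ interior (CTn L X n) := by
  intro x hx
  rw [CTn_int]
  have h1 : (L ^ (-n) : S ≃ₜ S) x = L ((L ^ (-(n + 1)) : S ≃ₜ S) x) := by
    rw [← Cz_one L ((L ^ (-(n + 1)) : S ≃ₜ S) x), Cz_add]
    congr 2; ring
  show (L ^ (-n) : S ≃ₜ S) x ∈ interior X
  rw [h1]
  exact hL ⟨_, hx, rfl⟩

lemma CTn_anti (L : S ≃ₜ S) (X : Set S) (hL : L '' X ⊆ interior X) {m n : ℤ} (h : m ≤ n) :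
    CTn L X n ⊆ CTn L X m := by
  obtain ⟨k, rfl⟩ := Int.le.dest h
  induction k with
  | zero => simp
  | succ k ih =>
    have h1 : CTn L X (m + ((k + 1 : ℕ) : ℤ)) ⊆ CTn L X (m + (k : ℤ)) := by
      have := (CTn_succ L X hL (m + k)).trans interior_subset
      have e : m + ((k + 1 : ℕ) : ℤ) = m + k + 1 := by push_cast; ring
      rw [e]; exact this
    exact h1.trans (ih (by omega))

lemma CTn_closed (L : S ≃ₜ S) (X : Set S) (hX : IsClosed X) (n : ℤ) : IsClosed (CTn L X n) :=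
  hX.preimage (L ^ (-n) : S ≃ₜ S).continuous

/-- north-south dynamics -/
structure ND (L : S ≃ₜ S) (X : Set S) (p q : S) : Prop where
  closed : IsClosed X
  nest : L '' X ⊆ interior X
  ne : X.Nonempty
  nec : (interior X)ᶜ.Nonempty
  pU : ∀ U ∈ 𝓝 p, ∃ n : ℤ, CTn L X n ⊆ U
  qU : ∀ U ∈ 𝓝 q, ∃ n : ℤ, (interior (CTn L X n))ᶜ ⊆ U

lemma ND.nonem {L : S ≃ₜ S} {X : Set S} {p q : S} (h : ND L X p q) (n : ℤ) :
    (CTn L X n).Nonempty := by
  obtain ⟨x, hx⟩ := h.ne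
  refine ⟨(L ^ n : S ≃ₜ S) x, ?_⟩
  rw [CTn_mem, Cz_add, neg_add_cancel, Cz_zero]
  exact hx

lemma ND.nonemc {L : S ≃ₜ S} {X : Set S} {p q : S} (h : ND L X p q) (n : ℤ) :
    (interior (CTn L X n))ᶜ.Nonempty := by
  obtain ⟨x, hx⟩ := h.nec
  refine ⟨(L ^ n : S ≃ₜ S) x, ?_⟩
  rw [CTn_int]
  intro h1
  rw [Set.mem_preimage, Cz_add, neg_add_cancel, Cz_zero] at h1
  exact hx h1

lemma ND.p_mem {L : S ≃ₜ S} {X : Set S} {p q : S} (h : ND L X p q) (n : ℤ) :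
    p ∈ CTn L X n := by
  by_contra hp
  obtain ⟨m, hm⟩ := h.pU _ ((CTn_closed L X h.closed n).isOpen_compl.mem_nhds hp)
  obtain ⟨y, hy⟩ := h.nonem (max m n)
  exact hm (CTn_anti L X h.nest (le_max_left m n) hy) (CTn_anti L X h.nest (le_max_right m n) hy)

lemma ND.q_nmem {L : S ≃ₜ S} {X : Set S} {p q : S} (h : ND L X p q) (n : ℤ) :
    q ∉ CTn L X n := by
  intro hq
  have h1 : q ∈ interior (CTn L X (n - 1)) := by
    have := CTn_succ L X h.nest (n - 1)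
    rw [sub_add_cancel] at this
    exact this hq
  obtain ⟨m, hm⟩ := h.qU _ (isOpen_interior.mem_nhds h1)
  obtain ⟨y, hy⟩ := h.nonemc (min m (n - 1))
  have h2 : y ∈ (interior (CTn L X m))ᶜ := fun h3 =>
    hy (interior_mono (CTn_anti L X h.nest (min_le_left m (n - 1))) h3)
  exact hy (interior_mono (CTn_anti L X h.nest (min_le_right m (n - 1))) (hm h2))

variable [T2Space S]

lemma ND.p_uniq {L : S ≃ₜ S} {X : Set S} {p q : S} (h : ND L X p q) (x : S)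
    (hx : ∀ n, x ∈ CTn L X n) : x = p := by
  by_contra hne
  obtain ⟨n, hn⟩ := h.pU {x}ᶜ (isOpen_compl_singleton.mem_nhds (fun e => hne e.symm))
  exact hn (hx n) rfl

lemma ND.q_uniq {L : S ≃ₜ S} {X : Set S} {p q : S} (h : ND L X p q) (x : S)
    (hx : ∀ n, x ∉ CTn L X n) : x = q := by
  by_contra hne
  obtain ⟨n, hn⟩ := h.qU {x}ᶜ (isOpen_compl_singleton.mem_nhds (fun e => hne e.symm))
  exact hn (fun h1 => hx n (interior_subset h1)) rfl

lemma ND.ex {L : S ≃ₜ S} {X : Set S} {p q : S} (h : ND L X p q) (x : S) (hp : x ≠ p)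
    (hq : x ≠ q) : ∃ n : ℤ, x ∈ CTn L X n ∧ x ∉ CTn L X (n + 1) := by
  have h1 : ∃ n, x ∉ CTn L X n := by
    by_contra hc; push Not at hc; exact hp (h.p_uniq x hc)
  have h2 : ∃ n, x ∈ CTn L X n := by
    by_contra hc; push Not at hc; exact hq (h.q_uniq x hc)
  obtain ⟨b, hb⟩ := h1
  have hbd : ∃ b : ℤ, ∀ z : ℤ, x ∈ CTn L X z → z ≤ b := by
    refine ⟨b, fun z hz => ?_⟩
    by_contra hlt
    push Not at hlt
    exact hb (CTn_anti L X h.nest hlt.le hz)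
  obtain ⟨n, hn1, hn2⟩ := Int.exists_greatest_of_bdd hbd h2
  refine ⟨n, hn1, fun h3 => ?_⟩
  have := hn2 _ h3
  omega

lemma ND.uniq {L : S ≃ₜ S} {X : Set S} {p q : S} (h : ND L X p q) (x : S) (m n : ℤ)
    (h1 : x ∈ CTn L X m) (h2 : x ∉ CTn L X (m + 1)) (h3 : x ∈ CTn L X n)
    (h4 : x ∉ CTn L X (n + 1)) : m = n := by
  by_contra hne
  rcases lt_or_gt_of_ne hne with hl | hl
  · exact h2 (CTn_anti L X h.nest (by omega) h3)
  · exact h4 (CTn_anti L X h.nest (by omega) h1)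

/-- the conjugating map -/
noncomputable def CPhi (L M : S ≃ₜ S) (X : Set S) (p q p' q' : S) (x : S) : S :=
  if x = p then p' else if x = q then q' else
    if h : ∃ n : ℤ, x ∈ CTn L X n ∧ x ∉ CTn L X (n + 1) then
      (M ^ h.choose : S ≃ₜ S) ((L ^ (-h.choose) : S ≃ₜ S) x) else x

lemma CPhi_p (L M : S ≃ₜ S) (X : Set S) (p q p' q' : S) : CPhi L M X p q p' q' p = p' := by
  unfold CPhi; rw [if_pos rfl]

lemma CPhi_q {L : S ≃ₜ S} (M : S ≃ₜ S) {X : Set S} {p q : S} (h : ND L X p q) (p' q' : S) :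
    CPhi L M X p q p' q' q = q' := by
  have : q ≠ p := by
    intro e
    apply h.q_nmem 0
    rw [e]
    exact h.p_mem 0
  unfold CPhi; rw [if_neg this, if_pos rfl]

lemma CPhi_A {L : S ≃ₜ S} (M : S ≃ₜ S) {X : Set S} {p q : S} (h : ND L X p q) (p' q' : S) (x : S)
    (n : ℤ) (h1 : x ∈ CTn L X n) (h2 : x ∉ CTn L X (n + 1)) :
    CPhi L M X p q p' q' x = (M ^ n : S ≃ₜ S) ((L ^ (-n) : S ≃ₜ S) x) := by
  have hp : x ≠ p := by
    intro e; apply h2; rw [e]; exact h.p_mem _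
  have hq : x ≠ q := by
    intro e; rw [e] at h1; exact h.q_nmem _ h1
  have hex : ∃ n : ℤ, x ∈ CTn L X n ∧ x ∉ CTn L X (n + 1) := ⟨n, h1, h2⟩
  unfold CPhi; rw [if_neg hp, if_neg hq, dif_pos hex]
  have : hex.choose = n := h.uniq x _ _ hex.choose_spec.1 hex.choose_spec.2 h1 h2
  rw [this]

lemma CPhi_mem {L M : S ≃ₜ S} {X : Set S} (hLM : L '' X = M '' X) (x : S)
    (n : ℤ) (h1 : x ∈ CTn L X n) (h2 : x ∉ CTn L X (n + 1)) :
    (M ^ n : S ≃ₜ S) ((L ^ (-n) : S ≃ₜ S) x) ∈ CTn M X n ∧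
    (M ^ n : S ≃ₜ S) ((L ^ (-n) : S ≃ₜ S) x) ∉ CTn M X (n + 1) := by
  constructor
  · rw [CTn_mem, Cz_add, neg_add_cancel, Cz_zero]
    exact h1
  · intro h3
    rw [CTn_mem, Cz_add] at h3
    apply h2
    rw [CTn_mem]
    have e1 : -(n + 1) + n = (-1 : ℤ) := by ring
    rw [e1] at h3
    have h4 : (L ^ (-n) : S ≃ₜ S) x ∈ M '' X := by
      refine ⟨_, h3, ?_⟩
      rw [← Cz_one M, Cz_add, add_neg_cancel, Cz_zero]
    rw [← hLM] at h4
    obtain ⟨y, hy, hyx⟩ := h4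
    have h5 : (L ^ (-(n + 1)) : S ≃ₜ S) x = y := by
      have e2 : (-(n + 1) : ℤ) = -1 + -n := by ring
      rw [e2, ← Cz_add, ← hyx, ← Cz_one L y, Cz_add, neg_add_cancel, Cz_zero]
    rw [h5]; exact hy

lemma CPhi_inv {L M : S ≃ₜ S} {X : Set S} {p q p' q' : S} (h : ND L X p q) (h' : ND M X p' q')
    (hLM : L '' X = M '' X) (x : S) :
    CPhi M L X p' q' p q (CPhi L M X p q p' q' x) = x := by
  by_cases hp : x = p
  · rw [hp, CPhi_p, CPhi_p]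
  by_cases hq : x = q
  · rw [hq, CPhi_q M h, CPhi_q L h']
  obtain ⟨n, h1, h2⟩ := h.ex x hp hq
  obtain ⟨h3, h4⟩ := CPhi_mem hLM x n h1 h2
  rw [CPhi_A M h p' q' x n h1 h2, CPhi_A L h' p q _ n h3 h4, Cz_add, neg_add_cancel, Cz_zero,
    Cz_add, add_neg_cancel, Cz_zero]

lemma CPhi_cont {L M : S ≃ₜ S} {X : Set S} {p q p' q' : S} (h : ND L X p q) (h' : ND M X p' q')
    (hLM : L '' X = M '' X) (hb : ∀ x ∈ frontier X, L x = M x) :
    Continuous (CPhi L M X p q p' q') := by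
  rw [continuous_iff_continuousAt]
  intro x
  by_cases hp : x = p
  · subst hp
    intro U hU
    rw [CPhi_p] at hU
    obtain ⟨n, hn⟩ := h'.pU U hU
    have hN : CTn L X n ∈ 𝓝 x := by
      apply Filter.mem_of_superset (isOpen_interior.mem_nhds (?_ : x ∈ interior (CTn L X n)))
        interior_subset
      exact CTn_succ L X h.nest n (h.p_mem _)
    apply Filter.mem_of_superset hN
    intro y hy
    apply hn
    by_cases hyp : y = x
    · rw [hyp, CPhi_p]; exact h'.p_mem n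
    have hyq : y ≠ q := fun e => h.q_nmem n (e ▸ hy)
    obtain ⟨m, h1, h2⟩ := h.ex y hyp hyq
    have hmn : n ≤ m := by
      by_contra hlt
      push Not at hlt
      exact h2 (CTn_anti L X h.nest (by omega) hy)
    rw [CPhi_A M h p' q' y m h1 h2]
    exact CTn_anti M X h'.nest hmn (CPhi_mem hLM y m h1 h2).1
  by_cases hq : x = q
  · subst hq
    intro U hU
    rw [CPhi_q M h] at hU
    obtain ⟨n, hn⟩ := h'.qU U hU
    have hN : (CTn L X n)ᶜ ∈ 𝓝 x := (CTn_closed L X h.closed n).isOpen_compl.mem_nhds (h.q_nmem n)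
    apply Filter.mem_of_superset hN
    intro y hy
    apply hn
    by_cases hyq : y = x
    · rw [hyq, CPhi_q M h]
      exact fun h1 => h'.q_nmem n (interior_subset h1)
    have hyp : y ≠ p := fun e => hy (e ▸ h.p_mem n)
    obtain ⟨m, h1, h2⟩ := h.ex y hyp hyq
    have hmn : m + 1 ≤ n := by
      by_contra hlt
      push Not at hlt
      exact hy (CTn_anti L X h.nest (by omega) h1)
    rw [CPhi_A M h p' q' y m h1 h2]
    intro h3
    exact (CPhi_mem hLM y m h1 h2).2 (CTn_anti M X h'.nest hmn (interior_subset h3))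
  obtain ⟨n, h1, h2⟩ := h.ex x hp hq
  set G : S → S := (CTn L X n).piecewise
    (fun y => (M ^ n : S ≃ₜ S) ((L ^ (-n) : S ≃ₜ S) y))
    (fun y => (M ^ (n - 1) : S ≃ₜ S) ((L ^ (-(n - 1)) : S ≃ₜ S) y)) with hG
  have hGc : Continuous G := by
    apply Continuous.piecewise
    · intro a ha
      rw [CTn_eq, ← Homeomorph.preimage_frontier] at ha
      have h3 := hb _ ha
      have e1 : (L ^ (-(n - 1)) : S ≃ₜ S) a = L ((L ^ (-n) : S ≃ₜ S) a) := by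
        rw [← Cz_one L ((L ^ (-n) : S ≃ₜ S) a), Cz_add]
        congr 2; ring
      rw [e1, h3, ← Cz_one M ((L ^ (-n) : S ≃ₜ S) a), Cz_add, sub_add_cancel]
    · exact (M ^ n : S ≃ₜ S).continuous.comp (L ^ (-n) : S ≃ₜ S).continuous
    · exact (M ^ (n - 1) : S ≃ₜ S).continuous.comp (L ^ (-(n - 1)) : S ≃ₜ S).continuous
  have hW : interior (CTn L X (n - 1)) ∩ (CTn L X (n + 1))ᶜ ∈ 𝓝 x := by
    apply Filter.inter_mem
    · apply isOpen_interior.mem_nhds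
      have := CTn_succ L X h.nest (n - 1)
      rw [sub_add_cancel] at this
      exact this h1
    · exact (CTn_closed L X h.closed _).isOpen_compl.mem_nhds h2
  apply hGc.continuousAt.congr
  apply Filter.mem_of_superset hW
  rintro y ⟨hy1, hy2⟩
  show G y = CPhi L M X p q p' q' y
  by_cases hy : y ∈ CTn L X n
  · rw [hG, Set.piecewise_eq_of_mem _ _ _ hy, CPhi_A M h p' q' y n hy hy2]
  · rw [hG, Set.piecewise_eq_of_notMem _ _ _ hy,
      CPhi_A M h p' q' y (n - 1) (interior_subset hy1) (by rw [sub_add_cancel]; exact hy)]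

lemma ND.Lp {L : S ≃ₜ S} {X : Set S} {p q : S} (h : ND L X p q) : L p = p := by
  apply h.p_uniq
  intro n
  rw [CTn_mem, ← Cz_one L p, Cz_add]
  have := h.p_mem (n - 1)
  rw [CTn_mem] at this
  have e : -n + 1 = -(n - 1) := by ring
  rw [e]; exact this

lemma ND.Lq {L : S ≃ₜ S} {X : Set S} {p q : S} (h : ND L X p q) : L q = q := by
  apply h.q_uniq
  intro n
  rw [CTn_mem, ← Cz_one L q, Cz_add]
  have := h.q_nmem (n - 1)
  rw [CTn_mem] at this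
  have e : -n + 1 = -(n - 1) := by ring
  rw [e]; exact this

lemma CPhi_conj {L M : S ≃ₜ S} {X : Set S} {p q p' q' : S} (h : ND L X p q) (h' : ND M X p' q')
    (x : S) : CPhi L M X p q p' q' (L x) = M (CPhi L M X p q p' q' x) := by
  by_cases hp : x = p
  · rw [hp, h.Lp, CPhi_p, h'.Lp]
  by_cases hq : x = q
  · rw [hq, h.Lq, CPhi_q M h, h'.Lq]
  obtain ⟨n, h1, h2⟩ := h.ex x hp hq
  have e0 : ∀ k : ℤ, (L ^ (-(k + 1)) : S ≃ₜ S) (L x) = (L ^ (-k) : S ≃ₜ S) x := by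
    intro k
    rw [← Cz_one L x, Cz_add]
    congr 2; ring
  have h3 : L x ∈ CTn L X (n + 1) := by
    rw [CTn_mem, e0]; exact h1
  have h4 : L x ∉ CTn L X (n + 1 + 1) := by
    rw [CTn_mem, e0]; exact h2
  rw [CPhi_A M h p' q' _ _ h3 h4, CPhi_A M h p' q' _ _ h1 h2, e0,
    ← Cz_one M ((M ^ n : S ≃ₜ S) ((L ^ (-n) : S ≃ₜ S) x)), Cz_add]
  congr 2; ring

lemma C_iter (L : S ≃ₜ S) (n : ℕ) (x : S) : (⇑L)^[n] x = (L ^ (n : ℤ) : S ≃ₜ S) x := by
  induction n generalizing x with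
  | zero => simp
  | succ n ih =>
    rw [Function.iterate_succ_apply, ih, ← Cz_one L x, Cz_add]
    rfl

lemma C_iter_symm (L : S ≃ₜ S) (n : ℕ) (x : S) : (⇑L.symm)^[n] x = (L ^ (-(n : ℤ)) : S ≃ₜ S) x := by
  have : (L.symm : S ≃ₜ S) = L⁻¹ := rfl
  rw [this, C_iter, inv_zpow, zpow_neg]

lemma ND_of (L : S ≃ₜ S) (X : Set S) (hXc : IsClosed X) (hXne : X.Nonempty)
    (hXc' : (interior X)ᶜ.Nonempty) (hL : L '' X ⊆ interior X) (p q : S)
    (hp : ∀ U ∈ 𝓝 p, ∃ n : ℕ, ∀ x ∈ X, (⇑L)^[n] x ∈ U)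
    (hq : ∀ U ∈ 𝓝 q, ∃ n : ℕ, ∀ x ∈ (interior X)ᶜ, (⇑L.symm)^[n] x ∈ U) : ND L X p q where
  closed := hXc
  nest := hL
  ne := hXne
  nec := hXc'
  pU := by
    intro U hU
    obtain ⟨n, hn⟩ := hp U hU
    refine ⟨n, fun x hx => ?_⟩
    have := hn _ hx
    rw [C_iter, Cz_add, add_neg_cancel, Cz_zero] at this
    exact this
  qU := by
    intro U hU
    obtain ⟨n, hn⟩ := hq U hU
    refine ⟨-n, fun x hx => ?_⟩
    rw [CTn_int] at hx
    have := hn _ hx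
    rw [C_iter_symm, Cz_add] at this
    have e : (-(n : ℤ) + - -(n : ℤ)) = 0 := by ring
    rw [e, Cz_zero] at this
    exact this

end Conj

/-- two homeomorphisms with the same fundamental annulus and attracting/repelling dynamics are
conjugate -/
theorem conj_lemma {S : Type*} [TopologicalSpace S] [CompactSpace S] [T2Space S]
    (L M : S ≃ₜ S) (X : Set S) (hXc : IsClosed X) (hXne : X.Nonempty)
    (hXc' : (interior X)ᶜ.Nonempty) (hL : L '' X ⊆ interior X) (hLM : L '' X = M '' X)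
    (hb : ∀ x ∈ frontier X, L x = M x) (p q p' q' : S)
    (hp : ∀ U ∈ 𝓝 p, ∃ n : ℕ, ∀ x ∈ X, (⇑L)^[n] x ∈ U)
    (hq : ∀ U ∈ 𝓝 q, ∃ n : ℕ, ∀ x ∈ (interior X)ᶜ, (⇑L.symm)^[n] x ∈ U)
    (hp' : ∀ U ∈ 𝓝 p', ∃ n : ℕ, ∀ x ∈ X, (⇑M)^[n] x ∈ U)
    (hq' : ∀ U ∈ 𝓝 q', ∃ n : ℕ, ∀ x ∈ (interior X)ᶜ, (⇑M.symm)^[n] x ∈ U) :
    ∃ Φ : S ≃ₜ S, L = Φ * M * Φ⁻¹ := by
  have h := ND_of L X hXc hXne hXc' hL p q hp hq
  have h' := ND_of M X hXc hXne hXc' (hLM ▸ hL) p' q' hp' hq'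
  let Φ : S ≃ₜ S :=
    { toFun := CPhi L M X p q p' q'
      invFun := CPhi M L X p' q' p q
      left_inv := CPhi_inv h h' hLM
      right_inv := CPhi_inv h' h hLM.symm
      continuous_toFun := CPhi_cont h h' hLM hb
      continuous_invFun := CPhi_cont h' h hLM.symm (fun x hx => (hb x hx).symm) }
  refine ⟨Φ⁻¹, ?_⟩
  rw [inv_inv, mul_assoc, eq_inv_mul_iff_mul_eq]
  ext x
  exact CPhi_conj h h' x

end Pool.Agent.SphN
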