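import Mathlib
import Pool.Agent.SphN.Defs2

set_option autoImplicit false

namespace Pool.Agent.SphN
open Topology Set Filter

/-- radial factor -/
noncomputable def rkM (a r t : ℝ) : ℝ := (a + r * max (t - a) 0) / max t a

/-- radial function -/
noncomputable def rkK (a r t : ℝ) : ℝ := min t a + r * max (t - a) 0

theorem rkM_le {a r t : ℝ} (ha : 0 < a) (ht : t ≤ a) : rkM a r t = 1 := by
  unfold rkM
  rw [max_eq_right (by linarith : t - a ≤ 0), max_eq_right ht, mul_zero, add_zero,
    div_self ha.ne']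

theorem rkM_ge {a r t : ℝ} (ht : a ≤ t) : rkM a r t = (a + r * (t - a)) / t := by
  unfold rkM
  rw [max_eq_left (by linarith : 0 ≤ t - a), max_eq_left ht]

theorem rkK_le {a r t : ℝ} (ht : t ≤ a) : rkK a r t = t := by
  unfold rkK
  rw [max_eq_right (by linarith : t - a ≤ 0), min_eq_left ht, mul_zero, add_zero]

theorem rkK_ge {a r t : ℝ} (ht : a ≤ t) : rkK a r t = a + r * (t - a) := by
  unfold rkK
  rw [max_eq_left (by linarith : 0 ≤ t - a), min_eq_right ht]

theorem rkM_mul {a r t : ℝ} (ha : 0 < a) : rkM a r t * t = rkK a r t := by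
  rcases le_total t a with h | h
  · rw [rkM_le ha h, rkK_le h, one_mul]
  · rw [rkM_ge h, rkK_ge h, div_mul_cancel₀]
    linarith

theorem rkM_nonneg {a r t : ℝ} (ha : 0 < a) (hr : 0 < r) : 0 ≤ rkM a r t := by
  unfold rkM
  have h1 : 0 ≤ max (t - a) 0 := le_max_right _ _
  have h2 : a ≤ max t a := le_max_right _ _
  have h3 : 0 ≤ max t a := by linarith
  positivity

theorem rkM_inv {a r t : ℝ} (ha : 0 < a) (hr : 0 < r) :
    rkM a r⁻¹ (rkK a r t) * rkM a r t = 1 := by
  rcases le_total t a with h | h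
  · rw [rkK_le h, rkM_le ha h, rkM_le ha h, one_mul]
  · have h0 : 0 < t := by linarith
    have h1 : 0 ≤ r * (t - a) := mul_nonneg hr.le (by linarith)
    have h2 : a ≤ a + r * (t - a) := by linarith
    have h3 : a + r * (t - a) ≠ 0 := by linarith
    rw [rkK_ge h, rkM_ge h2, rkM_ge h]
    field_simp
    ring

theorem rkM_cont {a r : ℝ} (ha : 0 < a) : Continuous (rkM a r) := by
  unfold rkM
  refine Continuous.div (by fun_prop) (by fun_prop) fun t => ?_
  have h2 : a ≤ max t a := le_max_right _ _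
  linarith

theorem rkK_strictMono {a r : ℝ} (hr : 0 < r) : StrictMono (rkK a r) := by
  intro s t hst
  rcases le_total t a with h | h
  · rw [rkK_le h, rkK_le (by linarith)]
    exact hst
  · rcases le_total s a with h' | h'
    · rw [rkK_le h', rkK_ge h]
      have h1 : 0 ≤ r * (t - a) := mul_nonneg hr.le (by linarith)
      rcases eq_or_lt_of_le h with h2 | h2
      · rw [← h2]; linarith
      · have : 0 < r * (t - a) := mul_pos hr (by linarith)
        linarith
    · rw [rkK_ge h', rkK_ge h]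
      have : r * (s - a) < r * (t - a) := mul_lt_mul_of_pos_left (by linarith) hr
      linarith

/-- radial map of the plane -/
noncomputable def rkF (a r : ℝ) (z : ℂ) : ℂ := (rkM a r ‖z‖ : ℝ) • z

theorem rkF_norm {a r : ℝ} (ha : 0 < a) (hr : 0 < r) (z : ℂ) : ‖rkF a r z‖ = rkK a r ‖z‖ := by
  unfold rkF
  rw [norm_smul, Real.norm_eq_abs, abs_of_nonneg (rkM_nonneg ha hr), rkM_mul ha]

theorem rkF_inv {a r : ℝ} (ha : 0 < a) (hr : 0 < r) (z : ℂ) : rkF a r⁻¹ (rkF a r z) = z := by
  have h := rkF_norm ha hr z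
  show (rkM a r⁻¹ ‖rkF a r z‖ : ℝ) • ((rkM a r ‖z‖ : ℝ) • z) = z
  rw [h, smul_smul, rkM_inv ha hr, one_smul]

theorem rkF_cont {a r : ℝ} (ha : 0 < a) : Continuous (rkF a r) := by
  unfold rkF
  exact ((rkM_cont ha).comp continuous_norm).smul continuous_id

/-- radial homeomorphism of the plane -/
noncomputable def rkH (a r : ℝ) (ha : 0 < a) (hr : 0 < r) : ℂ ≃ₜ ℂ where
  toFun := rkF a r
  invFun := rkF a r⁻¹
  left_inv := rkF_inv ha hr
  right_inv := by
    intro z
    have := rkF_inv ha (inv_pos.2 hr) z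
    rwa [inv_inv] at this
  continuous_toFun := rkF_cont ha
  continuous_invFun := rkF_cont ha

/-- radial homeomorphism: identity on the disc of radius `a`, taking the circle of radius `c` to
the circle of radius `b`. -/
theorem radialK (a b c : ℝ) (ha : 0 < a) (hab : a < b) (hac : a < c) :
    ∃ K : OnePoint ℂ ≃ₜ OnePoint ℂ, (∀ x, nm x ≤ ENNReal.ofReal a → K x = x) ∧
      (∀ z : ℂ, ‖z‖ = c → K z = ((((b / c : ℝ) : ℂ) * z : ℂ) : OnePoint ℂ)) ∧
      (∀ x y, nm x ≤ nm y ↔ nm (K x) ≤ nm (K y)) := by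
  have hr : 0 < (b - a) / (c - a) := div_pos (by linarith) (by linarith)
  refine ⟨ext (rkH a ((b - a) / (c - a)) ha hr), ?_, ?_, ?_⟩
  · intro x hx
    induction x using OnePoint.rec with
    | infty => rw [ext_infty]
    | coe z =>
      rw [nm_coe, ENNReal.ofReal_le_ofReal_iff ha.le] at hx
      rw [ext_coe]
      congr 1
      show (rkM a ((b - a) / (c - a)) ‖z‖ : ℝ) • z = z
      rw [rkM_le ha hx, one_smul]
  · intro z hz
    rw [ext_coe]
    congr 1
    show (rkM a ((b - a) / (c - a)) ‖z‖ : ℝ) • z = ((b / c : ℝ) : ℂ) * z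
    rw [hz, rkM_ge hac.le, Complex.real_smul]
    congr 2
    rw [div_mul_cancel₀ _ (by linarith : c - a ≠ 0)]
    ring
  · intro x y
    induction x using OnePoint.rec with
    | infty =>
      induction y using OnePoint.rec with
      | infty => simp
      | coe w => simp [ext_coe]
    | coe z =>
      induction y using OnePoint.rec with
      | infty => simp [ext_coe]
      | coe w =>
        rw [ext_coe, ext_coe, nm_coe, nm_coe, nm_coe, nm_coe,
          ENNReal.ofReal_le_ofReal_iff (norm_nonneg _), ENNReal.ofReal_le_ofReal_iff (norm_nonneg _)]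
        show ‖z‖ ≤ ‖w‖ ↔ ‖rkF a ((b - a) / (c - a)) z‖ ≤ ‖rkF a ((b - a) / (c - a)) w‖
        rw [rkF_norm ha hr, rkF_norm ha hr]
        exact (rkK_strictMono hr).le_iff_le.symm

end Pool.Agent.SphN
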