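import Mathlib
import Pool.Agent.SphN.Attract
import Pool.Agent.SphN.Radial
import Pool.Agent.SphN.ConjNS

set_option autoImplicit false

namespace Pool.Agent.SphN
open Topology Set Filter

variable {f g K : OnePoint ℂ ≃ₜ OnePoint ℂ} {a b : ℝ}

theorem nm_scal_real (t : ℝ) (ht : 0 < t) (x : OnePoint ℂ) :
    nm (scal (t : ℂ) x) = ENNReal.ofReal t * nm x := by
  have ht' : (t : ℂ) ≠ 0 := by exact_mod_cast ht.ne'
  induction x using OnePoint.rec with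
  | infty =>
    rw [scal_infty, nm_infty, ENNReal.mul_top]
    rw [Ne, ENNReal.ofReal_eq_zero]
    exact not_le.mpr ht
  | coe z =>
    rw [scal_coe _ ht', nm_coe, nm_coe, norm_mul, ENNReal.ofReal_mul (norm_nonneg _),
      Complex.norm_real, Real.norm_of_nonneg ht.le]

theorem nm_scal_iter (t : ℝ) (ht : 0 < t) (n : ℕ) (x : OnePoint ℂ) :
    nm ((⇑(scal (t : ℂ)))^[n] x) = ENNReal.ofReal (t ^ n) * nm x := by
  induction n generalizing x with
  | zero => simp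
  | succ n ih =>
    rw [Function.iterate_succ_apply, ih, nm_scal_real t ht, ← mul_assoc,
      ← ENNReal.ofReal_mul (by positivity), pow_succ]

theorem nm_scal_symm_iter (t : ℝ) (ht : 0 < t) (n : ℕ) (x : OnePoint ℂ) :
    ENNReal.ofReal (t ^ n) * nm ((⇑(scal (t : ℂ)).symm)^[n] x) = nm x := by
  have h : (⇑(scal (t : ℂ)))^[n] ((⇑(scal (t : ℂ)).symm)^[n] x) = x := by
    have : Function.RightInverse (⇑(scal (t : ℂ)).symm) (⇑(scal (t : ℂ))) :=
      (scal (t : ℂ)).right_inv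
    exact (this.iterate n) x
  rw [← nm_scal_iter t ht, h]

/-- conjugacy of the modified product with a scaling -/
theorem Setup.conj (hs : Setup f g K a b) (θ₁ θ₂ : OnePoint ℂ ≃ₜ OnePoint ℂ)
    (h1 : ∀ x, nm x ≤ ENNReal.ofReal (1 / a) → θ₁ x = x)
    (h2 : ∀ x, ENNReal.ofReal a ≤ nm x → θ₂ x = x) (c d : OnePoint ℂ)
    (hc : ∀ U ∈ 𝓝 c, ∃ n : ℕ, ∀ x, ENNReal.ofReal a ≤ nm x → (⇑(LL f g K θ₁ θ₂))^[n] x ∈ U)
    (hd : ∀ U ∈ 𝓝 d, ∃ n : ℕ, ∀ x, nm x ≤ ENNReal.ofReal a →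
        (⇑(LL f g K θ₁ θ₂).symm)^[n] x ∈ U) :
    ∃ Φ : OnePoint ℂ ≃ₜ OnePoint ℂ,
      LL f g K θ₁ θ₂ = Φ * scal ((1 / (a * b) : ℝ) : ℂ) * Φ⁻¹ := by
  obtain ⟨hb1, hb2⟩ := hs.bdry θ₁ θ₂ h1 h2
  have ha0 := hs.a0
  have hab := hs.ab
  have hb1' := hs.b1
  have hb0 : 0 < b := ha0.trans hab
  have ht0 : 0 < 1 / (a * b) := by positivity
  have ht1 : 1 < 1 / (a * b) := by
    rw [lt_div_iff₀ (by positivity)]
    nlinarith
  have halt : ENNReal.ofReal a < ENNReal.ofReal (1 / b) := by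
    rw [ENNReal.ofReal_lt_ofReal_iff (by positivity), lt_div_iff₀ hb0]
    nlinarith
  set X : Set (OnePoint ℂ) := {x | ENNReal.ofReal a ≤ nm x} with hX
  have hXc : IsClosed X := isClosed_le continuous_const nm_cont
  have hO : IsOpen {x : OnePoint ℂ | ENNReal.ofReal a < nm x} :=
    isOpen_lt continuous_const nm_cont
  have hOi : {x : OnePoint ℂ | ENNReal.ofReal a < nm x} ⊆ interior X :=
    interior_maximal (fun x (hx : ENNReal.ofReal a < nm x) =>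
      (show ENNReal.ofReal a ≤ nm x from le_of_lt hx)) hO
  have hci : ∀ x ∈ (interior X)ᶜ, nm x ≤ ENNReal.ofReal a := by
    intro x hx
    by_contra hcon
    exact hx (hOi (not_le.mp hcon))
  have hLX : LL f g K θ₁ θ₂ '' X = {y | ENNReal.ofReal (1 / b) ≤ nm y} := by
    ext y
    constructor
    · rintro ⟨x, hx, rfl⟩
      exact (hb1 x).mp hx
    · intro hy
      refine ⟨(LL f g K θ₁ θ₂).symm y, ?_, (LL f g K θ₁ θ₂).apply_symm_apply y⟩
      refine (hb1 _).mpr ?_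
      rw [(LL f g K θ₁ θ₂).apply_symm_apply y]
      exact hy
  have hcan : ∀ x, ENNReal.ofReal (1 / b) ≤ nm (scal ((1 / (a * b) : ℝ) : ℂ) x) ↔
      ENNReal.ofReal a ≤ nm x := by
    intro x
    rw [nm_scal_real _ ht0]
    have : ENNReal.ofReal (1 / b) = ENNReal.ofReal (1 / (a * b)) * ENNReal.ofReal a := by
      rw [← ENNReal.ofReal_mul ht0.le]
      congr 1
      field_simp
    rw [this]
    refine ENNReal.mul_le_mul_iff_right ?_ ENNReal.ofReal_ne_top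
    rw [Ne, ENNReal.ofReal_eq_zero]
    exact not_le.mpr ht0
  have hMX : scal ((1 / (a * b) : ℝ) : ℂ) '' X = {y | ENNReal.ofReal (1 / b) ≤ nm y} := by
    ext y
    constructor
    · rintro ⟨x, hx, rfl⟩
      exact (hcan x).mpr hx
    · intro hy
      refine ⟨(scal ((1 / (a * b) : ℝ) : ℂ)).symm y, ?_,
        (scal ((1 / (a * b) : ℝ) : ℂ)).apply_symm_apply y⟩
      refine (hcan _).mp ?_
      rw [(scal ((1 / (a * b) : ℝ) : ℂ)).apply_symm_apply y]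
      exact hy
  refine conj_lemma (LL f g K θ₁ θ₂) (scal ((1 / (a * b) : ℝ) : ℂ)) X hXc
    ⟨OnePoint.infty, ?_⟩ ⟨((0 : ℂ) : OnePoint ℂ), ?_⟩ ?_ (hLX.trans hMX.symm) ?_ c d
    OnePoint.infty ((0 : ℂ) : OnePoint ℂ) ?_ ?_ ?_ ?_
  · change ENNReal.ofReal a ≤ nm OnePoint.infty
    rw [nm_infty]
    exact le_top
  · intro h0
    have h3' : ((0 : ℂ) : OnePoint ℂ) ∈ X := interior_subset h0
    have h3 : ENNReal.ofReal a ≤ nm ((0 : ℂ) : OnePoint ℂ) := h3'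
    rw [nm_coe, norm_zero, ENNReal.ofReal_zero, nonpos_iff_eq_zero, ENNReal.ofReal_eq_zero] at h3
    linarith
  · rw [hLX]
    intro y hy
    exact hOi (lt_of_lt_of_le halt hy)
  · intro x hx
    refine hb2 x (le_antisymm ?_ ?_)
    · exact hci x hx.2
    · have := hx.1
      rw [hXc.closure_eq] at this
      exact this
  · intro U hU
    obtain ⟨n, hn⟩ := hc U hU
    exact ⟨n, fun x hx => hn x hx⟩
  · intro U hU
    obtain ⟨n, hn⟩ := hd U hU
    exact ⟨n, fun x hx => hn x (hci x hx)⟩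
  · intro U hU
    obtain ⟨ε, hε, hU'⟩ := nhds_infty_basis U hU
    obtain ⟨n, hn⟩ := pow_unbounded_of_one_lt (ε / a) ht1
    refine ⟨n, fun x hx => hU' _ ?_⟩
    rw [nm_scal_iter _ ht0]
    have h3 : ENNReal.ofReal ε ≤ ENNReal.ofReal ((1 / (a * b)) ^ n) * ENNReal.ofReal a := by
      rw [← ENNReal.ofReal_mul (by positivity)]
      refine ENNReal.ofReal_le_ofReal ?_
      rw [div_lt_iff₀ ha0] at hn
      exact hn.le
    exact h3.trans (mul_le_mul_right hx _)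
  · intro U hU
    obtain ⟨ε, hε, hU'⟩ := nhds_zero_basis U hU
    obtain ⟨n, hn⟩ := pow_unbounded_of_one_lt (a / ε) ht1
    refine ⟨n, fun x hx => hU' _ ?_⟩
    have h3 : ENNReal.ofReal ((1 / (a * b)) ^ n) *
        nm ((⇑(scal ((1 / (a * b) : ℝ) : ℂ)).symm)^[n] x) ≤
        ENNReal.ofReal ((1 / (a * b)) ^ n) * ENNReal.ofReal ε := by
      rw [nm_scal_symm_iter _ ht0, ← ENNReal.ofReal_mul (by positivity)]
      refine (hci x hx).trans (ENNReal.ofReal_le_ofReal ?_)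
      rw [div_lt_iff₀ hε] at hn
      exact hn.le
    refine (ENNReal.mul_le_mul_iff_right ?_ ENNReal.ofReal_ne_top).mp h3
    rw [Ne, ENNReal.ofReal_eq_zero]
    exact not_le.mpr (by positivity)

theorem claim1 (f g : OnePoint ℂ ≃ₜ OnePoint ℂ) (ε : ℝ) (h0 : 0 < ε) (h1 : ε < 1)
    (hf : ∀ x, nm x ≤ ENNReal.ofReal ε → f x = iota x)
    (hg : ∀ x, nm x ≤ ENNReal.ofReal ε → g x = iota x)
    (hcase : (∀ x, nm x ≤ ENNReal.ofReal ε → ENNReal.ofReal ε < nm (g (iota x))) ∨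
      (f * f = 1 ∧ g * g = 1)) :
    ∃ K Φ : OnePoint ℂ ≃ₜ OnePoint ℂ,
      f * (K * g * K⁻¹) = Φ * scal ((2 / ε ^ 2 : ℝ) : ℂ) * Φ⁻¹ := by
  have ha0 : 0 < ε / 2 := by positivity
  have hab : ε / 2 < ε := by linarith
  have hac : ε / 2 < 1 / (ε / 2) := by
    rw [lt_div_iff₀ ha0]
    nlinarith
  obtain ⟨K0, hk1, hk2, hk3⟩ := radialK (ε / 2) ε (1 / (ε / 2)) ha0 hab hac
  have hs : Setup f g K0 (ε / 2) ε := by
    refine ⟨ha0, hab, h1, hf, hg, hk1, ?_, hk3⟩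
    intro z hz
    rw [hk2 z hz]
    congr 3
    field_simp
  have hscal : (1 / (ε / 2 * ε) : ℝ) = 2 / ε ^ 2 := by
    field_simp
  obtain ⟨θ₁, hθ1, c, hc⟩ := hs.attract
  have hle1 : ENNReal.ofReal (ε / 2) ≤ ENNReal.ofReal ε := ENNReal.ofReal_le_ofReal hab.le
  rcases hcase with hcase | ⟨hff, hgg⟩
  · obtain ⟨θ₂, hθ2, d, hd⟩ := hs.repel θ₁ hθ1
    have hc' := hc θ₂ hθ2 (by
      intro x hx
      refine hθ2 _ ?_
      have h3 : nm (iota x) ≤ ENNReal.ofReal ε := by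
        rw [nm_iota]
        refine le_trans ?_ hle1
        rw [ENNReal.inv_le_iff_inv_le, ← ENNReal.ofReal_inv_of_pos ha0, ← one_div]
        exact hx
      have h4 := hcase (iota x) h3
      rw [iota_iota] at h4
      exact hle1.trans h4.le) (fun x hx => ((hs.bdry θ₁ θ₂ hθ1 hθ2).1 x).mp hx)
    obtain ⟨Φ, hΦ⟩ := hs.conj θ₁ θ₂ hθ1 hθ2 c d hc' hd
    refine ⟨K0 * (θ₁ * θ₂), Φ, ?_⟩
    rw [← hscal]
    exact hΦ
  · have hθ2 : ∀ x, ENNReal.ofReal (ε / 2) ≤ nm x → (1 : OnePoint ℂ ≃ₜ OnePoint ℂ) x = x :=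
      fun x _ => rfl
    have hc' := hc 1 hθ2 (fun x _ => rfl) (fun x hx => ((hs.bdry θ₁ 1 hθ1 hθ2).1 x).mp hx)
    have hfx : ∀ x, f (f x) = x := fun x => by
      have := congrArg (fun h : OnePoint ℂ ≃ₜ OnePoint ℂ => h x) hff
      exact this
    have hfinv : f⁻¹ = f := inv_eq_of_mul_eq_one_left hff
    have hginv : g⁻¹ = g := inv_eq_of_mul_eq_one_left hgg
    have hLinv : (LL f g K0 θ₁ 1)⁻¹ = f * LL f g K0 θ₁ 1 * f := by
      have e1 : (LL f g K0 θ₁ 1)⁻¹ =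
          ((K0 * (θ₁ * 1)) * g⁻¹ * (K0 * (θ₁ * 1))⁻¹) * f⁻¹ := by
        unfold LL
        group
      rw [e1, hfinv, hginv]
      unfold LL
      have e2 : f * (f * ((K0 * (θ₁ * 1)) * g * (K0 * (θ₁ * 1))⁻¹)) * f =
          (f * f) * ((K0 * (θ₁ * 1)) * g * (K0 * (θ₁ * 1))⁻¹) * f := by
        simp only [mul_assoc]
      rw [e2, hff, one_mul]
    have hsymm : ∀ x, (LL f g K0 θ₁ 1).symm x = f (LL f g K0 θ₁ 1 (f x)) := by
      intro x
      have := congrArg (fun h : OnePoint ℂ ≃ₜ OnePoint ℂ => h x) hLinv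
      exact this
    have hiter : ∀ (n : ℕ) x, (⇑(LL f g K0 θ₁ 1).symm)^[n] x =
        f ((⇑(LL f g K0 θ₁ 1))^[n] (f x)) := by
      intro n
      induction n with
      | zero => intro x; simp [hfx]
      | succ n ih =>
        intro x
        rw [Function.iterate_succ_apply, ih, hsymm, hfx, Function.iterate_succ_apply]
    have hd : ∀ U ∈ 𝓝 (f c), ∃ n : ℕ, ∀ x, nm x ≤ ENNReal.ofReal (ε / 2) →
        (⇑(LL f g K0 θ₁ 1).symm)^[n] x ∈ U := by
      intro U hU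
      have hU' : f ⁻¹' U ∈ 𝓝 c := f.continuous.continuousAt hU
      obtain ⟨n, hn⟩ := hc' _ hU'
      refine ⟨n, fun x hx => ?_⟩
      rw [hiter]
      refine hn (f x) ?_
      have h3 := (disc_iff f ε (ε / 2) hf ha0 hab.le x).mp hx
      exact (ENNReal.ofReal_le_ofReal hac.le).trans h3
    obtain ⟨Φ, hΦ⟩ := hs.conj θ₁ 1 hθ1 hθ2 c (f c) hc' hd
    refine ⟨K0 * (θ₁ * 1), Φ, ?_⟩
    rw [← hscal]
    exact hΦ

end Pool.Agent.SphN
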