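import Mathlib
import Pool.Agent.SphN.Defs

set_option autoImplicit false

namespace Pool.Agent.SphN
open Topology Set Filter

theorem sqa_re (x : Sq) : x.1.re = 0 := by
  have h := x.2
  rw [Quaternion.ext_iff] at h
  simp only [Quaternion.re_mul, Quaternion.imI_mul, Quaternion.imJ_mul, Quaternion.imK_mul,
    Quaternion.re_neg, Quaternion.imI_neg, Quaternion.imJ_neg, Quaternion.imK_neg,
    Quaternion.re_one, Quaternion.imI_one, Quaternion.imJ_one, Quaternion.imK_one] at h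
  obtain ⟨h1, h2, h3, h4⟩ := h
  by_contra hre
  have hi : x.1.imI = 0 := by
    have : x.1.re * x.1.imI = 0 := by linarith
    exact (mul_eq_zero.1 this).resolve_left hre
  have hj : x.1.imJ = 0 := by
    have : x.1.re * x.1.imJ = 0 := by linarith
    exact (mul_eq_zero.1 this).resolve_left hre
  have hk : x.1.imK = 0 := by
    have : x.1.re * x.1.imK = 0 := by linarith
    exact (mul_eq_zero.1 this).resolve_left hre
  rw [hi, hj, hk] at h1
  nlinarith [sq_nonneg x.1.re]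

theorem sqa_im (x : Sq) : x.1.imI ^ 2 + x.1.imJ ^ 2 + x.1.imK ^ 2 = 1 := by
  have h := x.2
  rw [Quaternion.ext_iff] at h
  have h1 := h.1
  simp only [Quaternion.re_mul, Quaternion.re_neg, Quaternion.re_one, sqa_re x] at h1
  linarith

theorem sqa_norm (x : Sq) : ‖x.1‖ = 1 := by
  have h : ‖x.1‖ * ‖x.1‖ = 1 := by
    rw [← norm_mul, x.2, norm_neg, norm_one]
  nlinarith [norm_nonneg x.1]

theorem sqa_compact : CompactSpace Sq := by
  haveI : ProperSpace (Quaternion ℝ) := FiniteDimensional.proper ℝ _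
  have hc : IsClosed {q : Quaternion ℝ | q * q = -1} :=
    isClosed_eq (continuous_id.mul continuous_id) continuous_const
  have hb : Bornology.IsBounded {q : Quaternion ℝ | q * q = -1} := by
    refine (Metric.isBounded_closedBall (x := (0 : Quaternion ℝ)) (r := 1)).subset ?_
    intro q hq
    rw [mem_closedBall_zero_iff]
    exact (sqa_norm ⟨q, hq⟩).le
  exact isCompact_iff_compactSpace.1 (Metric.isCompact_of_isClosed_isBounded hc hb)

theorem sqa_mk (q : Quaternion ℝ) (h0 : q.re = 0) (h1 : q.imI ^ 2 + q.imJ ^ 2 + q.imK ^ 2 = 1) :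
    q * q = -1 := by
  rw [Quaternion.ext_iff]
  simp only [Quaternion.re_mul, Quaternion.imI_mul, Quaternion.imJ_mul, Quaternion.imK_mul,
    Quaternion.re_neg, Quaternion.imI_neg, Quaternion.imJ_neg, Quaternion.imK_neg,
    Quaternion.re_one, Quaternion.imI_one, Quaternion.imJ_one, Quaternion.imK_one, h0]
  refine ⟨?_, ?_, ?_, ?_⟩
  · linarith
  · ring
  · ring
  · ring

theorem sqa_mem (v : EuclideanSpace ℝ (Fin 3)) (hv : v ∈ Metric.sphere (0 : EuclideanSpace ℝ (Fin 3)) 1) :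
    ((⟨0, v 0, v 1, v 2⟩ : Quaternion ℝ) * (⟨0, v 0, v 1, v 2⟩ : Quaternion ℝ) : Quaternion ℝ) = -1 := by
  rw [mem_sphere_zero_iff_norm, EuclideanSpace.norm_eq, Real.sqrt_eq_one, Fin.sum_univ_three] at hv
  simp only [Real.norm_eq_abs, sq_abs] at hv
  exact sqa_mk ⟨0, v 0, v 1, v 2⟩ rfl hv

/-- the equivalence with the euclidean sphere -/
noncomputable def sqaEquiv : Sq ≃ Metric.sphere (0 : EuclideanSpace ℝ (Fin 3)) 1 where
  toFun x := ⟨WithLp.toLp 2 ![x.1.imI, x.1.imJ, x.1.imK], by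
    rw [mem_sphere_zero_iff_norm, EuclideanSpace.norm_eq, Real.sqrt_eq_one, Fin.sum_univ_three]
    simp only [Real.norm_eq_abs, sq_abs]
    exact sqa_im x⟩
  invFun v := ⟨⟨0, v.1 0, v.1 1, v.1 2⟩, sqa_mem v.1 v.2⟩
  left_inv x := by
    apply Subtype.ext
    rw [Quaternion.ext_iff]
    exact ⟨(sqa_re x).symm, rfl, rfl, rfl⟩
  right_inv v := by
    apply Subtype.ext
    ext i
    fin_cases i <;> rfl

theorem sqa_sphere : Nonempty (Sq ≃ₜ Metric.sphere (0 : EuclideanSpace ℝ (Fin 3)) 1) := by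
  haveI := sqa_compact
  have hc : Continuous sqaEquiv := by
    refine Continuous.subtype_mk ?_ _
    refine (PiLp.continuous_toLp 2 _).comp (continuous_pi fun i => ?_)
    fin_cases i
    · exact Quaternion.continuous_imI.comp continuous_subtype_val
    · exact Quaternion.continuous_imJ.comp continuous_subtype_val
    · exact Quaternion.continuous_imK.comp continuous_subtype_val
  exact ⟨Continuous.homeoOfEquivCompactToT2 hc⟩

theorem sqa_conj (x : Sq) : ∃ u : Quaternion ℝ, u ≠ 0 ∧ u * x.1 = -x.1 * u := by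
  have hr := sqa_re x
  by_cases h : x.1.imI = 0 ∧ x.1.imJ = 0
  · refine ⟨⟨0, 1, 0, 0⟩, ?_, ?_⟩
    · intro h0
      have h1 : (1 : ℝ) = 0 := congrArg QuaternionAlgebra.imI h0
      exact one_ne_zero h1
    · rw [Quaternion.ext_iff]
      simp only [Quaternion.re_mul, Quaternion.imI_mul, Quaternion.imJ_mul, Quaternion.imK_mul,
        Quaternion.re_neg, Quaternion.imI_neg, Quaternion.imJ_neg, Quaternion.imK_neg, hr, h.1, h.2]
      refine ⟨?_, ?_, ?_, ?_⟩ <;> ring
  · refine ⟨⟨0, x.1.imJ, -x.1.imI, 0⟩, ?_, ?_⟩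
    · intro h0
      apply h
      have h1 := congrArg QuaternionAlgebra.imI h0
      have h2 := congrArg QuaternionAlgebra.imJ h0
      simp only [Quaternion.imI_zero, Quaternion.imJ_zero] at h1 h2
      exact ⟨by linarith, h1⟩
    · rw [Quaternion.ext_iff]
      simp only [Quaternion.re_mul, Quaternion.imI_mul, Quaternion.imJ_mul, Quaternion.imK_mul,
        Quaternion.re_neg, Quaternion.imI_neg, Quaternion.imJ_neg, Quaternion.imK_neg, hr]
      refine ⟨?_, ?_, ?_, ?_⟩ <;> ring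

theorem Ad_Ad (u v : Quaternion ℝ) (hu : u ≠ 0) (hv : v ≠ 0) (x : Sq) :
    Ad u hu (Ad v hv x) = Ad (u * v) (mul_ne_zero hu hv) x := by
  apply Subtype.ext
  show u * (v * x.1 * v⁻¹) * u⁻¹ = u * v * x.1 * (u * v)⁻¹
  rw [mul_inv_rev]
  noncomm_ring

theorem Ad_symm (u : Quaternion ℝ) (hu : u ≠ 0) (x : Sq) :
    (Ad u hu).symm x = Ad u⁻¹ (inv_ne_zero hu) x := by
  rfl

theorem Ad_dist (u : Quaternion ℝ) (hu : u ≠ 0) (x y : Sq) :
    dist (Ad u hu x) (Ad u hu y) = dist x y := by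
  rw [Subtype.dist_eq, Subtype.dist_eq, dist_eq_norm, dist_eq_norm, Ad_coe, Ad_coe]
  have h1 : u * x.1 * u⁻¹ - u * y.1 * u⁻¹ = u * (x.1 - y.1) * u⁻¹ := by noncomm_ring
  have h2 : ‖u‖ ≠ 0 := norm_ne_zero_iff.2 hu
  rw [h1, norm_mul, norm_mul, norm_inv]
  field_simp

theorem Ad_one (x : Sq) : Ad 1 one_ne_zero x = x := by
  apply Subtype.ext
  show 1 * x.1 * (1 : Quaternion ℝ)⁻¹ = x.1
  rw [inv_one, one_mul, mul_one]

theorem Ad_trans (x y : Sq) : ∃ (u : Quaternion ℝ) (hu : u ≠ 0), Ad u hu x = y := by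
  by_cases h : x.1 + y.1 = 0
  · obtain ⟨u, hu, hux⟩ := sqa_conj x
    refine ⟨u, hu, ?_⟩
    apply Subtype.ext
    show u * x.1 * u⁻¹ = y.1
    rw [hux, mul_assoc, mul_inv_cancel₀ hu, mul_one]
    exact neg_eq_of_add_eq_zero_right h
  · refine ⟨x.1 + y.1, h, ?_⟩
    apply Subtype.ext
    show (x.1 + y.1) * x.1 * (x.1 + y.1)⁻¹ = y.1
    have h1 : (x.1 + y.1) * x.1 = y.1 * (x.1 + y.1) := by
      rw [add_mul, mul_add, x.2, y.2, add_comm]
    rw [h1, mul_assoc, mul_inv_cancel₀ h, mul_one]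

theorem sq_re (x : Sq) : x.1.re = 0 := by
  exact sqa_re x

theorem sq_norm (x : Sq) : ‖x.1‖ = 1 := by
  exact sqa_norm x

instance sq_compact : CompactSpace Sq := by
  exact sqa_compact

theorem sq_onePoint : Nonempty (Sq ≃ₜ OnePoint ℂ) := by
  obtain ⟨e⟩ := sqa_sphere
  have hfin : Module.finrank ℝ ℂ + 1 = Fintype.card (Fin 3) := by
    rw [Complex.finrank_real_complex, Fintype.card_fin]
  exact ⟨e.trans (onePointEquivSphereOfFinrankEq (ι := Fin 3) (V := ℂ) hfin).symm⟩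

theorem sq_sphere :
    Nonempty (Sq ≃ₜ Metric.sphere (0 : EuclideanSpace ℝ (Fin 3)) 1) := by
  exact sqa_sphere

end Pool.Agent.SphN
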