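import Mathlib
import Pool.Agent.SphN.QBasic

set_option autoImplicit false

namespace Pool.Agent.SphN
open Topology Set Filter

/-- the quaternion `cos θ + sin θ m` -/
noncomputable def ex (θ : ℝ) (m : Sq) : Quaternion ℝ :=
  ((Real.cos θ : ℝ) : Quaternion ℝ) + (Real.sin θ) • m.1

theorem ex_mul_ex (θ : ℝ) (m : Sq) : ex θ m * ex (-θ) m = 1 := by
  unfold ex
  rw [Real.cos_neg, Real.sin_neg, add_mul, mul_add, mul_add, Quaternion.coe_mul_eq_smul,
    Quaternion.mul_coe_eq_smul, Quaternion.coe_mul_eq_smul, smul_mul_smul_comm, m.2]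
  have h1 : (Real.cos θ) • ((Real.cos θ : ℝ) : Quaternion ℝ) =
      ((Real.cos θ * Real.cos θ : ℝ) : Quaternion ℝ) := by
    rw [← Quaternion.coe_mul_eq_smul, ← Quaternion.coe_mul]
  have h2 : (Real.sin θ * -Real.sin θ) • (-1 : Quaternion ℝ) =
      ((Real.sin θ * Real.sin θ : ℝ) : Quaternion ℝ) := by
    rw [← Quaternion.coe_mul_eq_smul, mul_neg, mul_one, ← Quaternion.coe_neg]
    congr 1
    ring
  rw [h1, h2, smul_smul, smul_smul]
  have h3 : (Real.cos θ * -Real.sin θ) • m.1 = - ((Real.cos θ * Real.sin θ) • m.1) := by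
    rw [mul_neg, neg_smul]
  rw [h3]
  have h4 : ((Real.cos θ * Real.cos θ : ℝ) : Quaternion ℝ) +
      ((Real.sin θ * Real.sin θ : ℝ) : Quaternion ℝ) = 1 := by
    rw [← Quaternion.coe_add]
    have : Real.cos θ * Real.cos θ + Real.sin θ * Real.sin θ = 1 := by
      have := Real.cos_sq_add_sin_sq θ
      nlinarith
    rw [this, Quaternion.coe_one]
  refine Eq.trans ?_ h4
  abel

theorem ex_ne (θ : ℝ) (m : Sq) : ex θ m ≠ 0 := by
  intro h
  have h1 := ex_mul_ex θ m
  rw [h, zero_mul] at h1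
  exact zero_ne_one h1

theorem ex_inv (θ : ℝ) (m : Sq) : (ex θ m)⁻¹ = ex (-θ) m :=
  inv_eq_of_mul_eq_one_right (ex_mul_ex θ m)

theorem ex_comm (θ : ℝ) (m : Sq) : ex θ m * m.1 = m.1 * ex θ m := by
  unfold ex
  rw [add_mul, mul_add, Quaternion.coe_mul_eq_smul, Quaternion.mul_coe_eq_smul,
    smul_mul_assoc, mul_smul_comm]

theorem ex_cont {Y : Type*} [TopologicalSpace Y] {f : Y → ℝ} {g : Y → Sq} (hf : Continuous f)
    (hg : Continuous g) : Continuous (fun y => ex (f y) (g y)) := by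
  unfold ex
  refine Continuous.add ?_ ?_
  · exact Quaternion.continuous_coe.comp (Real.continuous_cos.comp hf)
  · exact (Real.continuous_sin.comp hf).smul (continuous_subtype_val.comp hg)

theorem ex_dist (θ : ℝ) (m z : Sq) : dist m (Ad (ex θ m) (ex_ne _ _) z) = dist m z := by
  have he := ex_ne θ m
  rw [Subtype.dist_eq, Subtype.dist_eq, dist_eq_norm, dist_eq_norm, Ad_coe]
  have h1 : m.1 - ex θ m * z.1 * (ex θ m)⁻¹ = ex θ m * (m.1 - z.1) * (ex θ m)⁻¹ := by
    rw [mul_sub, sub_mul, ex_comm, mul_assoc m.1, mul_inv_cancel₀ he, mul_one]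
  rw [h1, norm_mul, norm_mul, norm_inv]
  have h2 : ‖ex θ m‖ ≠ 0 := norm_ne_zero_iff.2 he
  field_simp

theorem ex_ex (θ : ℝ) (m z : Sq) :
    Ad (ex (-θ) m) (ex_ne _ _) (Ad (ex θ m) (ex_ne _ _) z) = z := by
  have he := ex_ne θ m
  apply Subtype.ext
  rw [Ad_coe, Ad_coe, ← ex_inv, inv_inv]
  have h1 : (ex θ m)⁻¹ * (ex θ m * z.1 * (ex θ m)⁻¹) * ex θ m =
      ((ex θ m)⁻¹ * ex θ m) * z.1 * ((ex θ m)⁻¹ * ex θ m) := by noncomm_ring
  rw [h1, inv_mul_cancel₀ he, one_mul, mul_one]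

theorem ex_Ad_congr {u u' : Quaternion ℝ} (hu : u ≠ 0) (hu' : u' ≠ 0) (h : u = u') (z : Sq) :
    Ad u hu z = Ad u' hu' z := by
  subst h
  rfl

/-- the twist -/
noncomputable def tw (φ : ℝ → ℝ) (m z : Sq) : Sq := Ad (ex (φ (dist m z)) m) (ex_ne _ _) z

theorem tw_coe (φ : ℝ → ℝ) (m z : Sq) :
    (tw φ m z).1 = ex (φ (dist m z)) m * z.1 * ex (-φ (dist m z)) m := by
  unfold tw
  rw [Ad_coe, ex_inv]

theorem tw_dist (φ : ℝ → ℝ) (m z : Sq) : dist m (tw φ m z) = dist m z := ex_dist _ _ _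

theorem tw_tw (φ ψ : ℝ → ℝ) (h : ∀ d, ψ d = -φ d) (m z : Sq) : tw ψ m (tw φ m z) = z := by
  have h1 : tw ψ m (tw φ m z) = Ad (ex (-φ (dist m z)) m) (ex_ne _ _) (tw φ m z) := by
    unfold tw
    refine ex_Ad_congr _ _ ?_ _
    have := tw_dist φ m z
    unfold tw at this
    rw [this, h]
  rw [h1]
  exact ex_ex _ _ _

theorem ex_Tcont (φ : ℝ → ℝ) (hφ : Continuous φ) {Y : Type*} [TopologicalSpace Y]
    {f g : Y → Sq} (hf : Continuous f) (hg : Continuous g) :
    Continuous (fun q : Y => tw φ (f q) (g q)) := by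
  refine continuous_induced_rng.2 ?_
  have h0 : (Subtype.val ∘ fun q : Y => tw φ (f q) (g q)) =
      fun q : Y => ex (φ (dist (f q) (g q))) (f q) * (g q).1 * ex (-φ (dist (f q) (g q))) (f q) :=
    funext fun q => tw_coe φ (f q) (g q)
  rw [h0]
  have h1 : Continuous (fun q : Y => φ (dist (f q) (g q))) :=
    hφ.comp (hf.dist hg)
  have h2 : Continuous (fun q : Y => ex (φ (dist (f q) (g q))) (f q)) := ex_cont h1 hf
  have h3 : Continuous (fun q : Y => ex (-φ (dist (f q) (g q))) (f q)) := ex_cont h1.neg hf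
  exact (h2.mul (continuous_subtype_val.comp hg)).mul h3

/-- twist homeomorphisms: rotate about `m` by an angle depending on the distance to `m` -/
theorem twist_exists (φ : ℝ → ℝ) (hφ : Continuous φ) :
    ∃ T : Sq → (Sq ≃ₜ Sq), Continuous (fun q : Sq × Sq => T q.1 q.2) ∧
      ∀ m z : Sq, T m z = Ad (ex (φ (dist m z)) m) (ex_ne _ _) z := by
  have hφ' : Continuous (fun x => - φ x) := hφ.neg
  have hc : Continuous (fun q : Sq × Sq => tw φ q.1 q.2) :=
    ex_Tcont φ hφ (f := fun q : Sq × Sq => q.1) (g := fun q : Sq × Sq => q.2) continuous_fst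
      continuous_snd
  refine ⟨fun m =>
    { toFun := tw φ m
      invFun := tw (fun x => - φ x) m
      left_inv := fun z => tw_tw φ (fun x => - φ x) (fun _ => rfl) m z
      right_inv := fun z => tw_tw (fun x => - φ x) φ (fun _ => (neg_neg _).symm) m z
      continuous_toFun := ex_Tcont φ hφ continuous_const continuous_id
      continuous_invFun := ex_Tcont (fun x => - φ x) hφ' continuous_const continuous_id },
    hc, fun m z => rfl⟩

/-- an element commuting with `x` is a real multiple of some `ex θ x` -/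
theorem comm_form (x : Sq) (u : Quaternion ℝ) (hu : u ≠ 0) (h : Ad u hu x = x) :
    ∃ θ : ℝ, ∀ z : Sq, Ad u hu z = Ad (ex θ x) (ex_ne _ _) z := by
  have h1 : u * x.1 = x.1 * u := by
    have h2 := congrArg Subtype.val h
    rw [Ad_coe] at h2
    calc u * x.1 = u * x.1 * (u⁻¹ * u) := by rw [inv_mul_cancel₀ hu, mul_one]
      _ = (u * x.1 * u⁻¹) * u := by noncomm_ring
      _ = x.1 * u := by rw [h2]
  have hre := sq_re x
  have hxx := congrArg (fun q : Quaternion ℝ => q.re) x.2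
  have hI := congrArg (fun q : Quaternion ℝ => q.imI) h1
  have hJ := congrArg (fun q : Quaternion ℝ => q.imJ) h1
  have hK := congrArg (fun q : Quaternion ℝ => q.imK) h1
  simp only [Quaternion.re_mul, Quaternion.imI_mul, Quaternion.imJ_mul, Quaternion.imK_mul,
    Quaternion.re_neg, Quaternion.re_one, hre] at hxx hI hJ hK
  set b : ℝ := u.imI * x.1.imI + u.imJ * x.1.imJ + u.imK * x.1.imK with hb
  have hn : x.1.imI ^ 2 + x.1.imJ ^ 2 + x.1.imK ^ 2 = 1 := by linear_combination -hxx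
  have hu1 : u = ((u.re : ℝ) : Quaternion ℝ) + b • x.1 := by
    ext
    · simp [hre]
    · simp [hb]
      linear_combination (-u.imI) * hn - (x.1.imK / 2) * hJ + (x.1.imJ / 2) * hK
    · simp [hb]
      linear_combination (-u.imJ) * hn + (x.1.imK / 2) * hI - (x.1.imI / 2) * hK
    · simp [hb]
      linear_combination (-u.imK) * hn - (x.1.imJ / 2) * hI + (x.1.imI / 2) * hJ
  set c : ℂ := ⟨u.re, b⟩ with hc
  have hc0 : c ≠ 0 := by
    intro h0
    have e1 : u.re = 0 := congrArg Complex.re h0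
    have e2 : b = 0 := congrArg Complex.im h0
    apply hu
    rw [hu1, e1, e2]
    simp
  have hr : ‖c‖ ≠ 0 := norm_ne_zero_iff.2 hc0
  have hu2 : u = ‖c‖ • ex c.arg x := by
    have e1 : ‖c‖ * Real.cos c.arg = u.re := Complex.norm_mul_cos_arg c
    have e2 : ‖c‖ * Real.sin c.arg = b := Complex.norm_mul_sin_arg c
    unfold ex
    rw [smul_add, smul_smul, e2, ← Quaternion.coe_mul_eq_smul ‖c‖, ← Quaternion.coe_mul, e1]
    exact hu1
  refine ⟨c.arg, fun z => ?_⟩
  apply Subtype.ext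
  rw [Ad_coe, Ad_coe]
  have e3 : u⁻¹ = ‖c‖⁻¹ • (ex c.arg x)⁻¹ := by
    apply inv_eq_of_mul_eq_one_right
    conv_lhs => rw [hu2]
    rw [smul_mul_smul_comm, mul_inv_cancel₀ hr, mul_inv_cancel₀ (ex_ne _ _), one_smul]
  rw [e3]
  conv_lhs => rw [hu2]
  rw [smul_mul_assoc, smul_mul_smul_comm, mul_inv_cancel₀ hr, one_smul]

/-- germs of rotations fixing a point can be extended -/
theorem rot_ext (x : Sq) (u : Quaternion ℝ) (hu : u ≠ 0) (h : Ad u hu x = x) (V : Set Sq)
    (hV : V ∈ 𝓝 x) :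
    ∃ f : Sq ≃ₜ Sq, (∀ y, y ∉ V → f y = y) ∧ ∀ᶠ y in 𝓝 x, f y = Ad u hu y := by
  obtain ⟨θ, hθ⟩ := comm_form x u hu h
  obtain ⟨r, hr, hrV⟩ := Metric.mem_nhds_iff.1 hV
  obtain ⟨T, -, hT⟩ := twist_exists (fun d => θ * max 0 (min 1 (2 - 2 * d / r)))
    (by fun_prop)
  refine ⟨T x, fun y hy => ?_, ?_⟩
  · have h1 : r ≤ dist x y := by
      by_contra hc
      push Not at hc
      apply hy
      apply hrV
      rw [Metric.mem_ball, dist_comm]
      exact hc
    rw [hT]
    have h2 : max 0 (min 1 (2 - 2 * dist x y / r)) = 0 := by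
      apply max_eq_left
      refine (min_le_right _ _).trans ?_
      have : 2 ≤ 2 * dist x y / r := by
        rw [le_div_iff₀ hr]; linarith
      linarith
    have h3 : ex (θ * max 0 (min 1 (2 - 2 * dist x y / r))) x = 1 := by
      rw [h2, mul_zero]
      simp [ex]
    rw [ex_Ad_congr (ex_ne _ _) one_ne_zero h3 y]
    apply Subtype.ext
    rw [Ad_coe]
    simp
  · filter_upwards [Metric.ball_mem_nhds x (half_pos hr)] with y hy
    rw [hT, hθ]
    rw [Metric.mem_ball, dist_comm] at hy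
    have h2 : max 0 (min 1 (2 - 2 * dist x y / r)) = 1 := by
      have : 2 * dist x y / r ≤ 1 := by
        rw [div_le_one hr]; linarith
      rw [min_eq_left (by linarith)]
      exact max_eq_right zero_le_one
    exact ex_Ad_congr _ _ (by rw [h2, mul_one]) y

end Pool.Agent.SphN
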