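import Mathlib
import Pool.Agent.SphN.Twist
import Pool.Agent.SphN.Isotopy

set_option autoImplicit false

namespace Pool.Agent.SphN
open Topology Set Filter

theorem push_sq_mul (q : Quaternion ℝ) (h : q.re = 0) : q * q = -((‖q‖ * ‖q‖ : ℝ) : Quaternion ℝ) := by
  have h1 := Quaternion.sq_eq_neg_normSq.2 h
  rw [sq, Quaternion.normSq_eq_norm_mul_self] at h1
  exact h1

theorem push_dist (x y : Sq) : dist x y = ‖x.1 - y.1‖ := by
  rw [Subtype.dist_eq, dist_eq_norm]

theorem push_norm (c y : Sq) (ε : ℝ) (hd : dist y c < ε) (hε : ε ≤ 1) :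
    2 - ε < ‖c.1 + y.1‖ ∧ ‖c.1 + y.1‖ ≤ 2 := by
  have h1 : ‖y.1 - c.1‖ < ε := by rw [← push_dist]; exact hd
  constructor
  · have h2 : ‖(2 : ℝ) • c.1‖ ≤ ‖c.1 + y.1‖ + ‖y.1 - c.1‖ := by
      have : (2 : ℝ) • c.1 = (c.1 + y.1) - (y.1 - c.1) := by rw [two_smul]; abel
      rw [this]; exact norm_sub_le _ _
    rw [norm_smul, sq_norm] at h2
    simp at h2
    linarith
  · calc ‖c.1 + y.1‖ ≤ ‖c.1‖ + ‖y.1‖ := norm_add_le _ _
      _ = 2 := by rw [sq_norm, sq_norm]; norm_num

/-- the midpoint -/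
noncomputable def push_mid (c y : Sq) (h : c.1 + y.1 ≠ 0) : Sq :=
  ⟨‖c.1 + y.1‖⁻¹ • (c.1 + y.1), by
    have hre : (c.1 + y.1).re = 0 := by
      rw [Quaternion.re_add, sq_re, sq_re, add_zero]
    have hn : ‖c.1 + y.1‖ ≠ 0 := norm_ne_zero_iff.2 h
    rw [smul_mul_smul_comm, push_sq_mul _ hre, smul_neg, ← Quaternion.coe_smul]
    congr 1
    rw [smul_eq_mul]
    have : ‖c.1 + y.1‖⁻¹ * ‖c.1 + y.1‖⁻¹ * (‖c.1 + y.1‖ * ‖c.1 + y.1‖) = 1 := by
      field_simp
    rw [this]; simp⟩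

theorem push_mid_conj (c y : Sq) (h : c.1 + y.1 ≠ 0) :
    (push_mid c y h).1 * y.1 * ((push_mid c y h).1)⁻¹ = c.1 := by
  have hn : ‖c.1 + y.1‖ ≠ 0 := norm_ne_zero_iff.2 h
  have h1 : (push_mid c y h).1 = ‖c.1 + y.1‖⁻¹ • (c.1 + y.1) := rfl
  have hne : (push_mid c y h).1 ≠ 0 := by
    rw [h1]; exact smul_ne_zero (inv_ne_zero hn) h
  have h2 : (c.1 + y.1) * y.1 = c.1 * (c.1 + y.1) := by
    rw [add_mul, mul_add, y.2, c.2]; abel
  have h3 : (push_mid c y h).1 * y.1 = c.1 * (push_mid c y h).1 := by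
    rw [h1, smul_mul_assoc, h2, mul_smul_comm]
  rw [h3, mul_assoc, mul_inv_cancel₀ hne, mul_one]

theorem push_mid_dist (c y : Sq) (h : c.1 + y.1 ≠ 0) (ε : ℝ) (hd : dist y c < ε) (hε : ε ≤ 1) :
    dist (push_mid c y h) c ≤ 2 * dist y c := by
  have hN := push_norm c y (dist y c + (ε - dist y c) / 2) (by linarith) (by linarith)
  have hN1 : 2 - dist y c ≤ ‖c.1 + y.1‖ := by
    by_contra hcon
    push Not at hcon
    have hN' := push_norm c y (2 - ‖c.1 + y.1‖) (by linarith) (by linarith [hN.1])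
    linarith [hN'.1]
  have hd' : dist y c = ‖y.1 - c.1‖ := push_dist _ _
  have hpos : 1 ≤ ‖c.1 + y.1‖ := by linarith
  have hn : ‖c.1 + y.1‖ ≠ 0 := norm_ne_zero_iff.2 h
  have h1 : (push_mid c y h).1 - c.1 = ‖c.1 + y.1‖⁻¹ • ((c.1 + y.1) - ‖c.1 + y.1‖ • c.1) := by
    rw [smul_sub, smul_smul, inv_mul_cancel₀ hn, one_smul]; rfl
  have h2 : ‖(c.1 + y.1) - ‖c.1 + y.1‖ • c.1‖ ≤ 2 * dist y c := by
    have e : (c.1 + y.1) - ‖c.1 + y.1‖ • c.1 = (y.1 - c.1) + (2 - ‖c.1 + y.1‖) • c.1 := by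
      rw [sub_smul, two_smul]; abel
    rw [e]
    refine (norm_add_le _ _).trans ?_
    rw [norm_smul, sq_norm, mul_one, Real.norm_of_nonneg (by linarith [hN.2])]
    linarith
  have h3 : dist (push_mid c y h) c = ‖(push_mid c y h).1 - c.1‖ := push_dist _ _
  rw [h3, h1, norm_smul, norm_inv, norm_norm]
  calc ‖c.1 + y.1‖⁻¹ * ‖(c.1 + y.1) - ‖c.1 + y.1‖ • c.1‖ ≤ 1 * (2 * dist y c) := by
        apply mul_le_mul _ h2 (norm_nonneg _) zero_le_one
        exact inv_le_one_of_one_le₀ hpos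
    _ = 2 * dist y c := one_mul _

theorem push_inv_eq (f : Sq ≃ₜ Sq) (a b : Sq) (h : f a = b) : f⁻¹ b = a := by
  show f.symm b = a
  rw [← h, Homeomorph.symm_apply_apply]

/-- push a point moving near `c` back to `c` by homeomorphisms supported near `c` -/
theorem push_path (c : Sq) (V : Set Sq) (hV : V ∈ 𝓝 c) :
    ∃ ε > 0, ∀ y : unitInterval → Sq, Continuous y → y 0 = c → (∀ t, dist (y t) c < ε) →
      ∃ k : unitInterval → (Sq ≃ₜ Sq), Continuous (fun q : unitInterval × Sq => k q.1 q.2) ∧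
        k 0 = 1 ∧ (∀ t z, z ∉ V → k t z = z) ∧ (∀ t, k t (y t) = c) ∧
        ∃ (w : Quaternion ℝ) (hw : w ≠ 0), ∀ᶠ z in 𝓝 (y 1), k 1 z = Ad w hw z := by
  obtain ⟨r, hr, hball⟩ := Metric.mem_nhds_iff.1 hV
  set φ : ℝ → ℝ := fun d => Real.pi / 2 * max 0 (min 1 (2 - 8 * d / r)) with hφdef
  have hφ : Continuous φ := by
    refine continuous_const.mul (continuous_const.max (continuous_const.min ?_))
    fun_prop
  obtain ⟨T, hTc, hT⟩ := twist_exists φ hφ
  have hA : ∀ m z : Sq, dist m z ≤ r / 8 → (T m z).1 = m.1 * z.1 * (m.1)⁻¹ := by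
    intro m z hd
    have h1 : φ (dist m z) = Real.pi / 2 := by
      simp only [hφdef]
      have : 8 * dist m z / r ≤ 1 := by rw [div_le_one hr]; linarith
      rw [min_eq_left (by linarith), max_eq_right zero_le_one, mul_one]
    have h2 : ex (φ (dist m z)) m = m.1 := by
      rw [h1]; simp [ex]
    rw [hT, Ad_coe, h2]
  have hB : ∀ m z : Sq, r / 4 ≤ dist m z → T m z = z := by
    intro m z hd
    have h1 : φ (dist m z) = 0 := by
      simp only [hφdef]
      have : 2 ≤ 8 * dist m z / r := by rw [le_div_iff₀ hr]; linarith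
      rw [min_eq_right (by linarith), max_eq_left (by linarith), mul_zero]
    have h2 : ex (φ (dist m z)) m = 1 := by
      rw [h1]; simp [ex]
    rw [hT]
    apply Subtype.ext
    rw [Ad_coe, h2]; simp
  have hc0 : c.1 ≠ 0 := by
    intro h
    have := sq_norm c
    rw [h] at this; simp at this
  have hTcc : T c c = c := by
    apply Subtype.ext
    rw [hA c c (by rw [dist_self]; positivity), mul_assoc, mul_inv_cancel₀ hc0, mul_one]
  refine ⟨min 1 (r / 32), by positivity, ?_⟩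
  intro y hy hy0 hyd
  have hε1 : min 1 (r / 32) ≤ 1 := min_le_left _ _
  have hε2 : min 1 (r / 32) ≤ r / 32 := min_le_right _ _
  have hs : ∀ t, c.1 + (y t).1 ≠ 0 := by
    intro t h
    have := (push_norm c (y t) _ (hyd t) hε1).1
    rw [h, norm_zero] at this
    linarith
  set m : unitInterval → Sq := fun t => push_mid c (y t) (hs t) with hm
  have hmc : Continuous m := by
    refine Continuous.subtype_mk ?_ _
    have h1 : Continuous fun t => c.1 + (y t).1 :=
      continuous_const.add (continuous_subtype_val.comp hy)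
    exact (h1.norm.inv₀ fun t => norm_ne_zero_iff.2 (hs t)).smul h1
  have hmd : ∀ t, dist (m t) c ≤ 2 * dist (y t) c := fun t =>
    push_mid_dist c (y t) (hs t) _ (hyd t) hε1
  have hmd2 : ∀ t, dist (m t) (y t) < r / 8 := by
    intro t
    have h1 := dist_triangle (m t) c (y t)
    have h2 := hmd t
    have h3 := hyd t
    rw [dist_comm c (y t)] at h1
    linarith
  have hTm : ∀ t, T (m t) (y t) = c := by
    intro t
    apply Subtype.ext
    rw [hA _ _ (hmd2 t).le]
    exact push_mid_conj c (y t) (hs t)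
  have hm0 : m 0 = c := by
    have h1 := hmd 0
    rw [hy0, dist_self, mul_zero] at h1
    exact dist_le_zero.1 h1
  refine ⟨fun t => (T c)⁻¹ * T (m t), ?_, ?_, ?_, ?_, ?_⟩
  · have h1 : Continuous fun q : unitInterval × Sq => T (m q.1) q.2 :=
      hTc.comp ((hmc.comp continuous_fst).prodMk continuous_snd)
    exact (T c).symm.continuous.comp h1
  · simp only [hm0]
    exact inv_mul_cancel _
  · intro t z hz
    have hzr : r ≤ dist z c := by
      by_contra hcon
      push Not at hcon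
      exact hz (hball hcon)
    have h1 : T c z = z := hB c z (by rw [dist_comm]; linarith)
    have h2 : T (m t) z = z := by
      apply hB
      have h3 := dist_triangle z (m t) c
      have h4 := hmd t
      have h5 := hyd t
      rw [dist_comm z (m t)] at h3
      linarith
    show (T c)⁻¹ (T (m t) z) = z
    rw [h2]
    exact push_inv_eq _ _ _ h1
  · intro t
    show (T c)⁻¹ (T (m t) (y t)) = c
    rw [hTm t]
    exact push_inv_eq _ _ _ hTcc
  · have hm10 : (m 1).1 ≠ 0 := by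
      intro h
      have := sq_norm (m 1)
      rw [h] at this; simp at this
    refine ⟨c.1⁻¹ * (m 1).1, mul_ne_zero (inv_ne_zero hc0) hm10, ?_⟩
    have e1 : ∀ᶠ z in 𝓝 (y 1), dist (m 1) z < r / 8 := by
      have : Continuous fun z : Sq => dist (m 1) z := continuous_const.dist continuous_id
      exact this.continuousAt.eventually_lt_const (hmd2 1)
    have e2 : ∀ᶠ z in 𝓝 (y 1), dist (T (m 1) z) c < r / 8 := by
      have hcont : Continuous fun z : Sq => dist (T (m 1) z) c :=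
        (T (m 1)).continuous.dist continuous_const
      refine hcont.continuousAt.eventually_lt_const ?_
      show dist (T (m 1) (y 1)) c < r / 8
      rw [hTm 1, dist_self]; positivity
    filter_upwards [e1, e2] with z hz1 hz2
    show (T c)⁻¹ (T (m 1) z) = _
    have h1 := hA (m 1) z hz1.le
    apply push_inv_eq
    set a : Sq := Ad (c.1⁻¹ * (m 1).1) (mul_ne_zero (inv_ne_zero hc0) hm10) z with ha
    have h2 : a.1 = c.1⁻¹ * (T (m 1) z).1 * c.1 := by
      rw [ha, Ad_coe, h1, mul_inv_rev, inv_inv]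
      noncomm_ring
    have h3 : dist c a = dist c (T (m 1) z) := by
      have h4 : c.1 - a.1 = c.1⁻¹ * (c.1 - (T (m 1) z).1) * c.1 := by
        rw [h2, mul_sub, inv_mul_cancel₀ hc0, sub_mul, one_mul]
      have h5 : dist c a = ‖c.1 - a.1‖ := push_dist _ _
      have h6 : dist c (T (m 1) z) = ‖c.1 - (T (m 1) z).1‖ := push_dist _ _
      rw [h5, h6, h4, norm_mul, norm_mul, norm_inv, sq_norm]
      simp
    apply Subtype.ext
    rw [hA c a (by rw [h3, dist_comm]; exact hz2.le), h2]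
    have h7 : c.1 * (c.1⁻¹ * (T (m 1) z).1 * c.1) * c.1⁻¹ =
        (c.1 * c.1⁻¹) * (T (m 1) z).1 * (c.1 * c.1⁻¹) := by noncomm_ring
    rw [h7, mul_inv_cancel₀ hc0, one_mul, mul_one]

end Pool.Agent.SphN
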