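import Mathlib
import Pool.Agent.SphN.PushPath

set_option autoImplicit false

namespace Pool.Agent.SphN
open Topology Set Filter

theorem ff_pres {X : Type*} [TopologicalSpace X] (k : X ≃ₜ X) (U : Set X) (h : ∀ z, z ∉ U → k z = z)
    {z : X} (hz : z ∈ U) : k z ∈ U := by
  by_contra hn
  have h1 := h _ hn
  have h2 := k.injective h1
  rw [h2] at hn
  exact hn hz

/-- correct a small isotopy so that it fixes finitely many points -/
theorem fix_finite (F : Finset Sq) (q₀ : Sq) (hq : q₀ ∈ F) :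
    ∃ ε > 0, ∀ h : unitInterval → (Sq ≃ₜ Sq),
      Continuous (fun q : unitInterval × Sq => h q.1 q.2) → h 0 = 1 →
      (∀ t z, dist (h t z) z < ε) →
      ∃ h' : unitInterval → (Sq ≃ₜ Sq),
        Continuous (fun q : unitInterval × Sq => h' q.1 q.2) ∧ h' 0 = 1 ∧
        (∀ t, ∀ c ∈ F, h' t c = c) ∧
        ∃ (w : Quaternion ℝ) (hw : w ≠ 0), ∀ᶠ z in 𝓝 q₀, h' 1 z = Ad w hw (h 1 z) := by
  classical
  obtain ⟨U, hU, hUd⟩ := F.finite_toSet.t2_separation
  have hUn : ∀ c, U c ∈ 𝓝 c := fun c => (hU c).2.mem_nhds (hU c).1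
  choose ε hε hpush using fun c : Sq => push_path c (U c) (hUn c)
  refine ⟨F.inf' ⟨q₀, hq⟩ ε, (Finset.lt_inf'_iff _).2 fun c _ => hε c, ?_⟩
  intro h hcont h0 hsmall
  have H : ∀ c : Sq, ∃ k : unitInterval → (Sq ≃ₜ Sq), c ∈ F →
      (Continuous (fun q : unitInterval × Sq => k q.1 q.2) ∧
        k 0 = 1 ∧ (∀ t z, z ∉ U c → k t z = z) ∧ (∀ t, k t (h t c) = c) ∧
        ∃ (w : Quaternion ℝ) (hw : w ≠ 0), ∀ᶠ z in 𝓝 (h 1 c), k 1 z = Ad w hw z) := by
    intro c
    by_cases hc : c ∈ F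
    · obtain ⟨k, hk⟩ := hpush c (fun t => h t c)
        (hcont.comp (continuous_id.prodMk continuous_const)) (by rw [h0]; rfl)
        (fun t => lt_of_lt_of_le (hsmall t c) (Finset.inf'_le _ hc))
      exact ⟨k, fun _ => hk⟩
    · exact ⟨fun _ => 1, fun h => absurd h hc⟩
  choose k hk using H
  have key : ∀ F' : Finset Sq, F' ⊆ F → ∃ g : unitInterval → (Sq ≃ₜ Sq),
      Continuous (fun q : unitInterval × Sq => g q.1 q.2) ∧ g 0 = 1 ∧
      (∀ t z, (∀ c ∈ F', z ∉ U c) → g t z = z) ∧ (∀ c ∈ F', ∀ t, ∀ z ∈ U c, g t z = k c t z) := by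
    intro F'
    induction F' using Finset.induction_on with
    | empty =>
      intro _
      exact ⟨fun _ => 1, continuous_snd, rfl, fun _ _ _ => rfl, by simp⟩
    | insert a F' ha ih =>
      intro hsub
      obtain ⟨g, hg1, hg2, hg3, hg4⟩ := ih fun x hx => hsub (Finset.mem_insert_of_mem hx)
      have haF : a ∈ F := hsub (Finset.mem_insert_self _ _)
      obtain ⟨ka1, ka2, ka3, -, -⟩ := hk a haF
      refine ⟨fun t => (g t).trans (k a t), ?_, ?_, ?_, ?_⟩
      · exact ka1.comp (continuous_fst.prodMk hg1)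
      · refine Homeomorph.ext fun z => ?_
        show k a 0 (g 0 z) = _
        rw [hg2, ka2]; rfl
      · intro t z hz
        show k a t (g t z) = z
        rw [hg3 t z fun c hc => hz c (Finset.mem_insert_of_mem hc)]
        exact ka3 t z (hz a (Finset.mem_insert_self _ _))
      · intro c hc t z hz
        show k a t (g t z) = k c t z
        rcases Finset.mem_insert.1 hc with rfl | hc'
        · rw [hg3 t z]
          intro c' hc' hz'
          have hne : c ≠ c' := fun e => ha (e ▸ hc')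
          exact Set.disjoint_left.1 (hUd (Finset.mem_coe.2 haF)
            (Finset.mem_coe.2 (hsub (Finset.mem_insert_of_mem hc'))) hne) hz hz'
        · rw [hg4 c hc' t z hz]
          apply ka3
          intro hcon
          have hcF := hsub hc
          have h1 : k c t z ∈ U c := ff_pres (k c t) (U c) (fun z hz => (hk c hcF).2.2.1 t z hz) hz
          have hne : c ≠ a := fun e => ha (e ▸ hc')
          exact Set.disjoint_left.1 (hUd (Finset.mem_coe.2 hcF) (Finset.mem_coe.2 haF) hne) h1 hcon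
  obtain ⟨g, hg1, hg2, hg3, hg4⟩ := key F (Finset.Subset.refl F)
  have hyU : ∀ c ∈ F, ∀ t, h t c ∈ U c := by
    intro c hc t
    by_contra hn
    have h1 := (hk c hc).2.2.1 t _ hn
    rw [(hk c hc).2.2.2.1 t] at h1
    rw [← h1] at hn
    exact hn (hU c).1
  refine ⟨fun t => (h t).trans (g t), ?_, ?_, ?_, ?_⟩
  · exact hg1.comp (continuous_fst.prodMk hcont)
  · refine Homeomorph.ext fun z => ?_
    show g 0 (h 0 z) = _
    rw [hg2, h0]; rfl
  · intro t c hc
    show g t (h t c) = c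
    rw [hg4 c hc t _ (hyU c hc t), (hk c hc).2.2.2.1 t]
  · obtain ⟨w, hw, hev⟩ := (hk q₀ hq).2.2.2.2
    refine ⟨w, hw, ?_⟩
    have hc1 : Tendsto (fun z => h 1 z) (𝓝 q₀) (𝓝 (h 1 q₀)) := (h 1).continuous.continuousAt
    have e1 := hc1.eventually hev
    have e2 : ∀ᶠ z in 𝓝 q₀, h 1 z ∈ U q₀ :=
      hc1.eventually ((hU q₀).2.mem_nhds (hyU q₀ hq 1))
    filter_upwards [e1, e2] with z hz1 hz2
    show g 1 (h 1 z) = _
    rw [hg4 q₀ hq 1 _ hz2, hz1]

end Pool.Agent.SphN
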