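import Mathlib
import Pool.Agent.SphN.Isotopy

set_option autoImplicit false

namespace Pool.Agent.SphN
open Topology Set Filter

/-- a property of homeomorphisms which is closed under composition and holds for small isotopies
holds for all homeomorphisms isotopic to the identity -/
theorem isot_induct {X : Type*} [MetricSpace X] [CompactSpace X] (T : (X ≃ₜ X) → Prop)
    (h1 : T 1) (hmul : ∀ f g, T f → T g → T (f * g)) (ε : ℝ) (hε : 0 < ε)
    (hsmall : ∀ h : unitInterval → (X ≃ₜ X),
      Continuous (fun q : unitInterval × X => h q.1 q.2) → h 0 = 1 →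
      (∀ t z, dist (h t z) z < ε) → T (h 1)) (f : X ≃ₜ X) (hf : Isot f) : T f := by
  obtain ⟨H, hH, hH0, hH1⟩ := hf
  have huc := CompactSpace.uniformContinuous_of_continuous hH
  obtain ⟨δ, hδ, hδ2⟩ := Metric.uniformContinuous_iff.1 huc ε hε
  obtain ⟨n, hn⟩ := exists_nat_one_div_lt hδ
  have hN : (0 : ℝ) < (n : ℝ) + 1 := by positivity
  let P : ℝ → unitInterval := fun t => Set.projIcc (0 : ℝ) 1 zero_le_one t
  have hPc : Continuous P := continuous_projIcc
  have hPd : ∀ s t, dist (P s) (P t) ≤ |s - t| := by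
    intro s t
    have h2 := (LipschitzWith.projIcc (zero_le_one (α := ℝ))).dist_le_mul s t
    rw [NNReal.coe_one, one_mul, Real.dist_eq] at h2
    exact h2
  have hP0 : P 0 = 0 := by
    apply Subtype.ext
    simp [P, Set.projIcc]
  have hP1 : P 1 = 1 := by
    apply Subtype.ext
    simp [P, Set.projIcc]
  have key : ∀ i : ℕ, T (H (P ((i : ℝ) / ((n : ℝ) + 1)))) := by
    intro i
    induction i with
    | zero =>
      have : P (((0 : ℕ) : ℝ) / ((n : ℝ) + 1)) = 0 := by
        rw [Nat.cast_zero, zero_div, hP0]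
      rw [this, hH0]
      exact h1
    | succ i ih =>
      let h : unitInterval → (X ≃ₜ X) := fun s =>
        H (P (((i : ℝ) + (s : ℝ)) / ((n : ℝ) + 1))) * (H (P ((i : ℝ) / ((n : ℝ) + 1))))⁻¹
      have hh0 : h 0 = 1 := by
        show H (P (((i : ℝ) + ((0 : unitInterval) : ℝ)) / ((n : ℝ) + 1))) *
          (H (P ((i : ℝ) / ((n : ℝ) + 1))))⁻¹ = 1
        rw [Set.Icc.coe_zero, add_zero, mul_inv_cancel]
      have hh1 : h 1 = H (P (((i + 1 : ℕ) : ℝ) / ((n : ℝ) + 1))) *
          (H (P ((i : ℝ) / ((n : ℝ) + 1))))⁻¹ := by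
        show H (P (((i : ℝ) + ((1 : unitInterval) : ℝ)) / ((n : ℝ) + 1))) * _ = _
        rw [Set.Icc.coe_one]
        push_cast
        rfl
      have hhc : Continuous (fun q : unitInterval × X => h q.1 q.2) := by
        have h2 : Continuous (fun q : unitInterval × X =>
            (P (((i : ℝ) + (q.1 : ℝ)) / ((n : ℝ) + 1)), (H (P ((i : ℝ) / ((n : ℝ) + 1))))⁻¹ q.2)) := by
          apply Continuous.prodMk
          · apply hPc.comp
            fun_prop
          · exact ((H (P ((i : ℝ) / ((n : ℝ) + 1))))⁻¹).continuous.comp continuous_snd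
        exact hH.comp h2
      have hhs : ∀ t z, dist (h t z) z < ε := by
        intro t z
        obtain ⟨w, hw⟩ : ∃ w, w = (H (P ((i : ℝ) / ((n : ℝ) + 1))))⁻¹ z := ⟨_, rfl⟩
        have hz : z = H (P ((i : ℝ) / ((n : ℝ) + 1))) w := by
          rw [hw]
          exact ((H (P ((i : ℝ) / ((n : ℝ) + 1)))).apply_symm_apply z).symm
        have hht : h t z = H (P (((i : ℝ) + (t : ℝ)) / ((n : ℝ) + 1))) w := by
          rw [hw]; rfl
        have h7 : dist (H (P (((i : ℝ) + (t : ℝ)) / ((n : ℝ) + 1))) w)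
            (H (P ((i : ℝ) / ((n : ℝ) + 1))) w) < ε → dist (h t z) z < ε := by
          intro h8
          rw [← hz, ← hht] at h8
          exact h8
        apply h7
        apply hδ2 (a := (P (((i : ℝ) + (t : ℝ)) / ((n : ℝ) + 1)), w))
          (b := (P ((i : ℝ) / ((n : ℝ) + 1)), w))
        rw [Prod.dist_eq]
        simp only [dist_self]
        apply max_lt _ hδ
        refine lt_of_le_of_lt (hPd _ _) ?_
        have h3 : ((i : ℝ) + (t : ℝ)) / ((n : ℝ) + 1) - (i : ℝ) / ((n : ℝ) + 1) =
            (t : ℝ) / ((n : ℝ) + 1) := by ring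
        rw [h3, abs_of_nonneg (div_nonneg t.2.1 hN.le)]
        exact lt_of_le_of_lt (div_le_div_of_nonneg_right t.2.2 hN.le) hn
      have h4 := hsmall h hhc hh0 hhs
      rw [hh1] at h4
      have h5 := hmul _ _ h4 ih
      rw [inv_mul_cancel_right] at h5
      exact h5
  have hlast := key (n + 1)
  have h6 : P (((n + 1 : ℕ) : ℝ) / ((n : ℝ) + 1)) = 1 := by
    push_cast
    rw [div_self hN.ne', hP1]
  rw [h6, hH1] at hlast
  exact hlast

end Pool.Agent.SphN
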