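import Mathlib
import Pool.Agent.SphN.Defs

set_option autoImplicit false

namespace Pool.Agent.SphN
open Topology Set Filter

/-- radial compression -/
noncomputable def cpJ (ρ : ℝ) (z : ℂ) : ℂ :=
  (2 * ρ / max ‖z‖ ρ - ρ ^ 2 / (max ‖z‖ ρ) ^ 2) • z

/-- inverse of the radial compression -/
noncomputable def cpK (ρ : ℝ) (w : ℂ) : ℂ :=
  (ρ ^ 2 / ((2 * ρ - max ‖w‖ ρ) * max ‖w‖ ρ)) • w

theorem cpJ_small {ρ : ℝ} (hρ : 0 < ρ) {z : ℂ} (hz : ‖z‖ ≤ ρ) : cpJ ρ z = z := by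
  unfold cpJ
  rw [max_eq_right hz]
  have : 2 * ρ / ρ - ρ ^ 2 / ρ ^ 2 = 1 := by field_simp; norm_num
  rw [this, one_smul]

theorem cpK_small {ρ : ℝ} (hρ : 0 < ρ) {z : ℂ} (hz : ‖z‖ ≤ ρ) : cpK ρ z = z := by
  unfold cpK
  rw [max_eq_right hz]
  have : ρ ^ 2 / ((2 * ρ - ρ) * ρ) = 1 := by
    rw [show (2 * ρ - ρ) * ρ = ρ ^ 2 by ring]
    exact div_self (by positivity)
  rw [this, one_smul]

theorem cpJ_coef {ρ a : ℝ} (hρ : 0 < ρ) (ha : ρ ≤ a) : 0 ≤ 2 * ρ / a - ρ ^ 2 / a ^ 2 := by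
  have ha0 : 0 < a := lt_of_lt_of_le hρ ha
  have : 2 * ρ / a - ρ ^ 2 / a ^ 2 = ρ * (2 * a - ρ) / a ^ 2 := by field_simp
  rw [this]
  apply div_nonneg _ (by positivity)
  exact mul_nonneg hρ.le (by linarith)

theorem cpJ_max {ρ : ℝ} (hρ : 0 < ρ) (z : ℂ) :
    max ‖cpJ ρ z‖ ρ = 2 * ρ - ρ ^ 2 / max ‖z‖ ρ := by
  rcases le_total ‖z‖ ρ with h | h
  · rw [cpJ_small hρ h, max_eq_right h]
    field_simp; norm_num
  · have hz0 : 0 < ‖z‖ := lt_of_lt_of_le hρ h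
    have hn : ‖cpJ ρ z‖ = 2 * ρ - ρ ^ 2 / ‖z‖ := by
      unfold cpJ
      rw [max_eq_left h, norm_smul, Real.norm_eq_abs, abs_of_nonneg (cpJ_coef hρ h)]
      field_simp
    rw [hn, max_eq_left h, max_eq_left]
    have : ρ ^ 2 / ‖z‖ ≤ ρ := by
      rw [div_le_iff₀ hz0]; nlinarith
    linarith

theorem cpK_max {ρ : ℝ} (hρ : 0 < ρ) (w : ℂ) (hw : ‖w‖ < 2 * ρ) :
    max ‖cpK ρ w‖ ρ = ρ ^ 2 / (2 * ρ - max ‖w‖ ρ) := by
  rcases le_total ‖w‖ ρ with h | h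
  · rw [cpK_small hρ h, max_eq_right h]
    rw [show 2 * ρ - ρ = ρ by ring]
    field_simp
  · have hz0 : 0 < ‖w‖ := lt_of_lt_of_le hρ h
    have h2 : 0 < 2 * ρ - ‖w‖ := by linarith
    have hn : ‖cpK ρ w‖ = ρ ^ 2 / (2 * ρ - ‖w‖) := by
      unfold cpK
      rw [max_eq_left h, norm_smul, Real.norm_eq_abs, abs_of_nonneg (by positivity)]
      field_simp
    rw [hn, max_eq_left h, max_eq_left]
    rw [le_div_iff₀ h2]; nlinarith

theorem cpJ_lt {ρ : ℝ} (hρ : 0 < ρ) (z : ℂ) : ‖cpJ ρ z‖ < 2 * ρ := by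
  have h1 := cpJ_max hρ z
  have h2 : 0 < ρ ^ 2 / max ‖z‖ ρ := by
    have : 0 < max ‖z‖ ρ := lt_max_of_lt_right hρ
    positivity
  have h3 := le_max_left ‖cpJ ρ z‖ ρ
  linarith

theorem cpK_cpJ {ρ : ℝ} (hρ : 0 < ρ) (z : ℂ) : cpK ρ (cpJ ρ z) = z := by
  have h1 := cpJ_max hρ z
  have ha : ρ ≤ max ‖z‖ ρ := le_max_right _ _
  unfold cpK
  rw [h1]
  unfold cpJ
  set a := max ‖z‖ ρ
  have ha0 : 0 < a := lt_of_lt_of_le hρ ha
  rw [smul_smul]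
  have hne : 2 * a - ρ ≠ 0 := by
    have : 0 < 2 * a - ρ := by linarith
    exact this.ne'
  have : ρ ^ 2 / ((2 * ρ - (2 * ρ - ρ ^ 2 / a)) * (2 * ρ - ρ ^ 2 / a)) *
      (2 * ρ / a - ρ ^ 2 / a ^ 2) = 1 := by
    have e1 : (2 * ρ - (2 * ρ - ρ ^ 2 / a)) * (2 * ρ - ρ ^ 2 / a) =
        ρ ^ 3 * (2 * a - ρ) / a ^ 2 := by field_simp; ring
    have e2 : 2 * ρ / a - ρ ^ 2 / a ^ 2 = ρ * (2 * a - ρ) / a ^ 2 := by field_simp
    rw [e1, e2]
    field_simp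
  rw [this, one_smul]

theorem cpJ_cpK {ρ : ℝ} (hρ : 0 < ρ) (w : ℂ) (hw : ‖w‖ < 2 * ρ) : cpJ ρ (cpK ρ w) = w := by
  have h1 := cpK_max hρ w hw
  have ha : ρ ≤ max ‖w‖ ρ := le_max_right _ _
  have ha2 : max ‖w‖ ρ < 2 * ρ := max_lt hw (by linarith)
  unfold cpJ
  rw [h1]
  unfold cpK
  set m := max ‖w‖ ρ
  have ha0 : 0 < m := lt_of_lt_of_le hρ ha
  have hm : 0 < 2 * ρ - m := by linarith
  rw [smul_smul]
  have : (2 * ρ / (ρ ^ 2 / (2 * ρ - m)) - ρ ^ 2 / (ρ ^ 2 / (2 * ρ - m)) ^ 2) *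
      (ρ ^ 2 / ((2 * ρ - m) * m)) = 1 := by
    field_simp
    ring
  rw [this, one_smul]

theorem cpJ_dist {ρ : ℝ} (hρ : 0 < ρ) (x y : ℂ) :
    ‖cpJ ρ y - cpJ ρ x‖ ≤ 4 * ρ * ‖y - x‖ / max ‖x‖ ρ := by
  unfold cpJ
  have ha : ρ ≤ max ‖x‖ ρ := le_max_right _ _
  have hb : ρ ≤ max ‖y‖ ρ := le_max_right _ _
  have hyb : ‖y‖ ≤ max ‖y‖ ρ := le_max_left _ _
  have hab : |max ‖y‖ ρ - max ‖x‖ ρ| ≤ ‖y - x‖ := by
    refine (abs_max_sub_max_le_abs _ _ _).trans ?_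
    exact abs_norm_sub_norm_le y x
  set a := max ‖x‖ ρ
  set b := max ‖y‖ ρ
  have ha0 : 0 < a := lt_of_lt_of_le hρ ha
  have hb0 : 0 < b := lt_of_lt_of_le hρ hb
  have key : (2 * ρ / b - ρ ^ 2 / b ^ 2) • y - (2 * ρ / a - ρ ^ 2 / a ^ 2) • x =
      (2 * ρ / a - ρ ^ 2 / a ^ 2) • (y - x) -
        (((b - a) / (a * b)) * (2 * ρ - ρ ^ 2 * (1 / a + 1 / b))) • y := by
    have e1 : (2 * ρ / b - ρ ^ 2 / b ^ 2) = (2 * ρ / a - ρ ^ 2 / a ^ 2) -
        ((b - a) / (a * b)) * (2 * ρ - ρ ^ 2 * (1 / a + 1 / b)) := by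
      field_simp
      ring
    rw [e1, sub_smul, smul_sub]
    abel
  rw [key]
  have h1 : ‖(2 * ρ / a - ρ ^ 2 / a ^ 2) • (y - x)‖ ≤ 2 * ρ / a * ‖y - x‖ := by
    rw [norm_smul, Real.norm_eq_abs, abs_of_nonneg (cpJ_coef hρ ha)]
    refine mul_le_mul_of_nonneg_right ?_ (norm_nonneg _)
    have : 0 ≤ ρ ^ 2 / a ^ 2 := by positivity
    linarith
  have h2 : ‖(((b - a) / (a * b)) * (2 * ρ - ρ ^ 2 * (1 / a + 1 / b))) • y‖ ≤
      2 * ρ / a * ‖y - x‖ := by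
    rw [norm_smul, Real.norm_eq_abs, abs_mul, abs_div, abs_of_pos (mul_pos ha0 hb0)]
    have h3 : 0 ≤ 2 * ρ - ρ ^ 2 * (1 / a + 1 / b) := by
      have e1 : ρ ^ 2 * (1 / a) ≤ ρ := by
        rw [mul_one_div, div_le_iff₀ ha0]; nlinarith
      have e2 : ρ ^ 2 * (1 / b) ≤ ρ := by
        rw [mul_one_div, div_le_iff₀ hb0]; nlinarith
      linarith
    have h4 : 2 * ρ - ρ ^ 2 * (1 / a + 1 / b) ≤ 2 * ρ := by
      have : 0 ≤ ρ ^ 2 * (1 / a + 1 / b) := by positivity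
      linarith
    rw [abs_of_nonneg h3]
    calc |b - a| / (a * b) * (2 * ρ - ρ ^ 2 * (1 / a + 1 / b)) * ‖y‖
        ≤ ‖y - x‖ / (a * b) * (2 * ρ) * b := by gcongr
      _ = 2 * ρ / a * ‖y - x‖ := by field_simp
  calc _ ≤ _ := norm_sub_le _ _
    _ ≤ 2 * ρ / a * ‖y - x‖ + 2 * ρ / a * ‖y - x‖ := add_le_add h1 h2
    _ = 4 * ρ * ‖y - x‖ / a := by ring

theorem cpJ_cont {ρ : ℝ} (hρ : 0 < ρ) : Continuous (cpJ ρ) := by
  unfold cpJ
  have h : ∀ z : ℂ, max ‖z‖ ρ ≠ 0 := fun z => (lt_max_of_lt_right hρ).ne'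
  have h2 : ∀ z : ℂ, (max ‖z‖ ρ) ^ 2 ≠ 0 := fun z => pow_ne_zero _ (h z)
  have hc : Continuous fun z : ℂ => max ‖z‖ ρ := by fun_prop
  exact ((continuous_const.div hc h).sub (continuous_const.div (hc.pow 2) h2)).smul continuous_id

open scoped Classical in
/-- the compressed map -/
noncomputable def cpG (ρ : ℝ) (H : ℂ → ℂ) (w : ℂ) : ℂ :=
  if ‖w‖ < 2 * ρ then cpJ ρ (H (cpK ρ w)) else w

theorem cpG_bound {ρ : ℝ} (hρ : 0 < ρ) (H : ℂ → ℂ) (C : ℝ) (hC : ∀ z, ‖H z - z‖ ≤ C) (w : ℂ) :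
    ‖cpG ρ H w - w‖ ≤ 4 * C / ρ * max 0 (2 * ρ - ‖w‖) := by
  have hC0 : 0 ≤ C := (norm_nonneg _).trans (hC 0)
  unfold cpG
  split_ifs with hw
  · have h1 : cpJ ρ (H (cpK ρ w)) - w = cpJ ρ (H (cpK ρ w)) - cpJ ρ (cpK ρ w) := by
      rw [cpJ_cpK hρ w hw]
    rw [h1]
    refine (cpJ_dist hρ _ _).trans ?_
    rw [cpK_max hρ w hw]
    have ha2 : max ‖w‖ ρ < 2 * ρ := max_lt hw (by linarith)
    have hwm : ‖w‖ ≤ max ‖w‖ ρ := le_max_left _ _
    set m := max ‖w‖ ρ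
    have hm : 0 < 2 * ρ - m := by linarith
    rw [max_eq_right (by linarith)]
    calc 4 * ρ * ‖H (cpK ρ w) - cpK ρ w‖ / (ρ ^ 2 / (2 * ρ - m))
        ≤ 4 * ρ * C / (ρ ^ 2 / (2 * ρ - m)) := by
          gcongr
          exact hC _
      _ = 4 * C / ρ * (2 * ρ - m) := by field_simp
      _ ≤ 4 * C / ρ * (2 * ρ - ‖w‖) := by
          apply mul_le_mul_of_nonneg_left (by linarith) (by positivity)
  · rw [sub_self, norm_zero]
    positivity

theorem cpG_cont {ρ : ℝ} (hρ : 0 < ρ) (H : ℂ → ℂ) (hH : Continuous H) (C : ℝ)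
    (hC : ∀ z, ‖H z - z‖ ≤ C) : Continuous (cpG ρ H) := by
  rw [continuous_iff_continuousAt]
  intro w
  by_cases hw : ‖w‖ < 2 * ρ
  · have hev : cpG ρ H =ᶠ[𝓝 w] fun w => cpJ ρ (H (cpK ρ w)) := by
      have : ∀ᶠ w' in 𝓝 w, ‖w'‖ < 2 * ρ :=
        (continuous_norm.tendsto w).eventually (gt_mem_nhds hw)
      filter_upwards [this] with w' hw'
      unfold cpG
      rw [if_pos hw']
    refine ContinuousAt.congr ?_ hev.symm
    have hK : ContinuousAt (cpK ρ) w := by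
      unfold cpK
      have hc : Continuous fun z : ℂ => max ‖z‖ ρ := by fun_prop
      have h1 : ContinuousAt (fun z : ℂ => (2 * ρ - max ‖z‖ ρ) * max ‖z‖ ρ) w := by fun_prop
      refine ContinuousAt.smul (ContinuousAt.div continuousAt_const h1 ?_) continuousAt_id
      have ha2 : max ‖w‖ ρ < 2 * ρ := max_lt hw (by linarith)
      have ha3 : 0 < max ‖w‖ ρ := lt_max_of_lt_right hρ
      exact (mul_pos (by linarith) ha3).ne'
    exact ((cpJ_cont hρ).comp hH).continuousAt.comp hK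
  · have hGw : cpG ρ H w = w := by unfold cpG; rw [if_neg hw]
    have hD : Tendsto (fun w' => cpG ρ H w' - w') (𝓝 w) (𝓝 0) := by
      rw [tendsto_zero_iff_norm_tendsto_zero]
      refine squeeze_zero (fun _ => norm_nonneg _) (cpG_bound hρ H C hC) ?_
      have hc : Continuous fun w' : ℂ => 4 * C / ρ * max 0 (2 * ρ - ‖w'‖) := by fun_prop
      have := hc.tendsto w
      rw [max_eq_left (by linarith [not_lt.mp hw]), mul_zero] at this
      exact this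
    unfold ContinuousAt
    rw [hGw]
    have := hD.add (continuous_id.tendsto w)
    simpa using this

theorem cpG_inv {ρ : ℝ} (hρ : 0 < ρ) (H H' : ℂ → ℂ) (hHH : ∀ z, H (H' z) = z) (w : ℂ) :
    cpG ρ H (cpG ρ H' w) = w := by
  by_cases hw : ‖w‖ < 2 * ρ
  · have e1 : cpG ρ H' w = cpJ ρ (H' (cpK ρ w)) := by unfold cpG; rw [if_pos hw]
    rw [e1]
    unfold cpG
    rw [if_pos (cpJ_lt hρ _), cpK_cpJ hρ, hHH, cpJ_cpK hρ w hw]
  · have e1 : cpG ρ H' w = w := by unfold cpG; rw [if_neg hw]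
    rw [e1]
    unfold cpG
    rw [if_neg hw]

/-- the case of a fixed point at the origin -/
theorem cp_zero (H : ℂ ≃ₜ ℂ) (C : ℝ) (hC : ∀ z, ‖H z - z‖ ≤ C) (hx : H 0 = 0)
    (r : ℝ) (hr : 0 < r) :
    ∃ g : ℂ ≃ₜ ℂ, (∀ z, r ≤ ‖z‖ → g z = z) ∧ ∀ᶠ z in 𝓝 0, g z = H z := by
  have hρ : 0 < r / 2 := by positivity
  have hC' : ∀ z, ‖H.symm z - z‖ ≤ C := by
    intro z
    have := hC (H.symm z)
    rw [H.apply_symm_apply, norm_sub_rev] at this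
    exact this
  refine ⟨{ toFun := cpG (r / 2) H
            invFun := cpG (r / 2) H.symm
            left_inv := cpG_inv hρ _ _ H.symm_apply_apply
            right_inv := cpG_inv hρ _ _ H.apply_symm_apply
            continuous_toFun := cpG_cont hρ H H.continuous C hC
            continuous_invFun := cpG_cont hρ H.symm H.symm.continuous C hC' }, ?_, ?_⟩
  · intro z hz
    show cpG (r / 2) H z = z
    unfold cpG
    rw [if_neg (by linarith)]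
  · have h1 : ∀ᶠ z : ℂ in 𝓝 0, ‖z‖ < r / 2 := by
      have := (continuous_norm (E := ℂ)).tendsto 0
      rw [norm_zero] at this
      exact this.eventually (gt_mem_nhds hρ)
    have h2 : ∀ᶠ z : ℂ in 𝓝 0, ‖H z‖ < r / 2 := by
      have := (continuous_norm.comp H.continuous).tendsto 0
      simp only [Function.comp_apply, hx, norm_zero] at this
      exact this.eventually (gt_mem_nhds hρ)
    filter_upwards [h1, h2] with z hz1 hz2
    show cpG (r / 2) H z = H z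
    unfold cpG
    rw [if_pos (by linarith), cpK_small hρ hz1.le, cpJ_small hρ hz2.le]

/-- compression of a bounded homeomorphism of the plane to a compactly supported one -/
theorem compress (H : ℂ ≃ₜ ℂ) (C : ℝ) (hC : ∀ z, ‖H z - z‖ ≤ C) (x₀ : ℂ) (hx : H x₀ = x₀)
    (r : ℝ) (hr : 0 < r) :
    ∃ g : ℂ ≃ₜ ℂ, (∀ z, r ≤ ‖z - x₀‖ → g z = z) ∧ ∀ᶠ z in 𝓝 x₀, g z = H z := by
  obtain ⟨g, hg1, hg2⟩ := cp_zero
    (((Homeomorph.addRight x₀).trans H).trans (Homeomorph.addRight (-x₀))) C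
    (by
      intro z
      have := hC (z + x₀)
      have e : ((((Homeomorph.addRight x₀).trans H).trans (Homeomorph.addRight (-x₀))) z) - z =
          H (z + x₀) - (z + x₀) := by
        simp
        ring
      rw [e]
      exact this)
    (by simp [hx]) r hr
  refine ⟨((Homeomorph.addRight (-x₀)).trans g).trans (Homeomorph.addRight x₀), ?_, ?_⟩
  · intro z hz
    have : g (z - x₀) = z - x₀ := hg1 _ hz
    simp only [Homeomorph.trans_apply, Homeomorph.coe_addRight, ← sub_eq_add_neg]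
    rw [this]
    ring
  · have ht : Tendsto (fun z : ℂ => z - x₀) (𝓝 x₀) (𝓝 0) := by
      have : Continuous fun z : ℂ => z - x₀ := by fun_prop
      simpa using this.tendsto x₀
    filter_upwards [ht.eventually hg2] with z hz
    simp only [Homeomorph.trans_apply, Homeomorph.coe_addRight, ← sub_eq_add_neg] at hz ⊢
    rw [hz]
    simp

end Pool.Agent.SphN
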