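import Mathlib
import Pool.Agent.SphN.Defs

set_option autoImplicit false

namespace Pool.Agent.SphN
open Topology Set Filter

theorem pil_mem {S : Type*} [TopologicalSpace S] {p : ℂ → S} (hp : Pil p) {z : ℂ}
    (hz : z ∉ Zl) : p z ∉ p '' Zl := by
  rintro ⟨w, ⟨m, n, rfl⟩, hw⟩
  obtain ⟨l, ⟨a, b, rfl⟩, h | h⟩ := (hp.fib _ _).1 hw
  · exact hz ⟨2 * a + m, 2 * b + n, by rw [h]; push_cast; ring⟩
  · exact hz ⟨2 * a - m, 2 * b - n, by rw [h]; push_cast; ring⟩

/-- the unbranched part of the pillowcase map -/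
def pres {S : Type*} [TopologicalSpace S] {p : ℂ → S} (hp : Pil p) :
    {z : ℂ // z ∉ Zl} → {s : S // s ∉ p '' Zl} := fun z => ⟨p z.1, pil_mem hp z.2⟩

theorem pc_add {a b : ℂ} (ha : a ∈ Zl) (hb : b ∈ Zl) : a + b ∈ Zl := by
  obtain ⟨m, n, rfl⟩ := ha
  obtain ⟨m', n', rfl⟩ := hb
  exact ⟨m + m', n + n', by push_cast; ring⟩

theorem pc_neg {a : ℂ} (ha : a ∈ Zl) : -a ∈ Zl := by
  obtain ⟨m, n, rfl⟩ := ha
  exact ⟨-m, -n, by push_cast; ring⟩

theorem pc_sub {a b : ℂ} (ha : a ∈ Zl) (hb : b ∈ Zl) : a - b ∈ Zl := by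
  rw [sub_eq_add_neg]
  exact pc_add ha (pc_neg hb)

theorem pc_zero : (0 : ℂ) ∈ Zl := ⟨0, 0, by simp⟩

theorem pc_tr {l z : ℂ} (hl : l ∈ Zl) (hz : z ∉ Zl) : 2 * l + z ∉ Zl := fun h => hz (by
  have h1 := pc_sub (pc_sub h hl) hl
  have h2 : 2 * l + z - l - l = z := by ring
  rwa [h2] at h1)

theorem pc_rf {l z : ℂ} (hl : l ∈ Zl) (hz : z ∉ Zl) : 2 * l - z ∉ Zl := fun h => hz (by
  have h1 := pc_sub (pc_add hl hl) h
  have h2 : l + l - (2 * l - z) = z := by ring
  rwa [h2] at h1)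

theorem pc_closed : IsClosed Zl := by
  have h1 : IsClosed (Set.range (Int.cast : ℤ → ℝ)) := Int.isClosedEmbedding_coe_real.isClosed_range
  have h2 : Zl = Complex.re ⁻¹' (Set.range (Int.cast : ℤ → ℝ)) ∩
      Complex.im ⁻¹' (Set.range (Int.cast : ℤ → ℝ)) := by
    ext z
    constructor
    · rintro ⟨m, n, rfl⟩
      exact ⟨⟨m, by simp⟩, ⟨n, by simp⟩⟩
    · rintro ⟨⟨m, hm⟩, ⟨n, hn⟩⟩
      refine ⟨m, n, ?_⟩
      apply Complex.ext
      · simp [← hm]
      · simp [← hn]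
  rw [h2]
  exact (h1.preimage Complex.continuous_re).inter (h1.preimage Complex.continuous_im)

theorem pc_small {l : ℂ} (hl : l ∈ Zl) (h : ‖l‖ < 1) : l = 0 := by
  obtain ⟨m, n, rfl⟩ := hl
  have h1 := (Complex.abs_re_le_norm ((m : ℂ) + (n : ℂ) * Complex.I)).trans_lt h
  have h2 := (Complex.abs_im_le_norm ((m : ℂ) + (n : ℂ) * Complex.I)).trans_lt h
  have h3 : ((m : ℂ) + (n : ℂ) * Complex.I).re = (m : ℝ) := by simp
  have h4 : ((m : ℂ) + (n : ℂ) * Complex.I).im = (n : ℝ) := by simp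
  rw [h3] at h1
  rw [h4] at h2
  have hm : m = 0 := by
    have : |m| < 1 := by exact_mod_cast h1
    exact Int.abs_lt_one_iff.1 this
  have hn : n = 0 := by
    have : |n| < 1 := by exact_mod_cast h2
    exact Int.abs_lt_one_iff.1 this
  rw [hm, hn]
  simp

/-- the group of translations and reflections acting on the unbranched part -/
def pcG : Subgroup (Equiv.Perm {z : ℂ // z ∉ Zl}) where
  carrier := {g | ∃ l ∈ Zl, (∀ z, ((g z : {z : ℂ // z ∉ Zl}) : ℂ) = 2 * l + z) ∨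
    (∀ z, ((g z : {z : ℂ // z ∉ Zl}) : ℂ) = 2 * l - z)}
  mul_mem' := by
    rintro g h ⟨l, hl, hg⟩ ⟨l', hl', hh⟩
    rcases hg with hg | hg <;> rcases hh with hh | hh
    · refine ⟨l + l', pc_add hl hl', Or.inl fun z => ?_⟩
      rw [Equiv.Perm.mul_apply, hg, hh]
      ring
    · refine ⟨l + l', pc_add hl hl', Or.inr fun z => ?_⟩
      rw [Equiv.Perm.mul_apply, hg, hh]
      ring
    · refine ⟨l - l', pc_sub hl hl', Or.inr fun z => ?_⟩
      rw [Equiv.Perm.mul_apply, hg, hh]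
      ring
    · refine ⟨l - l', pc_sub hl hl', Or.inl fun z => ?_⟩
      rw [Equiv.Perm.mul_apply, hg, hh]
      ring
  one_mem' := ⟨0, pc_zero, Or.inl fun z => by simp⟩
  inv_mem' := by
    rintro g ⟨l, hl, hg⟩
    rcases hg with hg | hg
    · refine ⟨-l, pc_neg hl, Or.inl fun z => ?_⟩
      have h1 := hg (g⁻¹ z)
      rw [← Equiv.Perm.mul_apply, mul_inv_cancel, Equiv.Perm.one_apply] at h1
      rw [h1]
      ring
    · refine ⟨l, hl, Or.inr fun z => ?_⟩
      have h1 := hg (g⁻¹ z)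
      rw [← Equiv.Perm.mul_apply, mul_inv_cancel, Equiv.Perm.one_apply] at h1
      rw [h1]
      ring

theorem pcG_tr {l : ℂ} (hl : l ∈ Zl) : ∃ g : pcG, ∀ z : {z : ℂ // z ∉ Zl},
    ((g • z : {z : ℂ // z ∉ Zl}) : ℂ) = 2 * l + z := by
  refine ⟨⟨⟨fun z => ⟨2 * l + z, pc_tr hl z.2⟩, fun z => ⟨2 * (-l) + z, pc_tr (pc_neg hl) z.2⟩,
    fun z => ?_, fun z => ?_⟩, l, hl, Or.inl fun z => rfl⟩, fun z => rfl⟩
  · apply Subtype.ext
    show 2 * (-l) + (2 * l + (z : ℂ)) = z
    ring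
  · apply Subtype.ext
    show 2 * l + (2 * (-l) + (z : ℂ)) = z
    ring

theorem pcG_rf {l : ℂ} (hl : l ∈ Zl) : ∃ g : pcG, ∀ z : {z : ℂ // z ∉ Zl},
    ((g • z : {z : ℂ // z ∉ Zl}) : ℂ) = 2 * l - z := by
  refine ⟨⟨⟨fun z => ⟨2 * l - z, pc_rf hl z.2⟩, fun z => ⟨2 * l - z, pc_rf hl z.2⟩,
    fun z => ?_, fun z => ?_⟩, l, hl, Or.inr fun z => rfl⟩, fun z => rfl⟩
  · apply Subtype.ext
    show 2 * l - (2 * l - (z : ℂ)) = z
    ring
  · apply Subtype.ext
    show 2 * l - (2 * l - (z : ℂ)) = z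
    ring

theorem pcG_cases (g : pcG) : ∃ l ∈ Zl, (∀ z : {z : ℂ // z ∉ Zl},
    ((g • z : {z : ℂ // z ∉ Zl}) : ℂ) = 2 * l + z) ∨
    (∀ z : {z : ℂ // z ∉ Zl}, ((g • z : {z : ℂ // z ∉ Zl}) : ℂ) = 2 * l - z) := g.2

theorem pres_cov {S : Type*} [TopologicalSpace S] {p : ℂ → S} (hp : Pil p) :
    IsCoveringMap (pres hp) := by
  have hcont : Continuous (pres hp) := (hp.cont.comp continuous_subtype_val).subtype_mk _
  have hsurj : Function.Surjective (pres hp) := by
    rintro ⟨s, hs⟩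
    obtain ⟨z, rfl⟩ := hp.surj s
    exact ⟨⟨z, fun hz => hs ⟨z, hz, rfl⟩⟩, rfl⟩
  have hopen : IsOpenMap (pres hp) := by
    intro U hU
    have h1 : pres hp '' U = Subtype.val ⁻¹' (p '' (Subtype.val '' U)) := by
      ext s
      constructor
      · rintro ⟨z, hz, rfl⟩
        exact ⟨z.1, ⟨z, hz, rfl⟩, rfl⟩
      · rintro ⟨_, ⟨z, hz, rfl⟩, hzs⟩
        exact ⟨z, hz, Subtype.ext hzs⟩
    rw [h1]
    refine (hp.opn _ ?_).preimage continuous_subtype_val
    exact (pc_closed.isOpen_compl).isOpenEmbedding_subtypeVal.isOpenMap _ hU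
  have hquot : IsQuotientMap (pres hp) := hopen.isQuotientMap hcont hsurj
  haveI hsmul : ContinuousConstSMul pcG {z : ℂ // z ∉ Zl} := by
    refine ⟨fun g => ?_⟩
    refine continuous_induced_rng.2 ?_
    obtain ⟨l, -, h | h⟩ := pcG_cases g
    · have h1 : (Subtype.val ∘ fun z : {z : ℂ // z ∉ Zl} => g • z) =
          fun z : {z : ℂ // z ∉ Zl} => 2 * l + (z : ℂ) := funext h
      rw [h1]
      exact continuous_const.add continuous_subtype_val
    · have h1 : (Subtype.val ∘ fun z : {z : ℂ // z ∉ Zl} => g • z) =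
          fun z : {z : ℂ // z ∉ Zl} => 2 * l - (z : ℂ) := funext h
      rw [h1]
      exact continuous_const.sub continuous_subtype_val
  have hG : IsQuotientCoveringMap (pres hp) pcG :=
    { hquot, hsmul with
      apply_eq_iff_mem_orbit := by
        intro e₁ e₂
        constructor
        · intro h
          have h1 : p e₂.1 = p e₁.1 := (congrArg Subtype.val h).symm
          obtain ⟨l, hl, h2 | h2⟩ := (hp.fib _ _).1 h1
          · obtain ⟨g, hg⟩ := pcG_tr hl
            exact ⟨g, Subtype.ext (by rw [h2]; exact hg e₂)⟩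
          · obtain ⟨g, hg⟩ := pcG_rf hl
            exact ⟨g, Subtype.ext (by rw [h2]; exact hg e₂)⟩
        · rintro ⟨g, rfl⟩
          apply Subtype.ext
          show p ((g • e₂ : {z : ℂ // z ∉ Zl}) : ℂ) = p e₂.1
          symm
          rw [hp.fib]
          obtain ⟨l, hl, h | h⟩ := pcG_cases g
          · exact ⟨l, hl, Or.inl (h e₂)⟩
          · exact ⟨l, hl, Or.inr (h e₂)⟩
      disjoint := by
        intro e
        obtain ⟨d, hd, hdZ⟩ := Metric.isOpen_iff.1 pc_closed.isOpen_compl e.1 e.2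
        refine ⟨Metric.ball e (min (d / 2) (1 / 2)), Metric.ball_mem_nhds _ (by positivity), ?_⟩
        rintro g ⟨_, ⟨w, hw, rfl⟩, hgw⟩
        have hgw' : dist ((g • w : {z : ℂ // z ∉ Zl}) : ℂ) e.1 < min (d / 2) (1 / 2) := hgw
        have hw' : dist (w : ℂ) e.1 < min (d / 2) (1 / 2) := hw
        have hm1 := min_le_left (d / 2) (1 / 2 : ℝ)
        have hm2 := min_le_right (d / 2) (1 / 2 : ℝ)
        obtain ⟨l, hl, h | h⟩ := pcG_cases g
        · rw [h w] at hgw'
          have h1 : ‖2 * l‖ < 1 := by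
            have h2 : 2 * l = (2 * l + (w : ℂ) - e.1) - ((w : ℂ) - e.1) := by ring
            rw [h2]
            rw [dist_eq_norm] at hgw' hw'
            refine (norm_sub_le _ _).trans_lt ?_
            linarith
          rw [norm_mul, Complex.norm_ofNat] at h1
          have h3 : l = 0 := pc_small hl (by have := norm_nonneg l; linarith)
          apply Subtype.ext
          apply Equiv.ext
          intro z
          apply Subtype.ext
          have h4 := h z
          rw [h3, mul_zero, zero_add] at h4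
          exact h4
        · exfalso
          rw [h w] at hgw'
          have h1 : ‖2 * (l - e.1)‖ < 2 * d := by
            have h2 : 2 * (l - e.1) = (2 * l - (w : ℂ) - e.1) + ((w : ℂ) - e.1) := by ring
            rw [h2]
            rw [dist_eq_norm] at hgw' hw'
            refine (norm_add_le _ _).trans_lt ?_
            linarith
          rw [norm_mul, Complex.norm_ofNat] at h1
          have h3 : l ∈ Metric.ball e.1 d := by
            rw [Metric.mem_ball, dist_eq_norm]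
            linarith
          exact hdZ h3 hl }
  exact hG.isCoveringMap

end Pool.Agent.SphN
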