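import Mathlib
import Pool.Agent.SphN.Cover

set_option autoImplicit false

namespace Pool.Agent.SphN
open Topology Set Filter

theorem lift_unique {S : Type*} [TopologicalSpace S] {p : ℂ → S} (hp : Pil p)
    (a b : unitInterval → ℂ) (ha : Continuous a) (hb : Continuous b)
    (hab : ∀ t, p (a t) = p (b t)) (h0 : a 0 = b 0) (hz : ∀ t, a t ∉ Zl) : a = b := by
  have hz' : ∀ t, b t ∉ Zl := by
    intro t ht
    exact pil_mem hp (hz t) (hab t ▸ Set.mem_image_of_mem p ht)
  have h1 : (fun t => (⟨a t, hz t⟩ : {z : ℂ // z ∉ Zl})) = fun t => ⟨b t, hz' t⟩ := by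
    refine (pres_cov hp).eq_of_comp_eq (ha.subtype_mk _) (hb.subtype_mk _) ?_ 0
      (Subtype.ext h0)
    funext t
    exact Subtype.ext (hab t)
  funext t
  exact congrArg Subtype.val (congrFun h1 t)

theorem lift_exists {S : Type*} [TopologicalSpace S] {p : ℂ → S} (hp : Pil p)
    (h : unitInterval → (S ≃ₜ S)) (hc : Continuous fun q : unitInterval × S => h q.1 q.2)
    (h0 : h 0 = 1) (hf : ∀ t, ∀ z ∈ Zl, h t (p z) = p z) :
    ∃ H : unitInterval → ℂ → ℂ, IsLift p h H := by
  classical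
  have hav : ∀ (t : unitInterval) (z : ℂ), z ∉ Zl → h t (p z) ∉ p '' Zl := by
    rintro t z hz ⟨w, hw, hwz⟩
    have h1 : h t (p w) = h t (p z) := by rw [hf t w hw, hwz]
    have h2 : p w = p z := (h t).injective h1
    exact pil_mem hp hz ⟨w, hw, h2⟩
  let h' : C(unitInterval × {z : ℂ // z ∉ Zl}, {s : S // s ∉ p '' Zl}) :=
    ⟨fun q => ⟨h q.1 (p q.2.1), hav q.1 q.2.1 q.2.2⟩, by
      refine Continuous.subtype_mk ?_ _
      exact hc.comp (continuous_fst.prodMk
        (hp.cont.comp (continuous_subtype_val.comp continuous_snd)))⟩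
  have H0 : ∀ a : {z : ℂ // z ∉ Zl}, h' (0, a) = pres hp ((ContinuousMap.id _) a) := by
    intro a
    apply Subtype.ext
    change h 0 (p a.1) = p a.1
    rw [h0]
    rfl
  let L := (pres_cov hp).liftHomotopy h' (ContinuousMap.id _) H0
  have hL1 : ∀ q, pres hp (L q) = h' q := fun q =>
    congr_fun ((pres_cov hp).liftHomotopy_lifts h' (ContinuousMap.id _) H0) q
  have hL0 : ∀ a, L (0, a) = a := fun a =>
    (pres_cov hp).liftHomotopy_zero h' (ContinuousMap.id _) H0 a
  let H : unitInterval → ℂ → ℂ := fun t z => if hz : z ∈ Zl then z else (L (t, ⟨z, hz⟩)).1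
  have hH1 : ∀ t z, z ∈ Zl → H t z = z := fun t z hz => dif_pos hz
  have hH2 : ∀ t z (hz : z ∉ Zl), H t z = (L (t, ⟨z, hz⟩)).1 := fun t z hz => dif_neg hz
  refine ⟨H, ?_, ?_, ?_, hH1, ?_, ?_⟩
  · intro z
    by_cases hz : z ∈ Zl
    · simp only [hH1 _ z hz]
      exact continuous_const
    · simp only [hH2 _ z hz]
      exact continuous_subtype_val.comp (L.continuous.comp (continuous_id.prodMk continuous_const))
  · intro t z
    by_cases hz : z ∈ Zl
    · rw [hH1 _ z hz, hf t z hz]
    · rw [hH2 _ z hz]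
      exact congrArg Subtype.val (hL1 (t, ⟨z, hz⟩))
  · intro z
    by_cases hz : z ∈ Zl
    · exact hH1 _ z hz
    · rw [hH2 _ z hz, hL0]
  · intro t z hz
    rw [hH2 _ z hz]
    exact (L _).2
  · rw [continuousOn_iff_continuous_domRestrict]
    have h1 : ({q : unitInterval × ℂ | q.2 ∉ Zl}.domRestrict
        fun q : unitInterval × ℂ => H q.1 q.2) =
        fun q : {q : unitInterval × ℂ | q.2 ∉ Zl} => (L (q.1.1, ⟨q.1.2, q.2⟩)).1 := by
      funext q
      exact hH2 q.1.1 q.1.2 q.2
    rw [h1]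
    refine continuous_subtype_val.comp (L.continuous.comp ?_)
    refine (continuous_fst.comp continuous_subtype_val).prodMk ?_
    exact Continuous.subtype_mk (continuous_snd.comp continuous_subtype_val) _

end Pool.Agent.SphN
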