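import Mathlib
import Pool.Agent.SphN.Defs

set_option autoImplicit false

namespace Pool.Agent.SphN
open Topology Set Filter

theorem Zl_norm {l : ℂ} (hl : l ∈ Zl) (h0 : l ≠ 0) : 1 ≤ ‖l‖ := by
  obtain ⟨m, n, rfl⟩ := hl
  have hre : ((m : ℂ) + (n : ℂ) * Complex.I).re = m := by simp
  have him : ((m : ℂ) + (n : ℂ) * Complex.I).im = n := by simp
  by_cases hm : m = 0
  · have hn : n ≠ 0 := by
      rintro rfl
      subst hm
      simp at h0
    have h1 := Complex.abs_im_le_norm ((m : ℂ) + (n : ℂ) * Complex.I)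
    rw [him] at h1
    have h2 : (1 : ℝ) ≤ |(n : ℝ)| := by
      have := Int.one_le_abs hn
      exact_mod_cast this
    linarith
  · have h1 := Complex.abs_re_le_norm ((m : ℂ) + (n : ℂ) * Complex.I)
    rw [hre] at h1
    have h2 : (1 : ℝ) ≤ |(m : ℝ)| := by
      have := Int.one_le_abs hm
      exact_mod_cast this
    linarith

theorem Zl_sub {a b : ℂ} (ha : a ∈ Zl) (hb : b ∈ Zl) : a - b ∈ Zl := by
  obtain ⟨m, n, rfl⟩ := ha
  obtain ⟨m', n', rfl⟩ := hb
  refine ⟨m - m', n - n', ?_⟩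
  push_cast
  ring

theorem Zl_ne {l v : ℂ} (hl : l ∈ Zl) {e : ℝ} (he : e ≤ 1 / 2) (hv : ‖v‖ < e) :
    ‖2 * l + v‖ ≠ e := by
  by_cases h0 : l = 0
  · subst h0
    rw [mul_zero, zero_add]
    exact hv.ne
  · have h1 := Zl_norm hl h0
    have h2 : ‖2 * l‖ ≤ ‖2 * l + v‖ + ‖v‖ := by
      have := norm_sub_le (2 * l + v) v
      rwa [add_sub_cancel_right] at this
    have h3 : ‖2 * l‖ = 2 * ‖l‖ := by rw [norm_mul]; simp
    intro h4
    rw [h3, h4] at h2
    linarith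

/-- a lift stays close to a lattice point if it starts close to it -/
theorem lift_near {S : Type*} [TopologicalSpace S] {p : ℂ → S} (hp : Pil p)
    (h : unitInterval → (S ≃ₜ S)) (hc : Continuous fun q : unitInterval × S => h q.1 q.2)
    (hf : ∀ t, ∀ z ∈ Zl, h t (p z) = p z) (H : unitInterval → ℂ → ℂ) (hH : IsLift p h H)
    (z₀ : ℂ) (hz₀ : z₀ ∈ Zl) (ε : ℝ) (hε : 0 < ε) :
    ∃ δ > 0, ∀ z, ‖z - z₀‖ < δ → ∀ t, ‖H t z - z₀‖ < ε := by
  set e : ℝ := min ε (1 / 2) with he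
  have he0 : 0 < e := lt_min hε (by norm_num)
  have he1 : e ≤ 1 / 2 := min_le_right _ _
  have heε : e ≤ ε := min_le_left _ _
  have hW : IsOpen (p '' Metric.ball z₀ e) := hp.opn _ Metric.isOpen_ball
  have hO : IsOpen {q : unitInterval × S | h q.1 q.2 ∈ p '' Metric.ball z₀ e} := hW.preimage hc
  obtain ⟨u, v, -, hv, hu, hzv, huv⟩ := generalized_tube_lemma (isCompact_univ (X := unitInterval))
    (isCompact_singleton (x := p z₀)) hO (by
      rintro ⟨t, s⟩ ⟨-, hs⟩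
      have hs' : s = p z₀ := hs
      show h t s ∈ p '' Metric.ball z₀ e
      rw [hs', hf t z₀ hz₀]
      exact ⟨z₀, Metric.mem_ball_self he0, rfl⟩)
  have hV : IsOpen (p ⁻¹' v ∩ Metric.ball z₀ e) := (hv.preimage hp.cont).inter Metric.isOpen_ball
  obtain ⟨δ, hδ, hδV⟩ := Metric.isOpen_iff.mp hV z₀ ⟨hzv rfl, Metric.mem_ball_self he0⟩
  refine ⟨δ, hδ, fun z hz t => lt_of_lt_of_le ?_ heε⟩
  have hzz := hδV (show z ∈ Metric.ball z₀ δ by rw [mem_ball_iff_norm]; exact hz)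
  have hz1 : p z ∈ v := hzz.1
  have hz2 : ‖z - z₀‖ < e := by
    have := hzz.2
    rwa [mem_ball_iff_norm] at this
  have hne : ∀ t, ‖H t z - z₀‖ ≠ e := by
    intro t
    obtain ⟨w, hw, hpw⟩ := huv (show (t, p z) ∈ u ×ˢ v from ⟨hu (mem_univ t), hz1⟩)
    have hpw' : p w = p (H t z) := by rw [hH.lift]; exact hpw
    rw [mem_ball_iff_norm] at hw
    obtain ⟨l, hl, h1 | h1⟩ := (hp.fib w (H t z)).mp hpw'
    · rw [h1, show 2 * l + w - z₀ = 2 * l + (w - z₀) by ring]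
      exact Zl_ne hl he1 hw
    · rw [h1, show 2 * l - w - z₀ = 2 * (l - z₀) + -(w - z₀) by ring]
      exact Zl_ne (Zl_sub hl hz₀) he1 (by rwa [norm_neg])
  by_contra hc'
  push Not at hc'
  have hcont : Continuous fun t => ‖H t z - z₀‖ := ((hH.path z).sub continuous_const).norm
  obtain ⟨t', ht'⟩ := mem_range_of_exists_le_of_exists_ge hcont
    ⟨0, by rw [hH.zero]; exact hz2.le⟩ ⟨t, hc'⟩
  exact hne t' ht'

end Pool.Agent.SphN
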