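import Mathlib
import Pool.Agent.SphN.Lift
import Pool.Agent.SphN.LiftNear

set_option autoImplicit false

namespace Pool.Agent.SphN
open Topology Set Filter

theorem Zl_iff (z : ℂ) : z ∈ Zl ↔ (∃ m : ℤ, (m : ℝ) = z.re) ∧ ∃ n : ℤ, (n : ℝ) = z.im := by
  constructor
  · rintro ⟨m, n, rfl⟩
    exact ⟨⟨m, by simp⟩, ⟨n, by simp⟩⟩
  · rintro ⟨⟨m, hm⟩, n, hn⟩
    refine ⟨m, n, ?_⟩
    apply Complex.ext
    · simp [hm]
    · simp [hn]

theorem Zl_closed : IsClosed Zl := by
  have h1 : Zl = (Complex.re ⁻¹' (Set.range ((↑) : ℤ → ℝ))) ∩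
      (Complex.im ⁻¹' (Set.range ((↑) : ℤ → ℝ))) := by
    ext z
    rw [Zl_iff]
    rfl
  rw [h1]
  exact (Int.isClosedEmbedding_coe_real.isClosed_range.preimage Complex.continuous_re).inter
    (Int.isClosedEmbedding_coe_real.isClosed_range.preimage Complex.continuous_im)

theorem Zl_add {z w : ℂ} (hz : z ∈ Zl) (hw : w ∈ Zl) : z + w ∈ Zl := by
  obtain ⟨m, n, rfl⟩ := hz
  obtain ⟨m', n', rfl⟩ := hw
  exact ⟨m + m', n + n', by push_cast; ring⟩

theorem Zl_two {z : ℂ} (hz : z ∈ Zl) : 2 * z ∈ Zl := by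
  rw [two_mul]; exact Zl_add hz hz

theorem lift_equiv {S : Type*} [TopologicalSpace S] {p : ℂ → S} (hp : Pil p)
    (h : unitInterval → (S ≃ₜ S)) (H : unitInterval → ℂ → ℂ) (hH : IsLift p h H)
    (l z : ℂ) (hl : l ∈ Zl) (t : unitInterval) : H t (2 * l + z) = 2 * l + H t z := by
  by_cases hz : z ∈ Zl
  · rw [hH.fix t z hz, hH.fix t _ (Zl_add (Zl_two hl) hz)]
  · have h1 : (fun t => 2 * l + H t z) = fun t => H t (2 * l + z) := by
      apply lift_unique hp _ _ (continuous_const.add (hH.path z)) (hH.path (2 * l + z))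
      · intro t
        have e1 : p (H t z) = p (2 * l + H t z) := (hp.fib _ _).2 ⟨l, hl, Or.inl rfl⟩
        have e2 : p z = p (2 * l + z) := (hp.fib _ _).2 ⟨l, hl, Or.inl rfl⟩
        show p (2 * l + H t z) = p (H t (2 * l + z))
        rw [← e1, hH.lift, hH.lift, e2]
      · show 2 * l + H 0 z = H 0 (2 * l + z)
        rw [hH.zero, hH.zero]
      · intro t ht
        apply hH.avoid t z hz
        have ht' : 2 * l + H t z ∈ Zl := ht
        have := Zl_sub ht' (Zl_two hl)
        rwa [add_sub_cancel_left] at this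
    exact (congrFun h1 t).symm

theorem lift_cont1 {S : Type*} [TopologicalSpace S] {p : ℂ → S} (hp : Pil p)
    (h : unitInterval → (S ≃ₜ S)) (hc : Continuous fun q : unitInterval × S => h q.1 q.2)
    (hf : ∀ t, ∀ z ∈ Zl, h t (p z) = p z) (H : unitInterval → ℂ → ℂ) (hH : IsLift p h H) :
    Continuous (H 1) := by
  rw [continuous_iff_continuousAt]
  intro z
  by_cases hz : z ∈ Zl
  · rw [Metric.continuousAt_iff]
    intro ε hε
    obtain ⟨δ, hδ, hd⟩ := lift_near hp h hc hf H hH z hz ε hε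
    refine ⟨δ, hδ, fun w hw => ?_⟩
    rw [hH.fix 1 z hz, dist_eq_norm]
    rw [dist_eq_norm] at hw
    exact hd w hw 1
  · have hopen : IsOpen {q : unitInterval × ℂ | q.2 ∉ Zl} :=
      Zl_closed.isOpen_compl.preimage continuous_snd
    have h1 : ContinuousAt (fun q : unitInterval × ℂ => H q.1 q.2) ((1 : unitInterval), z) :=
      hH.contOn.continuousAt (hopen.mem_nhds hz)
    have h2 : ContinuousAt (fun w : ℂ => (((1 : unitInterval), w) : unitInterval × ℂ)) z :=
      (continuous_const.prodMk continuous_id).continuousAt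
    exact ContinuousAt.comp (g := fun q : unitInterval × ℂ => H q.1 q.2)
      (f := fun w : ℂ => (((1 : unitInterval), w) : unitInterval × ℂ)) h1 h2

theorem lift_bdd {S : Type*} [TopologicalSpace S] {p : ℂ → S} (hp : Pil p)
    (h : unitInterval → (S ≃ₜ S)) (hc : Continuous fun q : unitInterval × S => h q.1 q.2)
    (hf : ∀ t, ∀ z ∈ Zl, h t (p z) = p z) (H : unitInterval → ℂ → ℂ) (hH : IsLift p h H) :
    ∃ C : ℝ, ∀ z, ‖H 1 z - z‖ ≤ C := by
  have hcont : Continuous fun z => H 1 z - z := (lift_cont1 hp h hc hf H hH).sub continuous_id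
  obtain ⟨C, hC⟩ := (isCompact_closedBall (0 : ℂ) 4).exists_bound_of_continuousOn
    hcont.continuousOn
  refine ⟨C, fun z => ?_⟩
  set m := ⌊z.re / 2⌋ with hm
  set n := ⌊z.im / 2⌋ with hn
  set l : ℂ := (m : ℂ) + (n : ℂ) * Complex.I with hl
  have hlZ : l ∈ Zl := ⟨m, n, rfl⟩
  have hz : z = 2 * l + (z - 2 * l) := by ring
  have h1 := lift_equiv hp h H hH l (z - 2 * l) hlZ 1
  rw [← hz] at h1
  have h2 : H 1 z - z = H 1 (z - 2 * l) - (z - 2 * l) := by rw [h1]; ring
  rw [h2]
  apply hC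
  rw [mem_closedBall_zero_iff]
  have hre : (z - 2 * l).re = z.re - 2 * m := by simp [hl]
  have him : (z - 2 * l).im = z.im - 2 * n := by simp [hl]
  have b1 := Int.floor_le (z.re / 2)
  have b2 := Int.lt_floor_add_one (z.re / 2)
  have b3 := Int.floor_le (z.im / 2)
  have b4 := Int.lt_floor_add_one (z.im / 2)
  rw [← hm] at b1 b2
  rw [← hn] at b3 b4
  refine (Complex.norm_le_abs_re_add_abs_im _).trans ?_
  rw [hre, him]
  have c1 : |z.re - 2 * m| ≤ 2 := by rw [abs_le]; constructor <;> linarith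
  have c2 : |z.im - 2 * n| ≤ 2 := by rw [abs_le]; constructor <;> linarith
  linarith

theorem lift_inv {S : Type*} [TopologicalSpace S] {p : ℂ → S} (hp : Pil p)
    (h h' : unitInterval → (S ≃ₜ S)) (hh : ∀ t, h' t * h t = 1)
    (H H' : unitInterval → ℂ → ℂ) (hH : IsLift p h H) (hH' : IsLift p h' H') (z : ℂ) :
    H' 1 (H 1 z) = z := by
  by_cases hz : z ∈ Zl
  · rw [hH.fix 1 z hz, hH'.fix 1 z hz]
  · have h1 : (fun _ : unitInterval => z) = fun t => H' t (H t z) := by
      apply lift_unique hp _ _ continuous_const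
      · have h2 : Continuous fun t : unitInterval => ((t, H t z) : unitInterval × ℂ) :=
          continuous_id.prodMk (hH.path z)
        have h3 := hH'.contOn.comp_continuous h2 (fun t => hH.avoid t z hz)
        exact h3
      · intro t
        show p z = p (H' t (H t z))
        rw [hH'.lift, hH.lift]
        have h4 : (h' t * h t) (p z) = p z := by rw [hh t]; rfl
        exact h4.symm
      · show z = H' 0 (H 0 z)
        rw [hH.zero, hH'.zero]
      · intro t; exact hz
    exact (congrFun h1 1).symm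

end Pool.Agent.SphN
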