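import Mathlib
import Pool.Agent.SphN.Defs

set_option autoImplicit false

namespace Pool.Agent.SphN
open Topology Set Filter

theorem push_down_ball (x₀ : ℂ) (r : ℝ) (g : ℂ ≃ₜ ℂ)
    (hg : ∀ z, r ≤ ‖z - x₀‖ → g z = z) (z : ℂ) (hz : ‖z - x₀‖ < r) : ‖g z - x₀‖ < r := by
  by_contra hcon
  rw [not_lt] at hcon
  have h1 := hg (g z) hcon
  have h2 : g z = z := g.injective h1
  rw [h2] at hcon
  exact absurd hz (not_lt.mpr hcon)

theorem push_down_B (x₀ : ℂ) (ρ r : ℝ) (hrρ : r < ρ) (g : ℂ ≃ₜ ℂ)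
    (hg : ∀ z, r ≤ ‖z - x₀‖ → g z = z) (z : ℂ) (hz : z ∈ Metric.ball x₀ ρ) :
    g z ∈ Metric.ball x₀ ρ := by
  by_cases h : r ≤ ‖z - x₀‖
  · rw [hg z h]
    exact hz
  · rw [Metric.mem_ball, dist_eq_norm]
    exact (push_down_ball x₀ r g hg z (not_le.mp h)).trans hrρ

open Classical in
/-- the pushed map -/
noncomputable def push_down_F {S : Type*} (p : ℂ → S) (x₀ : ℂ) (ρ : ℝ) (g : ℂ ≃ₜ ℂ) (s : S) : S :=
  if h : ∃ z ∈ Metric.ball x₀ ρ, p z = s then p (g h.choose) else s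

theorem push_down_F_in {S : Type*} (p : ℂ → S) (x₀ : ℂ) (ρ : ℝ)
    (hinj : Set.InjOn p (Metric.ball x₀ ρ)) (g : ℂ ≃ₜ ℂ) (z : ℂ) (hz : z ∈ Metric.ball x₀ ρ) :
    push_down_F p x₀ ρ g (p z) = p (g z) := by
  have h : ∃ w ∈ Metric.ball x₀ ρ, p w = p z := ⟨z, hz, rfl⟩
  have h1 : push_down_F p x₀ ρ g (p z) = p (g h.choose) := by
    unfold push_down_F
    rw [dif_pos h]
  have h2 : h.choose = z := hinj h.choose_spec.1 hz h.choose_spec.2
  rw [h1, h2]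

theorem push_down_F_out {S : Type*} (p : ℂ → S) (x₀ : ℂ) (ρ : ℝ)
    (g : ℂ ≃ₜ ℂ) (s : S) (hs : ¬ ∃ z ∈ Metric.ball x₀ ρ, p z = s) :
    push_down_F p x₀ ρ g s = s := by
  unfold push_down_F
  rw [dif_neg hs]

theorem push_down_F_K {S : Type*} (p : ℂ → S) (x₀ : ℂ) (ρ r : ℝ)
    (hinj : Set.InjOn p (Metric.ball x₀ ρ)) (g : ℂ ≃ₜ ℂ)
    (hg : ∀ z, r ≤ ‖z - x₀‖ → g z = z) (s : S) (hs : s ∉ p '' Metric.closedBall x₀ r) :
    push_down_F p x₀ ρ g s = s := by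
  by_cases h : ∃ z ∈ Metric.ball x₀ ρ, p z = s
  · obtain ⟨z, hz, rfl⟩ := h
    rw [push_down_F_in p x₀ ρ hinj g z hz]
    have h1 : z ∉ Metric.closedBall x₀ r := fun hz' => hs ⟨z, hz', rfl⟩
    rw [Metric.mem_closedBall, dist_eq_norm, not_le] at h1
    rw [hg z h1.le]
  · exact push_down_F_out p x₀ ρ g s h

theorem push_down_F_cont {S : Type*} [TopologicalSpace S] [T2Space S] {p : ℂ → S}
    (hc : Continuous p) (ho : IsOpenMap p) (x₀ : ℂ) (ρ r : ℝ) (hrρ : r < ρ)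
    (hinj : Set.InjOn p (Metric.ball x₀ ρ)) (g : ℂ ≃ₜ ℂ)
    (hg : ∀ z, r ≤ ‖z - x₀‖ → g z = z) : Continuous (push_down_F p x₀ ρ g) := by
  rw [continuous_iff_continuousAt]
  intro s
  by_cases h : s ∈ p '' Metric.closedBall x₀ r
  · obtain ⟨z, hz, rfl⟩ := h
    have hzB : z ∈ Metric.ball x₀ ρ := by
      rw [Metric.mem_closedBall] at hz
      rw [Metric.mem_ball]
      exact lt_of_le_of_lt hz hrρ
    have hB : Metric.ball x₀ ρ ∈ 𝓝 z := Metric.isOpen_ball.mem_nhds hzB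
    have h1 : Tendsto (fun w => p (g w)) (𝓝 z) (𝓝 (p (g z))) :=
      (hc.comp g.continuous).tendsto z
    have h2 : Tendsto (fun w => push_down_F p x₀ ρ g (p w)) (𝓝 z) (𝓝 (p (g z))) := by
      refine h1.congr' ?_
      filter_upwards [hB] with w hw
      exact (push_down_F_in p x₀ ρ hinj g w hw).symm
    have h3 : Tendsto (push_down_F p x₀ ρ g) (Filter.map p (𝓝 z)) (𝓝 (p (g z))) := h2
    unfold ContinuousAt
    rw [push_down_F_in p x₀ ρ hinj g z hzB]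
    exact h3.mono_left (ho.nhds_le z)
  · have hcl : IsClosed (p '' Metric.closedBall x₀ r) :=
      ((isCompact_closedBall x₀ r).image hc).isClosed
    have hnb : (p '' Metric.closedBall x₀ r)ᶜ ∈ 𝓝 s := hcl.isOpen_compl.mem_nhds h
    unfold ContinuousAt
    rw [push_down_F_K p x₀ ρ r hinj g hg s h]
    refine (tendsto_id (α := S)).congr' ?_
    filter_upwards [hnb] with t ht
    exact (push_down_F_K p x₀ ρ r hinj g hg t ht).symm

theorem push_down_F_inv {S : Type*} (p : ℂ → S) (x₀ : ℂ) (ρ r : ℝ) (hrρ : r < ρ)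
    (hinj : Set.InjOn p (Metric.ball x₀ ρ)) (g g' : ℂ ≃ₜ ℂ)
    (hg : ∀ z, r ≤ ‖z - x₀‖ → g z = z) (hgg : ∀ z, g' (g z) = z) (s : S) :
    push_down_F p x₀ ρ g' (push_down_F p x₀ ρ g s) = s := by
  by_cases h : ∃ z ∈ Metric.ball x₀ ρ, p z = s
  · obtain ⟨z, hz, rfl⟩ := h
    rw [push_down_F_in p x₀ ρ hinj g z hz,
      push_down_F_in p x₀ ρ hinj g' (g z) (push_down_B x₀ ρ r hrρ g hg z hz), hgg]
  · rw [push_down_F_out p x₀ ρ g s h, push_down_F_out p x₀ ρ g' s h]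

/-- push a compactly supported homeomorphism of a small disc to the surface -/
theorem push_down {S : Type*} [TopologicalSpace S] [T2Space S] {p : ℂ → S} (hc : Continuous p)
    (ho : IsOpenMap p) (x₀ : ℂ) (ρ r : ℝ) (hr : 0 < r) (hrρ : r < ρ)
    (hinj : Set.InjOn p (Metric.ball x₀ ρ)) (g : ℂ ≃ₜ ℂ) (hg : ∀ z, r ≤ ‖z - x₀‖ → g z = z) :
    ∃ f : S ≃ₜ S, (∀ z ∈ Metric.ball x₀ ρ, f (p z) = p (g z)) ∧
      ∀ s, s ∉ p '' Metric.closedBall x₀ r → f s = s := by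
  have hg' : ∀ z, r ≤ ‖z - x₀‖ → g.symm z = z := by
    intro z hz
    rw [Homeomorph.symm_apply_eq]
    exact (hg z hz).symm
  refine ⟨{ toFun := push_down_F p x₀ ρ g
            invFun := push_down_F p x₀ ρ g.symm
            left_inv := fun s => push_down_F_inv p x₀ ρ r hrρ hinj g g.symm hg
              (fun z => g.symm_apply_apply z) s
            right_inv := fun s => push_down_F_inv p x₀ ρ r hrρ hinj g.symm g hg'
              (fun z => g.apply_symm_apply z) s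
            continuous_toFun := push_down_F_cont hc ho x₀ ρ r hrρ hinj g hg
            continuous_invFun := push_down_F_cont hc ho x₀ ρ r hrρ hinj g.symm hg' }, ?_, ?_⟩
  · intro z hz
    exact push_down_F_in p x₀ ρ hinj g z hz
  · intro s hs
    exact push_down_F_K p x₀ ρ r hinj g hg s hs

end Pool.Agent.SphN
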