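import Mathlib
import Pool.Agent.SphN.Isotopy
import Pool.Agent.SphN.LiftProps
import Pool.Agent.SphN.Compress
import Pool.Agent.SphN.PushDown

set_option autoImplicit false

namespace Pool.Agent.SphN
open Topology Set Filter

theorem lift_homeo {S : Type*} [TopologicalSpace S] [CompactSpace S] [T2Space S] {p : ℂ → S}
    (hp : Pil p) (h : unitInterval → (S ≃ₜ S))
    (hc : Continuous fun q : unitInterval × S => h q.1 q.2) (h0 : h 0 = 1)
    (hf : ∀ t, ∀ z ∈ Zl, h t (p z) = p z) (x₀ : ℂ) (hx₀ : x₀ ∉ Zl)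
    (hfx : ∀ t, h t (p x₀) = p x₀) :
    ∃ (H : ℂ ≃ₜ ℂ) (C : ℝ), (∀ z, p (H z) = h 1 (p z)) ∧ H x₀ = x₀ ∧ ∀ z, ‖H z - z‖ ≤ C := by
  obtain ⟨H, hH⟩ := lift_exists hp h hc h0 hf
  have hc' := isot_symm_cont h hc
  have h0' : (fun t => (h t)⁻¹) 0 = (1 : S ≃ₜ S) := by
    show (h 0)⁻¹ = 1
    rw [h0, inv_one]
  have hf' : ∀ t, ∀ z ∈ Zl, (fun t => (h t)⁻¹) t (p z) = p z := by
    intro t z hz
    show (h t).symm (p z) = p z
    rw [Homeomorph.symm_apply_eq, hf t z hz]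
  obtain ⟨H', hH'⟩ := lift_exists hp (fun t => (h t)⁻¹) hc' h0' hf'
  have i1 : ∀ z, H' 1 (H 1 z) = z :=
    lift_inv hp h (fun t => (h t)⁻¹) (fun t => inv_mul_cancel (h t)) H H' hH hH'
  have i2 : ∀ z, H 1 (H' 1 z) = z :=
    lift_inv hp (fun t => (h t)⁻¹) h (fun t => mul_inv_cancel (h t)) H' H hH' hH
  have c1 := lift_cont1 hp h hc hf H hH
  have c2 := lift_cont1 hp (fun t => (h t)⁻¹) hc' hf' H' hH'
  obtain ⟨C, hC⟩ := lift_bdd hp h hc hf H hH
  refine ⟨⟨⟨H 1, H' 1, i1, i2⟩, c1, c2⟩, C, fun z => hH.lift 1 z, ?_, hC⟩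
  have hu := lift_unique hp (fun _ => x₀) (fun t => H t x₀) continuous_const (hH.path x₀)
    (fun t => by rw [hH.lift t x₀, hfx t]) (hH.zero x₀).symm (fun _ => hx₀)
  exact (congrFun hu 1).symm

theorem le_dist_Zl (x₀ : ℂ) (hx₀ : x₀ ∉ Zl) : ∃ d : ℝ, 0 < d ∧ ∀ l ∈ Zl, d ≤ ‖x₀ - l‖ := by
  by_cases hre : x₀.re = round x₀.re
  · have him : x₀.im ≠ round x₀.im := by
      intro him
      apply hx₀
      refine ⟨round x₀.re, round x₀.im, ?_⟩
      apply Complex.ext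
      · simpa using hre
      · simpa using him
    refine ⟨|x₀.im - round x₀.im|, abs_pos.mpr (sub_ne_zero.mpr him), ?_⟩
    rintro l ⟨m, n, rfl⟩
    refine (round_le x₀.im n).trans ?_
    have := Complex.abs_im_le_norm (x₀ - ((m : ℂ) + (n : ℂ) * Complex.I))
    simpa using this
  · refine ⟨|x₀.re - round x₀.re|, abs_pos.mpr (sub_ne_zero.mpr hre), ?_⟩
    rintro l ⟨m, n, rfl⟩
    refine (round_le x₀.re m).trans ?_
    have := Complex.abs_re_le_norm (x₀ - ((m : ℂ) + (n : ℂ) * Complex.I))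
    simpa using this

theorem le_small_Zl (l : ℂ) (hl : l ∈ Zl) (h : ‖l‖ < 1) : l = 0 := by
  obtain ⟨m, n, rfl⟩ := hl
  have h1 := Complex.abs_re_le_norm ((m : ℂ) + (n : ℂ) * Complex.I)
  have h2 := Complex.abs_im_le_norm ((m : ℂ) + (n : ℂ) * Complex.I)
  have e1 : ((m : ℂ) + (n : ℂ) * Complex.I).re = (m : ℝ) := by simp
  have e2 : ((m : ℂ) + (n : ℂ) * Complex.I).im = (n : ℝ) := by simp
  rw [e1] at h1
  rw [e2] at h2
  have hm : m = 0 := by
    apply Int.abs_lt_one_iff.mp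
    have : |(m : ℝ)| < 1 := h1.trans_lt h
    exact_mod_cast this
  have hn : n = 0 := by
    apply Int.abs_lt_one_iff.mp
    have : |(n : ℝ)| < 1 := h2.trans_lt h
    exact_mod_cast this
  rw [hm, hn]
  simp

/-- germ extension for isotopies fixing the four branch points and the base point -/
theorem local_ext {S : Type*} [TopologicalSpace S] [CompactSpace S] [T2Space S] {p : ℂ → S}
    (hp : Pil p) (h : unitInterval → (S ≃ₜ S))
    (hc : Continuous fun q : unitInterval × S => h q.1 q.2) (h0 : h 0 = 1)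
    (hf : ∀ t, ∀ z ∈ Zl, h t (p z) = p z) (x₀ : ℂ) (hx₀ : x₀ ∉ Zl)
    (hfx : ∀ t, h t (p x₀) = p x₀) (V : Set S) (hV : V ∈ 𝓝 (p x₀)) :
    ∃ f : S ≃ₜ S, (∀ y, y ∉ V → f y = y) ∧ ∀ᶠ y in 𝓝 (p x₀), f y = h 1 y := by
  obtain ⟨H, C, hHp, hHx, hHC⟩ := lift_homeo hp h hc h0 hf x₀ hx₀ hfx
  obtain ⟨d, hd, hdl⟩ := le_dist_Zl x₀ hx₀
  have hρ : 0 < min (1 / 2 : ℝ) d := lt_min (by norm_num) hd
  obtain ⟨ρ, hρd⟩ : ∃ ρ, ρ = min (1 / 2 : ℝ) d := ⟨_, rfl⟩
  rw [← hρd] at hρ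
  have hρ1 : ρ ≤ 1 / 2 := by rw [hρd]; exact min_le_left _ _
  have hρ2 : ρ ≤ d := by rw [hρd]; exact min_le_right _ _
  have hinj : Set.InjOn p (Metric.ball x₀ ρ) := by
    intro z hz w hw hzw
    rw [mem_ball_iff_norm] at hz hw
    obtain ⟨l, hl, h1 | h1⟩ := (hp.fib z w).mp hzw
    · have h2 : ‖(2 : ℂ) * l‖ < 2 := by
        have e : (2 : ℂ) * l = (w - x₀) - (z - x₀) := by rw [h1]; ring
        rw [e]
        have := norm_sub_le (w - x₀) (z - x₀)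
        linarith
      have h3 : ‖l‖ < 1 := by
        rw [norm_mul] at h2
        have : ‖(2 : ℂ)‖ = 2 := by simp
        rw [this] at h2
        linarith
      rw [le_small_Zl l hl h3] at h1
      rw [h1]
      ring
    · exfalso
      have h2 : ‖(2 : ℂ) * (x₀ - l)‖ < 2 * ρ := by
        have e : (2 : ℂ) * (x₀ - l) = -((w - x₀) + (z - x₀)) := by rw [h1]; ring
        rw [e, norm_neg]
        have := norm_add_le (w - x₀) (z - x₀)
        linarith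
      rw [norm_mul] at h2
      have h3 : ‖(2 : ℂ)‖ = 2 := by simp
      rw [h3] at h2
      have := hdl l hl
      linarith
  have hpre : p ⁻¹' V ∈ 𝓝 x₀ := hp.cont.continuousAt hV
  obtain ⟨δ, hδ, hδV⟩ := Metric.mem_nhds_iff.mp hpre
  obtain ⟨r, hrd⟩ : ∃ r, r = min (ρ / 2) (δ / 2) := ⟨_, rfl⟩
  have hr : 0 < r := by rw [hrd]; exact lt_min (by linarith) (by linarith)
  have hr1 : r ≤ ρ / 2 := by rw [hrd]; exact min_le_left _ _
  have hr2 : r ≤ δ / 2 := by rw [hrd]; exact min_le_right _ _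
  obtain ⟨g, hg1, hg2⟩ := compress H C hHC x₀ hHx r hr
  obtain ⟨f, hf1, hf2⟩ := push_down hp.cont hp.opn x₀ ρ r hr (by linarith) hinj g hg1
  refine ⟨f, ?_, ?_⟩
  · intro y hy
    apply hf2
    rintro ⟨z, hz, rfl⟩
    apply hy
    apply hδV
    rw [Metric.mem_closedBall] at hz
    rw [Metric.mem_ball]
    linarith
  · have hN : {z | z ∈ Metric.ball x₀ ρ ∧ g z = H z} ∈ 𝓝 x₀ :=
      Filter.inter_mem (Metric.ball_mem_nhds x₀ hρ) hg2
    have hN2 := hp.opn.image_mem_nhds hN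
    filter_upwards [hN2] with y hy
    obtain ⟨z, ⟨hz1, hz2⟩, rfl⟩ := hy
    rw [hf1 z hz1, hz2, hHp]

end Pool.Agent.SphN
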