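import Mathlib
import Pool.Agent.SphN.Defs

set_option autoImplicit false

namespace Pool.Agent.SphN
open Topology Set Filter

/-- the pillowcase map, not normalised -/
noncomputable def pv (z : ℂ) : Quaternion ℝ :=
  ⟨0, Real.cos (Real.pi * z.re), Real.cos (Real.pi * z.im),
    Real.sin (Real.pi * z.re) * Real.sin (Real.pi * z.im)⟩

theorem pv_ne (z : ℂ) : pv z ≠ 0 := by
  intro h
  have h1 : Real.cos (Real.pi * z.re) = 0 := congrArg (fun q : Quaternion ℝ => q.imI) h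
  have h2 : Real.cos (Real.pi * z.im) = 0 := congrArg (fun q : Quaternion ℝ => q.imJ) h
  have h3 : Real.sin (Real.pi * z.re) * Real.sin (Real.pi * z.im) = 0 :=
    congrArg (fun q : Quaternion ℝ => q.imK) h
  have e1 := Real.sin_sq_add_cos_sq (Real.pi * z.re)
  have e2 := Real.sin_sq_add_cos_sq (Real.pi * z.im)
  rw [h1] at e1
  rw [h2] at e2
  have : (Real.sin (Real.pi * z.re) * Real.sin (Real.pi * z.im)) ^ 2 = 1 := by
    rw [mul_pow]
    have e1' : Real.sin (Real.pi * z.re) ^ 2 = 1 := by linarith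
    have e2' : Real.sin (Real.pi * z.im) ^ 2 = 1 := by linarith
    rw [e1', e2']; ring
  rw [h3] at this
  norm_num at this

theorem pv_scale {a b a2 b2 c c2 s : ℝ} (hs : 0 < s) (ha : a = s * a2) (hb : b = s * b2)
    (hc : c = s * c2) (hcc : c ^ 2 = (1 - a ^ 2) * (1 - b ^ 2))
    (hcc2 : c2 ^ 2 = (1 - a2 ^ 2) * (1 - b2 ^ 2)) (ha1 : a ^ 2 ≤ 1) (hb1 : b ^ 2 ≤ 1)
    (ha21 : a2 ^ 2 ≤ 1) (hb21 : b2 ^ 2 ≤ 1) : s = 1 := by
  by_contra hne
  have h1 : (1 - s ^ 2) * (1 - s ^ 2 * a2 ^ 2 * b2 ^ 2) = 0 := by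
    have h2 : (s * c2) ^ 2 = (1 - (s * a2) ^ 2) * (1 - (s * b2) ^ 2) := by
      rw [← hc, ← ha, ← hb]; exact hcc
    have h3 : s ^ 2 * c2 ^ 2 = s ^ 2 * ((1 - a2 ^ 2) * (1 - b2 ^ 2)) := by rw [hcc2]
    linear_combination h3 - h2
  have hs2 : 1 - s ^ 2 ≠ 0 := by
    intro h0
    have h4 : (s - 1) * (s + 1) = 0 := by linear_combination -h0
    rcases mul_eq_zero.1 h4 with h | h
    · exact hne (by linarith)
    · linarith
  have h5 : s ^ 2 * a2 ^ 2 * b2 ^ 2 = 1 := by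
    have := (mul_eq_zero.1 h1).resolve_left hs2
    linarith
  have h6 : a ^ 2 * b2 ^ 2 = 1 := by rw [ha]; linear_combination h5
  have h7 : b ^ 2 * a2 ^ 2 = 1 := by rw [hb]; linear_combination h5
  have h8 : a ^ 2 = 1 := by nlinarith [sq_nonneg a, sq_nonneg b2]
  have h9 : a2 ^ 2 = 1 := by nlinarith [sq_nonneg b, sq_nonneg a2]
  apply hs2
  have h10 : a ^ 2 = s ^ 2 * a2 ^ 2 := by rw [ha]; ring
  rw [h8, h9] at h10
  linarith

theorem pv_int {x : ℝ} (h : Real.sin (Real.pi * x) = 0) : ∃ n : ℤ, x = n := by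
  obtain ⟨n, hn⟩ := Real.sin_eq_zero_iff.1 h
  refine ⟨n, ?_⟩
  have hpi := Real.pi_ne_zero
  have : Real.pi * (x - n) = 0 := by linear_combination -hn
  rcases mul_eq_zero.1 this with h | h
  · exact absurd h hpi
  · linarith

theorem pv_cos {x x2 : ℝ} (h : Real.cos (Real.pi * x) = Real.cos (Real.pi * x2)) :
    ∃ k : ℤ, x2 = 2 * k + x ∨ x2 = 2 * k - x := by
  have hpi := Real.pi_ne_zero
  obtain ⟨k, hk⟩ := Real.cos_eq_cos_iff.1 h
  refine ⟨k, ?_⟩
  rcases hk with hk | hk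
  · left
    have : Real.pi * (x2 - (2 * k + x)) = 0 := by linear_combination hk
    rcases mul_eq_zero.1 this with h | h
    · exact absurd h hpi
    · linarith
  · right
    have : Real.pi * (x2 - (2 * k - x)) = 0 := by linear_combination hk
    rcases mul_eq_zero.1 this with h | h
    · exact absurd h hpi
    · linarith

theorem pv_sin_add (x : ℝ) (k : ℤ) : Real.sin (Real.pi * (2 * k + x)) = Real.sin (Real.pi * x) := by
  have : Real.pi * (2 * k + x) = Real.pi * x + k * (2 * Real.pi) := by ring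
  rw [this, Real.sin_add_int_mul_two_pi]

theorem pv_sin_sub (x : ℝ) (k : ℤ) :
    Real.sin (Real.pi * (2 * k - x)) = -Real.sin (Real.pi * x) := by
  have : Real.pi * (2 * k - x) = -(Real.pi * x) + k * (2 * Real.pi) := by ring
  rw [this, Real.sin_add_int_mul_two_pi, Real.sin_neg]

theorem pv_cos_add (x : ℝ) (k : ℤ) : Real.cos (Real.pi * (2 * k + x)) = Real.cos (Real.pi * x) := by
  have : Real.pi * (2 * k + x) = Real.pi * x + k * (2 * Real.pi) := by ring
  rw [this, Real.cos_add_int_mul_two_pi]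

theorem pv_cos_sub (x : ℝ) (k : ℤ) :
    Real.cos (Real.pi * (2 * k - x)) = Real.cos (Real.pi * x) := by
  have : Real.pi * (2 * k - x) = -(Real.pi * x) + k * (2 * Real.pi) := by ring
  rw [this, Real.cos_add_int_mul_two_pi, Real.cos_neg]

/-- star-shapedness and fibres -/
theorem pv_fib (z w : ℂ) (s : ℝ) (hs : 0 < s) (h : pv z = s • pv w) :
    ∃ l ∈ Zl, w = 2 * l + z ∨ w = 2 * l - z := by
  have h1 : Real.cos (Real.pi * z.re) = s * Real.cos (Real.pi * w.re) := by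
    have := congrArg (fun q : Quaternion ℝ => q.imI) h
    simpa [pv] using this
  have h2 : Real.cos (Real.pi * z.im) = s * Real.cos (Real.pi * w.im) := by
    have := congrArg (fun q : Quaternion ℝ => q.imJ) h
    simpa [pv] using this
  have h3 : Real.sin (Real.pi * z.re) * Real.sin (Real.pi * z.im) =
      s * (Real.sin (Real.pi * w.re) * Real.sin (Real.pi * w.im)) := by
    have := congrArg (fun q : Quaternion ℝ => q.imK) h
    simpa [pv] using this
  have e1 := Real.sin_sq_add_cos_sq (Real.pi * z.re)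
  have e2 := Real.sin_sq_add_cos_sq (Real.pi * z.im)
  have e3 := Real.sin_sq_add_cos_sq (Real.pi * w.re)
  have e4 := Real.sin_sq_add_cos_sq (Real.pi * w.im)
  have hs1 : s = 1 := by
    refine pv_scale hs h1 h2 h3 ?_ ?_ (Real.cos_sq_le_one _) (Real.cos_sq_le_one _)
      (Real.cos_sq_le_one _) (Real.cos_sq_le_one _)
    · rw [mul_pow, ← e1]
      have e1' : Real.sin (Real.pi * z.re) ^ 2 = 1 - Real.cos (Real.pi * z.re) ^ 2 := by linarith
      have e2' : Real.sin (Real.pi * z.im) ^ 2 = 1 - Real.cos (Real.pi * z.im) ^ 2 := by linarith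
      rw [e1', e2']
      ring
    · have e1' : Real.sin (Real.pi * w.re) ^ 2 = 1 - Real.cos (Real.pi * w.re) ^ 2 := by linarith
      have e2' : Real.sin (Real.pi * w.im) ^ 2 = 1 - Real.cos (Real.pi * w.im) ^ 2 := by linarith
      rw [mul_pow, e1', e2']
  rw [hs1, one_mul] at h1 h2 h3
  have mk1 : ∀ k k' : ℤ, w.re = 2 * k + z.re → w.im = 2 * k' + z.im →
      ∃ l ∈ Zl, w = 2 * l + z ∨ w = 2 * l - z := by
    intro k k' hk hk'
    refine ⟨(k : ℂ) + (k' : ℂ) * Complex.I, ⟨k, k', rfl⟩, Or.inl ?_⟩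
    apply Complex.ext
    · simp [hk]
    · simp [hk']
  have mk2 : ∀ k k' : ℤ, w.re = 2 * k - z.re → w.im = 2 * k' - z.im →
      ∃ l ∈ Zl, w = 2 * l + z ∨ w = 2 * l - z := by
    intro k k' hk hk'
    refine ⟨(k : ℂ) + (k' : ℂ) * Complex.I, ⟨k, k', rfl⟩, Or.inr ?_⟩
    apply Complex.ext
    · simp [hk]
    · simp [hk']
  obtain ⟨k, hk⟩ := pv_cos h1
  obtain ⟨k', hk'⟩ := pv_cos h2
  rcases hk with hk | hk <;> rcases hk' with hk' | hk'
  · exact mk1 k k' hk hk'
  · rw [hk, hk', pv_sin_add, pv_sin_sub] at h3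
    have h4 : Real.sin (Real.pi * z.re) * Real.sin (Real.pi * z.im) = 0 := by linarith
    rcases mul_eq_zero.1 h4 with h | h
    · obtain ⟨n, hn⟩ := pv_int h
      exact mk2 (k + n) k' (by rw [hk, hn]; push_cast; ring) hk'
    · obtain ⟨n, hn⟩ := pv_int h
      exact mk1 k (k' - n) hk (by rw [hk', hn]; push_cast; ring)
  · rw [hk, hk', pv_sin_add, pv_sin_sub] at h3
    have h4 : Real.sin (Real.pi * z.re) * Real.sin (Real.pi * z.im) = 0 := by linarith
    rcases mul_eq_zero.1 h4 with h | h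
    · obtain ⟨n, hn⟩ := pv_int h
      exact mk1 (k - n) k' (by rw [hk, hn]; push_cast; ring) hk'
    · obtain ⟨n, hn⟩ := pv_int h
      exact mk2 k (k' + n) hk (by rw [hk', hn]; push_cast; ring)
  · exact mk2 k k' hk hk'

theorem pv_inv (z l : ℂ) (hl : l ∈ Zl) : pv (2 * l + z) = pv z ∧ pv (2 * l - z) = pv z := by
  obtain ⟨k, k', rfl⟩ := hl
  have r1 : (2 * ((k : ℂ) + (k' : ℂ) * Complex.I) + z).re = 2 * (k : ℝ) + z.re := by simp
  have r2 : (2 * ((k : ℂ) + (k' : ℂ) * Complex.I) + z).im = 2 * (k' : ℝ) + z.im := by simp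
  have r3 : (2 * ((k : ℂ) + (k' : ℂ) * Complex.I) - z).re = 2 * (k : ℝ) - z.re := by simp
  have r4 : (2 * ((k : ℂ) + (k' : ℂ) * Complex.I) - z).im = 2 * (k' : ℝ) - z.im := by simp
  constructor
  · unfold pv
    rw [r1, r2, pv_cos_add, pv_cos_add, pv_sin_add, pv_sin_add]
  · unfold pv
    rw [r3, r4, pv_cos_sub, pv_cos_sub, pv_sin_sub, pv_sin_sub]
    congr 1
    ring

theorem pv_root (a b c : ℝ) (h : ¬ (a = 0 ∧ b = 0 ∧ c = 0)) :
    ∃ s : ℝ, 0 < s ∧ |s * a| ≤ 1 ∧ |s * b| ≤ 1 ∧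
      (1 - (s * a) ^ 2) * (1 - (s * b) ^ 2) = (s * c) ^ 2 := by
  obtain ⟨s1, hs1, hsa, hsb, hF⟩ : ∃ s1 : ℝ, 0 < s1 ∧ |s1 * a| ≤ 1 ∧ |s1 * b| ≤ 1 ∧
      (1 - (s1 * a) ^ 2) * (1 - (s1 * b) ^ 2) - (s1 * c) ^ 2 ≤ 0 := by
    by_cases hM : 0 < max |a| |b|
    · refine ⟨(max |a| |b|)⁻¹, inv_pos.2 hM, ?_, ?_, ?_⟩
      · rw [abs_mul, abs_of_pos (inv_pos.2 hM), inv_mul_le_iff₀ hM, mul_one]
        exact le_max_left _ _
      · rw [abs_mul, abs_of_pos (inv_pos.2 hM), inv_mul_le_iff₀ hM, mul_one]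
        exact le_max_right _ _
      · have h0 : (1 - ((max |a| |b|)⁻¹ * a) ^ 2) * (1 - ((max |a| |b|)⁻¹ * b) ^ 2) = 0 := by
          rcases max_choice |a| |b| with hm | hm
          · have h1 : ((max |a| |b|)⁻¹ * a) ^ 2 = 1 := by
              rw [hm] at hM ⊢
              rw [← sq_abs, abs_mul, abs_of_pos (inv_pos.2 hM), inv_mul_cancel₀ hM.ne', one_pow]
            rw [h1]; ring
          · have h1 : ((max |a| |b|)⁻¹ * b) ^ 2 = 1 := by
              rw [hm] at hM ⊢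
              rw [← sq_abs, abs_mul, abs_of_pos (inv_pos.2 hM), inv_mul_cancel₀ hM.ne', one_pow]
            rw [h1]; ring
        rw [h0]
        have := sq_nonneg ((max |a| |b|)⁻¹ * c)
        linarith
    · have ha : a = 0 := by
        have h1 := le_max_left |a| |b|
        have h2 := abs_nonneg a
        exact abs_eq_zero.1 (by linarith)
      have hb : b = 0 := by
        have h1 := le_max_right |a| |b|
        have h2 := abs_nonneg b
        exact abs_eq_zero.1 (by linarith)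
      have hc : c ≠ 0 := fun hc => h ⟨ha, hb, hc⟩
      have hc' : 0 < |c| := abs_pos.2 hc
      refine ⟨|c|⁻¹, inv_pos.2 hc', by simp [ha], by simp [hb], ?_⟩
      have h1 : (|c|⁻¹ * c) ^ 2 = 1 := by
        rw [← sq_abs, abs_mul, abs_of_pos (inv_pos.2 hc'), inv_mul_cancel₀ hc'.ne', one_pow]
      rw [h1, ha, hb]
      norm_num
  have hcont : ContinuousOn (fun s : ℝ => (1 - (s * a) ^ 2) * (1 - (s * b) ^ 2) - (s * c) ^ 2)
      (Icc 0 s1) := by fun_prop
  obtain ⟨s, hs, hs0⟩ := intermediate_value_Icc' hs1.le hcont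
    (show (0:ℝ) ∈ _ from ⟨hF, by norm_num⟩)
  have hs0' : (1 - (s * a) ^ 2) * (1 - (s * b) ^ 2) - (s * c) ^ 2 = 0 := hs0
  have hspos : 0 < s := by
    rcases hs.1.lt_or_eq with h | h
    · exact h
    · rw [← h] at hs0'
      norm_num at hs0'
  refine ⟨s, hspos, ?_, ?_, by linarith⟩
  · refine le_trans ?_ hsa
    rw [abs_mul, abs_mul, abs_of_pos hspos, abs_of_pos hs1]
    exact mul_le_mul_of_nonneg_right hs.2 (abs_nonneg _)
  · refine le_trans ?_ hsb
    rw [abs_mul, abs_mul, abs_of_pos hspos, abs_of_pos hs1]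
    exact mul_le_mul_of_nonneg_right hs.2 (abs_nonneg _)

/-- every direction is hit -/
theorem pv_surj (q : Quaternion ℝ) (h0 : q.re = 0) (hq : q ≠ 0) :
    ∃ (z : ℂ) (s : ℝ), 0 < s ∧ pv z = s • q := by
  obtain ⟨s, hs, hsa, hsb, hF⟩ := pv_root q.imI q.imJ q.imK (by
    rintro ⟨h1, h2, h3⟩
    apply hq
    ext
    · exact h0
    · exact h1
    · exact h2
    · exact h3)
  rw [abs_le] at hsa hsb
  have hpi := Real.pi_ne_zero
  have h4 : √(1 - (s * q.imI) ^ 2) * √(1 - (s * q.imJ) ^ 2) = s * |q.imK| := by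
    rw [← Real.sqrt_mul (by nlinarith), hF, Real.sqrt_sq_eq_abs, abs_mul, abs_of_pos hs]
  have e1 : Real.pi * (Real.arccos (s * q.imI) / Real.pi) = Real.arccos (s * q.imI) := by
    field_simp
  have e2 : Real.pi * (Real.arccos (s * q.imJ) / Real.pi) = Real.arccos (s * q.imJ) := by
    field_simp
  have e3 : Real.pi * (-(Real.arccos (s * q.imJ) / Real.pi)) = -Real.arccos (s * q.imJ) := by
    field_simp
  rcases le_total 0 q.imK with hk | hk
  · refine ⟨⟨Real.arccos (s * q.imI) / Real.pi, Real.arccos (s * q.imJ) / Real.pi⟩, s, hs, ?_⟩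
    unfold pv
    simp only [e1, e2]
    rw [Real.cos_arccos hsa.1 hsa.2, Real.cos_arccos hsb.1 hsb.2, Real.sin_arccos,
      Real.sin_arccos, h4, abs_of_nonneg hk]
    ext <;> simp [h0]
  · refine ⟨⟨Real.arccos (s * q.imI) / Real.pi, -(Real.arccos (s * q.imJ) / Real.pi)⟩, s, hs, ?_⟩
    unfold pv
    simp only [e1, e3]
    rw [Real.cos_neg, Real.sin_neg, Real.cos_arccos hsa.1 hsa.2, Real.cos_arccos hsb.1 hsb.2,
      Real.sin_arccos, Real.sin_arccos, mul_neg, h4, abs_of_nonpos hk]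
    ext <;> simp [h0]

end Pool.Agent.SphN
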