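import Mathlib
import Pool.Agent.SphN.Pv

set_option autoImplicit false

namespace Pool.Agent.SphN
open Topology Set Filter

theorem zl_round (z : ℂ) : ∃ l ∈ Zl, ‖2 * l + z‖ ≤ 2 := by
  refine ⟨((-(round (z.re / 2)) : ℤ) : ℂ) + ((-(round (z.im / 2)) : ℤ) : ℂ) * Complex.I,
    ⟨_, _, rfl⟩, ?_⟩
  refine (Complex.norm_le_abs_re_add_abs_im _).trans ?_
  have h1 := abs_sub_round (z.re / 2)
  have h2 := abs_sub_round (z.im / 2)
  have e1 : (2 * (((-(round (z.re / 2)) : ℤ) : ℂ) + ((-(round (z.im / 2)) : ℤ) : ℂ) * Complex.I)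
      + z).re = 2 * (z.re / 2 - round (z.re / 2)) := by
    simp
    ring
  have e2 : (2 * (((-(round (z.re / 2)) : ℤ) : ℂ) + ((-(round (z.im / 2)) : ℤ) : ℂ) * Complex.I)
      + z).im = 2 * (z.im / 2 - round (z.im / 2)) := by
    simp
    ring
  rw [e1, e2, abs_mul, abs_mul, abs_of_pos (two_pos (α := ℝ))]
  linarith

/-- a continuous surjection with pillowcase fibres onto a Hausdorff space is open -/
theorem pil_of {S : Type*} [TopologicalSpace S] [T2Space S] {p : ℂ → S} (hc : Continuous p)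
    (hs : Function.Surjective p)
    (hf : ∀ z w : ℂ, p z = p w ↔ ∃ l ∈ Zl, w = 2 * l + z ∨ w = 2 * l - z) : Pil p := by
  refine ⟨hc, ?_, hs, hf⟩
  intro U hU
  -- the saturation
  have hsat : IsOpen (p ⁻¹' (p '' U)) := by
    have h1 : p ⁻¹' (p '' U) = ⋃ l ∈ Zl, ((fun w : ℂ => w - 2 * l) ⁻¹' U ∪
        (fun w : ℂ => 2 * l - w) ⁻¹' U) := by
      ext w
      rw [mem_preimage, mem_iUnion₂]
      constructor
      · rintro ⟨z, hz, hzw⟩
        obtain ⟨l, hl, h | h⟩ := (hf z w).1 hzw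
        · refine ⟨l, hl, Or.inl ?_⟩
          rw [mem_preimage, h]
          simpa using hz
        · refine ⟨l, hl, Or.inr ?_⟩
          rw [mem_preimage, h]
          simpa using hz
      · rintro ⟨l, hl, h | h⟩
        · exact ⟨w - 2 * l, h, (hf _ _).2 ⟨l, hl, Or.inl (by ring)⟩⟩
        · exact ⟨2 * l - w, h, (hf _ _).2 ⟨l, hl, Or.inr (by ring)⟩⟩
    rw [h1]
    refine isOpen_biUnion fun l _ => IsOpen.union ?_ ?_
    · exact hU.preimage (by fun_prop)
    · exact hU.preimage (by fun_prop)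
  have hcl : IsClosed (p '' ((p ⁻¹' (p '' U))ᶜ ∩ Metric.closedBall (0 : ℂ) 2)) := by
    apply IsCompact.isClosed
    apply IsCompact.image _ hc
    exact (isCompact_closedBall (0 : ℂ) 2).inter_left hsat.isClosed_compl
  have heq : p '' ((p ⁻¹' (p '' U))ᶜ ∩ Metric.closedBall (0 : ℂ) 2) = (p '' U)ᶜ := by
    ext s
    constructor
    · rintro ⟨z, ⟨hz, _⟩, rfl⟩
      exact hz
    · intro hsU
      obtain ⟨z, rfl⟩ := hs s
      obtain ⟨l, hl, hz2⟩ := zl_round z
      have h3 : p z = p (2 * l + z) := (hf z _).2 ⟨l, hl, Or.inl rfl⟩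
      refine ⟨2 * l + z, ⟨?_, ?_⟩, h3.symm⟩
      · intro h4
        apply hsU
        rw [h3]
        exact h4
      · rw [mem_closedBall_zero_iff]
        exact hz2
  rw [heq] at hcl
  exact isClosed_compl_iff.1 hcl

theorem pv_cont : Continuous pv := by
  have h1 : pv = fun z : ℂ => Real.cos (Real.pi * z.re) • (⟨0, 1, 0, 0⟩ : Quaternion ℝ) +
      Real.cos (Real.pi * z.im) • (⟨0, 0, 1, 0⟩ : Quaternion ℝ) +
      (Real.sin (Real.pi * z.re) * Real.sin (Real.pi * z.im)) • (⟨0, 0, 0, 1⟩ : Quaternion ℝ) := by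
    funext z
    unfold pv
    ext <;> simp
  rw [h1]
  have c1 : Continuous (fun z : ℂ => Real.cos (Real.pi * z.re)) :=
    Real.continuous_cos.comp (continuous_const.mul Complex.continuous_re)
  have c2 : Continuous (fun z : ℂ => Real.cos (Real.pi * z.im)) :=
    Real.continuous_cos.comp (continuous_const.mul Complex.continuous_im)
  have c3 : Continuous (fun z : ℂ => Real.sin (Real.pi * z.re)) :=
    Real.continuous_sin.comp (continuous_const.mul Complex.continuous_re)
  have c4 : Continuous (fun z : ℂ => Real.sin (Real.pi * z.im)) :=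
    Real.continuous_sin.comp (continuous_const.mul Complex.continuous_im)
  exact ((c1.smul continuous_const).add (c2.smul continuous_const)).add
    ((c3.mul c4).smul continuous_const)

theorem quat_sq {q : Quaternion ℝ} (h : q.re = 0) :
    q * q = -((‖q‖ * ‖q‖ : ℝ) : Quaternion ℝ) := by
  have h1 : star q = -q := Quaternion.star_eq_neg.2 h
  have h2 := Quaternion.self_mul_star q
  rw [h1, Quaternion.normSq_eq_norm_mul_self] at h2
  rw [← h2, mul_neg, neg_neg]

theorem quat_of_sq {q : Quaternion ℝ} (h : q * q = -1) : q.re = 0 ∧ ‖q‖ = 1 := by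
  have e0 := congrArg (fun x : Quaternion ℝ => x.re) h
  have e1 := congrArg (fun x : Quaternion ℝ => x.imI) h
  have e2 := congrArg (fun x : Quaternion ℝ => x.imJ) h
  have e3 := congrArg (fun x : Quaternion ℝ => x.imK) h
  simp at e0 e1 e2 e3
  have o0 : QuaternionAlgebra.re (1 : Quaternion ℝ) = 1 := rfl
  have o1 : QuaternionAlgebra.imI (1 : Quaternion ℝ) = 0 := rfl
  have o2 : QuaternionAlgebra.imJ (1 : Quaternion ℝ) = 0 := rfl
  have o3 : QuaternionAlgebra.imK (1 : Quaternion ℝ) = 0 := rfl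
  rw [o0] at e0
  rw [o1] at e1
  rw [o2] at e2
  rw [o3] at e3
  have hre : q.re = 0 := by
    by_contra h0
    have f1 : q.imI = 0 := by
      have : q.re * q.imI = 0 := by linarith
      exact (mul_eq_zero.1 this).resolve_left h0
    have f2 : q.imJ = 0 := by
      have : q.re * q.imJ = 0 := by linarith
      exact (mul_eq_zero.1 this).resolve_left h0
    have f3 : q.imK = 0 := by
      have : q.re * q.imK = 0 := by linarith
      exact (mul_eq_zero.1 this).resolve_left h0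
    rw [f1, f2, f3] at e0
    nlinarith [mul_self_nonneg q.re]
  refine ⟨hre, ?_⟩
  have h2 := quat_sq hre
  rw [h] at h2
  have h3 : ((‖q‖ * ‖q‖ : ℝ) : Quaternion ℝ) = ((1 : ℝ) : Quaternion ℝ) := by
    rw [← neg_inj, ← h2]
    simp
  have h4 : ‖q‖ * ‖q‖ = 1 := Quaternion.coe_injective h3
  nlinarith [norm_nonneg q]

theorem pil_exists : ∃ p : ℂ → Sq, Pil p := by
  have hn : ∀ z, 0 < ‖pv z‖ := fun z => norm_pos_iff.2 (pv_ne z)
  have hre : ∀ z, (‖pv z‖⁻¹ • pv z).re = 0 := by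
    intro z
    simp [pv]
  have hnorm : ∀ z, ‖(‖pv z‖⁻¹ • pv z)‖ = 1 := by
    intro z
    rw [norm_smul, norm_inv, norm_norm, inv_mul_cancel₀ (hn z).ne']
  have hmem : ∀ z, (‖pv z‖⁻¹ • pv z) * (‖pv z‖⁻¹ • pv z) = -1 := by
    intro z
    rw [quat_sq (hre z), hnorm z]
    simp
  refine ⟨fun z => ⟨‖pv z‖⁻¹ • pv z, hmem z⟩, pil_of ?_ ?_ ?_⟩
  · refine Continuous.subtype_mk ?_ _
    exact (pv_cont.norm.inv₀ (fun z => (hn z).ne')).smul pv_cont
  · rintro ⟨q, hq⟩
    obtain ⟨h1, h2⟩ := quat_of_sq hq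
    have hq0 : q ≠ 0 := by
      intro h0
      rw [h0, norm_zero] at h2
      exact zero_ne_one h2
    obtain ⟨z, s, hs, hz⟩ := pv_surj q h1 hq0
    refine ⟨z, Subtype.ext ?_⟩
    change ‖pv z‖⁻¹ • pv z = q
    rw [hz, norm_smul, h2, mul_one, Real.norm_of_nonneg hs.le, smul_smul, inv_mul_cancel₀ hs.ne',
      one_smul]
  · intro z w
    rw [Subtype.mk.injEq]
    constructor
    · intro h
      refine pv_fib z w (‖pv z‖ * ‖pv w‖⁻¹) (mul_pos (hn z) (inv_pos.2 (hn w))) ?_
      rw [mul_smul, ← h, smul_smul, mul_inv_cancel₀ (hn z).ne', one_smul]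
    · rintro ⟨l, hl, h | h⟩
      · rw [h, (pv_inv z l hl).1]
      · rw [h, (pv_inv z l hl).2]

end Pool.Agent.SphN
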