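import Mathlib
import Pool.Agent.SphN.QBasic
import Pool.Agent.SphN.Twist
import Pool.Agent.SphN.FixFin
import Pool.Agent.SphN.Pillow
import Pool.Agent.SphN.LocalExt
import Pool.Agent.SphN.IsoInd

set_option autoImplicit false

namespace Pool.Agent.SphN
open Topology Set Filter

theorem Ad_congr {u v : Quaternion ℝ} (hu : u ≠ 0) (hv : v ≠ 0) (h : u = v) (x : Sq) :
    Ad u hu x = Ad v hv x := by
  subst h; rfl

theorem tm_one : Tm 1 := by
  intro x u hu h V hV
  obtain ⟨f, hf1, hf2⟩ := rot_ext x u hu h V hV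
  exact ⟨f, hf1, hf2⟩

theorem tm_mul (f g : Sq ≃ₜ Sq) (hf : Tm f) (hg : Tm g) : Tm (f * g) := by
  intro x u hu h V hV
  obtain ⟨v, hv, hvx⟩ := Ad_trans (g x) x
  obtain ⟨f2, h2s, h2e⟩ := hg x v hv hvx V hV
  have hw : v⁻¹ * u ≠ 0 := mul_ne_zero (inv_ne_zero hv) hu
  have hy : Ad (v⁻¹ * u) hw (f (g x)) = g x := by
    rw [← Ad_Ad v⁻¹ u (inv_ne_zero hv) hu]
    have h' : Ad u hu (f (g x)) = x := h
    rw [h', ← Ad_symm v hv x, Homeomorph.symm_apply_eq]
    exact hvx.symm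
  have hV' : (Ad v hv) ⁻¹' V ∈ 𝓝 (g x) := by
    apply (Ad v hv).continuous.continuousAt.preimage_mem_nhds
    rw [hvx]; exact hV
  obtain ⟨f1, h1s, h1e⟩ := hf (g x) (v⁻¹ * u) hw hy _ hV'
  refine ⟨Ad v hv * f1 * (Ad v hv)⁻¹ * f2, ?_, ?_⟩
  · intro y hy'
    show Ad v hv (f1 ((Ad v hv).symm (f2 y))) = y
    rw [h2s y hy', h1s _ (by
      intro hmem
      apply hy'
      have : Ad v hv ((Ad v hv).symm y) ∈ V := hmem
      rwa [Homeomorph.apply_symm_apply] at this), Homeomorph.apply_symm_apply]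
  · have hgx : ∀ᶠ z in 𝓝 x, f1 (g z) = Ad (v⁻¹ * u) hw (f (g z)) :=
      g.continuous.continuousAt.eventually h1e
    filter_upwards [h2e, hgx] with z hz1 hz2
    show Ad v hv (f1 ((Ad v hv).symm (f2 z))) = Ad u hu (f (g z))
    rw [hz1, Homeomorph.symm_apply_apply, hz2, Ad_Ad]
    exact Ad_congr _ _ (by rw [← mul_assoc, mul_inv_cancel₀ hv, one_mul]) _

theorem Zl_half : (1 + Complex.I) / 2 ∉ Zl := by
  rintro ⟨m, n, h⟩
  have h1 := congrArg Complex.re h
  simp at h1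
  have h2 : (1 : ℝ) = ((2 * m : ℤ) : ℝ) := by push_cast; linarith
  have h3 : (1 : ℤ) = 2 * m := by exact_mod_cast h2
  omega

theorem p_Zl {S : Type*} [TopologicalSpace S] {p : ℂ → S} (hp : Pil p) (z : ℂ) (hz : z ∈ Zl) :
    p z = p 0 ∨ p z = p 1 ∨ p z = p Complex.I ∨ p z = p (1 + Complex.I) := by
  obtain ⟨m, n, rfl⟩ := hz
  have key : ∀ (e : ℂ) (a b : ℤ), ((m : ℂ) + (n : ℂ) * Complex.I) = 2 * ((a : ℂ) + b * Complex.I) + e →
      p ((m : ℂ) + (n : ℂ) * Complex.I) = p e := by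
    intro e a b h
    symm
    rw [hp.fib]
    exact ⟨(a : ℂ) + b * Complex.I, ⟨a, b, rfl⟩, Or.inl h⟩
  rcases Int.emod_two_eq_zero_or_one m with hm | hm <;>
    rcases Int.emod_two_eq_zero_or_one n with hn | hn
  · left
    have e1 : m = 2 * (m / 2) := by omega
    have e2 : n = 2 * (n / 2) := by omega
    have e1' : (m : ℂ) = 2 * ((m / 2 : ℤ) : ℂ) := by exact_mod_cast e1
    have e2' : (n : ℂ) = 2 * ((n / 2 : ℤ) : ℂ) := by exact_mod_cast e2
    apply key 0 (m / 2) (n / 2)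
    linear_combination e1' + Complex.I * e2'
  · right; right; left
    have e1 : m = 2 * (m / 2) := by omega
    have e2 : n = 2 * (n / 2) + 1 := by omega
    have e1' : (m : ℂ) = 2 * ((m / 2 : ℤ) : ℂ) := by exact_mod_cast e1
    have e2' : (n : ℂ) = 2 * ((n / 2 : ℤ) : ℂ) + 1 := by exact_mod_cast e2
    apply key Complex.I (m / 2) (n / 2)
    linear_combination e1' + Complex.I * e2'
  · right; left
    have e1 : m = 2 * (m / 2) + 1 := by omega
    have e2 : n = 2 * (n / 2) := by omega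
    have e1' : (m : ℂ) = 2 * ((m / 2 : ℤ) : ℂ) + 1 := by exact_mod_cast e1
    have e2' : (n : ℂ) = 2 * ((n / 2 : ℤ) : ℂ) := by exact_mod_cast e2
    apply key 1 (m / 2) (n / 2)
    linear_combination e1' + Complex.I * e2'
  · right; right; right
    have e1 : m = 2 * (m / 2) + 1 := by omega
    have e2 : n = 2 * (n / 2) + 1 := by omega
    have e1' : (m : ℂ) = 2 * ((m / 2 : ℤ) : ℂ) + 1 := by exact_mod_cast e1
    have e2' : (n : ℂ) = 2 * ((n / 2 : ℤ) : ℂ) + 1 := by exact_mod_cast e2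
    apply key (1 + Complex.I) (m / 2) (n / 2)
    linear_combination e1' + Complex.I * e2'

theorem tm_small : ∃ ε : ℝ, 0 < ε ∧ ∀ h : unitInterval → (Sq ≃ₜ Sq),
    Continuous (fun q : unitInterval × Sq => h q.1 q.2) → h 0 = 1 →
    (∀ t z, dist (h t z) z < ε) → Tm (h 1) := by
  classical
  obtain ⟨p, hp⟩ := pil_exists
  set x₀ : ℂ := (1 + Complex.I) / 2 with hx₀
  set q₀ : Sq := p x₀ with hq₀
  set F : Finset Sq := {p 0, p 1, p Complex.I, p (1 + Complex.I), q₀} with hF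
  have hqF : q₀ ∈ F := by simp [hF]
  have hZF : ∀ z ∈ Zl, p z ∈ F := by
    intro z hz
    rcases p_Zl hp z hz with h | h | h | h <;> simp [hF, h]
  obtain ⟨ε, hε, hfix⟩ := fix_finite F q₀ hqF
  refine ⟨ε, hε, ?_⟩
  intro h hc h0 hsm x u hu hx V hV
  obtain ⟨v, hv, hvx⟩ := Ad_trans x q₀
  set g : unitInterval → (Sq ≃ₜ Sq) := fun t => Ad v hv * h t * (Ad v hv)⁻¹ with hg
  have gapp : ∀ t z, g t z = Ad v hv (h t ((Ad v hv).symm z)) := fun t z => rfl
  have hgc : Continuous (fun q : unitInterval × Sq => g q.1 q.2) := by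
    have : Continuous (fun q : unitInterval × Sq =>
        Ad v hv (h q.1 ((Ad v hv).symm q.2))) := by
      apply (Ad v hv).continuous.comp
      exact hc.comp (continuous_fst.prodMk ((Ad v hv).symm.continuous.comp continuous_snd))
    exact this
  have hg0 : g 0 = 1 := by
    ext1 z
    rw [gapp, h0]
    show Ad v hv ((Ad v hv).symm z) = z
    rw [Homeomorph.apply_symm_apply]
  have hgs : ∀ t z, dist (g t z) z < ε := by
    intro t z
    have e : z = Ad v hv ((Ad v hv).symm z) := by rw [Homeomorph.apply_symm_apply]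
    rw [gapp]
    conv_lhs => rw [e]
    rw [Homeomorph.symm_apply_apply, Ad_dist]
    exact hsm t _
  obtain ⟨g', hg'c, hg'0, hg'f, w, hw, hge⟩ := hfix g hgc hg0 hgs
  have hV' : (Ad v hv).symm ⁻¹' V ∈ 𝓝 (p x₀) := by
    apply (Ad v hv).symm.continuous.continuousAt.preimage_mem_nhds
    have : (Ad v hv).symm (p x₀) = x := by
      rw [Homeomorph.symm_apply_eq]; exact hvx.symm
    rw [this]; exact hV
  obtain ⟨f', hf's, hf'e⟩ := local_ext hp g' hg'c hg'0 (fun t z hz => hg'f t _ (hZF z hz)) x₀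
    Zl_half (fun t => hg'f t _ hqF) _ hV'
  have hsx : (Ad v hv).symm q₀ = x := by
    rw [Homeomorph.symm_apply_eq]; exact hvx.symm
  have hvv : v⁻¹ * w * v ≠ 0 := mul_ne_zero (mul_ne_zero (inv_ne_zero hv) hw) hv
  -- the first correction
  have hf1s : ∀ y, y ∉ V → (Ad v hv).symm (f' (Ad v hv y)) = y := by
    intro y hy
    rw [hf's _ (by
      intro hmem
      apply hy
      have : (Ad v hv).symm (Ad v hv y) ∈ V := hmem
      rwa [Homeomorph.symm_apply_apply] at this), Homeomorph.symm_apply_apply]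
  have hf1e : ∀ᶠ z in 𝓝 x, (Ad v hv).symm (f' (Ad v hv z)) = Ad (v⁻¹ * w * v) hvv (h 1 z) := by
    have c1 : Tendsto (Ad v hv) (𝓝 x) (𝓝 q₀) := by
      have := (Ad v hv).continuous.tendsto x
      rwa [hvx] at this
    filter_upwards [c1.eventually hf'e, c1.eventually hge] with z hz1 hz2
    rw [hz1, hz2, gapp, Homeomorph.symm_apply_apply, Ad_symm, Ad_Ad, Ad_Ad]
  have hf1x : (Ad v hv).symm (f' (Ad v hv x)) = x := by
    have e1 : f' q₀ = g' 1 q₀ := hf'e.self_of_nhds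
    rw [hvx, e1, hg'f 1 q₀ hqF, hsx]
  have hu' : u * (v⁻¹ * w * v)⁻¹ ≠ 0 := mul_ne_zero hu (inv_ne_zero hvv)
  have hu'x : Ad (u * (v⁻¹ * w * v)⁻¹) hu' x = x := by
    have e1 : Ad (v⁻¹ * w * v) hvv (h 1 x) = x := by
      rw [← hf1e.self_of_nhds, hf1x]
    rw [← Ad_Ad u _ hu (inv_ne_zero hvv), ← Ad_symm _ hvv]
    have e2 : (Ad (v⁻¹ * w * v) hvv).symm x = h 1 x := by
      rw [Homeomorph.symm_apply_eq]; exact e1.symm
    rw [e2]; exact hx
  obtain ⟨f2, h2s, h2e⟩ := rot_ext x _ hu' hu'x V hV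
  refine ⟨f2 * ((Ad v hv)⁻¹ * f' * Ad v hv), ?_, ?_⟩
  · intro y hy
    show f2 ((Ad v hv).symm (f' (Ad v hv y))) = y
    rw [hf1s y hy, h2s y hy]
  · have c2 : Tendsto (fun z => (Ad v hv).symm (f' (Ad v hv z))) (𝓝 x) (𝓝 x) := by
      have hcont : Continuous (fun z => (Ad v hv).symm (f' (Ad v hv z))) :=
        (Ad v hv).symm.continuous.comp (f'.continuous.comp (Ad v hv).continuous)
      have := hcont.tendsto x
      rwa [hf1x] at this
    filter_upwards [c2.eventually h2e, hf1e] with z hz1 hz2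
    show f2 ((Ad v hv).symm (f' (Ad v hv z))) = Ad u hu (h 1 z)
    rw [hz1, hz2, Ad_Ad]
    exact Ad_congr _ _ (by rw [mul_assoc, inv_mul_cancel₀ hvv, mul_one]) _

theorem germExt_Sq : GermExt Sq := by
  intro u hu x hx V hV
  obtain ⟨ε, hε, hs⟩ := tm_small
  have hT : Tm u := isot_induct Tm tm_one tm_mul ε hε hs u hu
  obtain ⟨f, hf1, hf2⟩ := hT x 1 one_ne_zero (by rw [Ad_one]; exact hx) V hV
  refine ⟨f, hf1, ?_⟩
  filter_upwards [hf2] with y hy
  rw [hy, Ad_one]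

end Pool.Agent.SphN
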