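import Mathlib
import Pool.Agent.SphN.IotaIsot
import Pool.Agent.SphN.GermSq

set_option autoImplicit false

namespace Pool.Agent.SphN
open Topology Set Filter

theorem germExt_C : GermExt (OnePoint ℂ) := by
  obtain ⟨e⟩ := sq_onePoint
  exact germExt_congr e germExt_Sq

/-- normal form -/
theorem normal_form (h : OnePoint ℂ ≃ₜ OnePoint ℂ) (hh : Isot h) (x : OnePoint ℂ)
    (hx : h x ≠ x) :
    ∃ P : OnePoint ℂ ≃ₜ OnePoint ℂ, P x = ((0 : ℂ) : OnePoint ℂ) ∧ P (h x) = OnePoint.infty ∧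
      ∀ᶠ z in 𝓝 ((0 : ℂ) : OnePoint ℂ), (P * h * P⁻¹) z = iota z := by
  obtain ⟨P0, hP1, hP2⟩ := two_trans x (h x) (Ne.symm hx)
  have hs1 : ∀ (k : OnePoint ℂ ≃ₜ OnePoint ℂ) (y : OnePoint ℂ), k (k⁻¹ y) = y :=
    fun k y => k.apply_symm_apply y
  have hs2 : ∀ (k : OnePoint ℂ ≃ₜ OnePoint ℂ) (y : OnePoint ℂ), k⁻¹ (k y) = y :=
    fun k y => k.symm_apply_apply y
  have hmul : ∀ (k k' : OnePoint ℂ ≃ₜ OnePoint ℂ) (y : OnePoint ℂ), (k * k') y = k (k' y) :=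
    fun k k' y => rfl
  set h1 : OnePoint ℂ ≃ₜ OnePoint ℂ := P0 * h * P0⁻¹ with hh1
  have hi1 : Isot h1 := isot_conj' P0 hh
  have hP0 : P0⁻¹ ((0 : ℂ) : OnePoint ℂ) = x := by rw [← hP1, hs2]
  have h10 : h1 ((0 : ℂ) : OnePoint ℂ) = OnePoint.infty := by
    rw [hh1, hmul, hmul, hP0, hP2]
  have hu : Isot (iota * h1) := isot_mul isot_iota hi1
  have hu0 : (iota * h1) ((0 : ℂ) : OnePoint ℂ) = ((0 : ℂ) : OnePoint ℂ) := by
    rw [hmul, h10, iota_infty]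
  obtain ⟨V, W, hV, hW, h0V, hIW, hVW⟩ :=
    t2_separation (OnePoint.coe_ne_infty (0 : ℂ))
  obtain ⟨f, hf1, hf2⟩ := germExt_C (iota * h1) hu _ hu0 V (hV.mem_nhds h0V)
  have hf0 : f ((0 : ℂ) : OnePoint ℂ) = ((0 : ℂ) : OnePoint ℂ) := by
    rw [hf2.self_of_nhds, hu0]
  have hWV : ∀ z ∈ W, f z = z := fun z hz => hf1 z (fun hzV => hVW.le_bot ⟨hzV, hz⟩)
  refine ⟨f * P0, ?_, ?_, ?_⟩
  · rw [hmul, hP1, hf0]
  · rw [hmul, hP2, hWV _ hIW]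
  · have hfi0 : f⁻¹ ((0 : ℂ) : OnePoint ℂ) = ((0 : ℂ) : OnePoint ℂ) := by
      conv_lhs => rw [← hf0]
      rw [hs2]
    have hc : Tendsto (fun z => f⁻¹ z) (𝓝 ((0 : ℂ) : OnePoint ℂ)) (𝓝 ((0 : ℂ) : OnePoint ℂ)) := by
      have h3 : Continuous fun z => f⁻¹ z := (f⁻¹ : OnePoint ℂ ≃ₜ OnePoint ℂ).continuous
      have h4 := h3.tendsto ((0 : ℂ) : OnePoint ℂ)
      rwa [hfi0] at h4
    have hi : Tendsto (fun z => iota z) (𝓝 ((0 : ℂ) : OnePoint ℂ)) (𝓝 OnePoint.infty) := by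
      have h4 := iota.continuous.tendsto ((0 : ℂ) : OnePoint ℂ)
      rwa [iota_zero] at h4
    filter_upwards [hc.eventually hf2, hi.eventually (hW.mem_nhds hIW)] with z hz1 hz2
    have e1 : (f * P0 * h * (f * P0)⁻¹) z = f (h1 (f⁻¹ z)) := by
      rw [mul_inv_rev]
      rfl
    have e2 : h1 (f⁻¹ z) = iota z := by
      rw [hs1, hmul] at hz1
      conv_rhs => rw [hz1]
      rw [iota_iota]
    rw [e1, e2]
    exact hWV _ hz2

end Pool.Agent.SphN
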