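import Mathlib
import Pool.Agent.SphN.NormalForm
import Pool.Agent.SphN.Claim

set_option autoImplicit false

namespace Pool.Agent.SphN
open Topology Set Filter

theorem exists_ne {X : Type*} [TopologicalSpace X] (f : X ≃ₜ X) (hf : f ≠ 1) : ∃ x, f x ≠ x := by
  by_contra h
  push Not at h
  exact hf (Homeomorph.ext fun x => by rw [h x]; rfl)

theorem lox_aux (f g P Q : OnePoint ℂ ≃ₜ OnePoint ℂ)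
    (hf : ∀ᶠ z in 𝓝 ((0 : ℂ) : OnePoint ℂ), (Q * f * Q⁻¹) z = iota z)
    (hg : ∀ᶠ z in 𝓝 ((0 : ℂ) : OnePoint ℂ), (P * g * P⁻¹) z = iota z)
    (hc : ∃ ε₃ : ℝ, 0 < ε₃ ∧ ∀ ε : ℝ, 0 < ε → ε ≤ ε₃ →
      ((∀ x, nm x ≤ ENNReal.ofReal ε → ENNReal.ofReal ε < nm ((P * g * P⁻¹) (iota x))) ∨
      ((Q * f * Q⁻¹) * (Q * f * Q⁻¹) = 1 ∧ (P * g * P⁻¹) * (P * g * P⁻¹) = 1))) :
    ∃ μ₀ : ℝ, ∀ μ : ℝ, μ₀ < μ → ∃ K Φ : OnePoint ℂ ≃ₜ OnePoint ℂ,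
      f * (K * g * K⁻¹) = Φ * scal (μ : ℂ) * Φ⁻¹ := by
  obtain ⟨ε₁, h1, hf'⟩ := nhds_zero_basis _ hf
  obtain ⟨ε₂, h2, hg'⟩ := nhds_zero_basis _ hg
  obtain ⟨ε₃, h3, hc'⟩ := hc
  obtain ⟨ε₀, h0, hle1, hle2, hle3, hle4⟩ : ∃ ε₀ : ℝ, 0 < ε₀ ∧ ε₀ ≤ ε₁ ∧ ε₀ ≤ ε₂ ∧ ε₀ ≤ ε₃ ∧ ε₀ ≤ 1 / 2 :=
    ⟨min (min ε₁ ε₂) (min ε₃ (1 / 2)), by positivity,
      (min_le_left _ _).trans (min_le_left _ _), (min_le_left _ _).trans (min_le_right _ _),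
      (min_le_right _ _).trans (min_le_left _ _), (min_le_right _ _).trans (min_le_right _ _)⟩
  refine ⟨2 / ε₀ ^ 2, fun μ hμ => ?_⟩
  have hμ0 : 0 < μ := lt_trans (by positivity) hμ
  have hε2 : Real.sqrt (2 / μ) ^ 2 = 2 / μ := Real.sq_sqrt (by positivity)
  have hεpos : 0 < Real.sqrt (2 / μ) := Real.sqrt_pos.mpr (by positivity)
  have hεlt : Real.sqrt (2 / μ) < ε₀ := by
    rw [Real.sqrt_lt' h0, div_lt_iff₀ hμ0]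
    rw [div_lt_iff₀ (by positivity)] at hμ
    linarith
  generalize Real.sqrt (2 / μ) = ε at hε2 hεpos hεlt
  have hμe : 2 / ε ^ 2 = μ := by
    rw [hε2]; field_simp
  have hof : ∀ r : ℝ, ε₀ ≤ r → ENNReal.ofReal ε ≤ ENNReal.ofReal r := fun r hr =>
    ENNReal.ofReal_le_ofReal (hεlt.le.trans hr)
  obtain ⟨K, Φ, hK⟩ := claim1 (Q * f * Q⁻¹) (P * g * P⁻¹) ε hεpos (by linarith)
    (fun x hx => hf' x (hx.trans (hof _ hle1))) (fun x hx => hg' x (hx.trans (hof _ hle2)))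
    (hc' ε hεpos (by linarith))
  rw [hμe] at hK
  refine ⟨Q⁻¹ * K * P, Q⁻¹ * Φ, ?_⟩
  calc f * (Q⁻¹ * K * P * g * (Q⁻¹ * K * P)⁻¹)
      = Q⁻¹ * ((Q * f * Q⁻¹) * (K * (P * g * P⁻¹) * K⁻¹)) * Q := by group
    _ = Q⁻¹ * (Φ * scal (μ : ℂ) * Φ⁻¹) * Q := by rw [hK]
    _ = Q⁻¹ * Φ * scal (μ : ℂ) * (Q⁻¹ * Φ)⁻¹ := by group

/-- first case: `g` is not an involution -/
theorem lox1 (f g : OnePoint ℂ ≃ₜ OnePoint ℂ) (hf : Isot f) (hg : Isot g) (hf1 : f ≠ 1)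
    (hg1 : g * g ≠ 1) :
    ∃ μ₀ : ℝ, ∀ μ : ℝ, μ₀ < μ → ∃ K Φ : OnePoint ℂ ≃ₜ OnePoint ℂ,
      f * (K * g * K⁻¹) = Φ * scal (μ : ℂ) * Φ⁻¹ := by
  obtain ⟨x, hx⟩ := exists_ne _ hg1
  have hgx : g x ≠ x := by
    intro h
    apply hx
    rw [Homeomorph.mul_apply, h, h]
  obtain ⟨y, hy⟩ := exists_ne f hf1
  obtain ⟨P, hP0, hP1, hP⟩ := normal_form g hg x hgx
  obtain ⟨Q, hQ0, hQ1, hQ⟩ := normal_form f hf y hy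
  refine lox_aux f g P Q hQ hP ?_
  have hinf : (P * g * P⁻¹) OnePoint.infty = P (g (g x)) := by
    have : P⁻¹ OnePoint.infty = g x := by
      rw [← hP1, Homeomorph.inv_apply, Homeomorph.symm_apply_apply]
    rw [Homeomorph.mul_apply, Homeomorph.mul_apply, this]
  have hne : nm ((P * g * P⁻¹) (iota ((0 : ℂ) : OnePoint ℂ))) ≠ 0 := by
    rw [iota_zero, hinf]
    intro h
    rw [nm_eq_zero, ← hP0] at h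
    exact hx (P.injective h)
  obtain ⟨δ, hδ0, hδ⟩ : ∃ δ : ℝ, 0 < δ ∧
      ENNReal.ofReal δ < nm ((P * g * P⁻¹) (iota ((0 : ℂ) : OnePoint ℂ))) := by
    obtain ⟨q, hq0, hq⟩ := ENNReal.lt_iff_exists_nnreal_btwn.mp (pos_iff_ne_zero.mpr hne)
    refine ⟨q, by exact_mod_cast hq0, ?_⟩
    rw [ENNReal.ofReal_coe_nnreal]
    exact hq
  have hcont : Continuous fun z => nm ((P * g * P⁻¹) (iota z)) :=
    nm_cont.comp ((P * g * P⁻¹).continuous.comp iota.continuous)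
  obtain ⟨ε₃, h3, h3'⟩ := nhds_zero_basis {z | ENNReal.ofReal δ < nm ((P * g * P⁻¹) (iota z))}
    ((isOpen_lt continuous_const hcont).mem_nhds hδ)
  refine ⟨min ε₃ δ, lt_min h3 hδ0, fun ε he hle => Or.inl fun z hz => ?_⟩
  have e1 : nm z ≤ ENNReal.ofReal ε₃ :=
    hz.trans (ENNReal.ofReal_le_ofReal (hle.trans (min_le_left _ _)))
  exact lt_of_le_of_lt (ENNReal.ofReal_le_ofReal (hle.trans (min_le_right _ _))) (h3' z e1)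

/-- second case: both are involutions -/
theorem lox2 (f g : OnePoint ℂ ≃ₜ OnePoint ℂ) (hf : Isot f) (hg : Isot g) (hf1 : f ≠ 1)
    (hg1 : g ≠ 1) (hff : f * f = 1) (hgg : g * g = 1) :
    ∃ μ₀ : ℝ, ∀ μ : ℝ, μ₀ < μ → ∃ K Φ : OnePoint ℂ ≃ₜ OnePoint ℂ,
      f * (K * g * K⁻¹) = Φ * scal (μ : ℂ) * Φ⁻¹ := by
  obtain ⟨x, hx⟩ := exists_ne g hg1
  obtain ⟨y, hy⟩ := exists_ne f hf1
  obtain ⟨P, hP0, hP1, hP⟩ := normal_form g hg x hx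
  obtain ⟨Q, hQ0, hQ1, hQ⟩ := normal_form f hf y hy
  refine lox_aux f g P Q hQ hP ⟨1, one_pos, fun ε _ _ => Or.inr ⟨?_, ?_⟩⟩
  · calc (Q * f * Q⁻¹) * (Q * f * Q⁻¹) = Q * (f * f) * Q⁻¹ := by group
      _ = 1 := by rw [hff]; group
  · calc (P * g * P⁻¹) * (P * g * P⁻¹) = P * (g * g) * P⁻¹ := by group
      _ = 1 := by rw [hgg]; group

theorem lox (f g : OnePoint ℂ ≃ₜ OnePoint ℂ) (hf : Isot f) (hg : Isot g) (hf1 : f ≠ 1)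
    (hg1 : g ≠ 1) :
    ∃ μ₀ : ℝ, ∀ μ : ℝ, μ₀ < μ → ∃ K Φ : OnePoint ℂ ≃ₜ OnePoint ℂ,
      f * (K * g * K⁻¹) = Φ * scal (μ : ℂ) * Φ⁻¹ := by
  by_cases hgg : g * g = 1
  · by_cases hff : f * f = 1
    · exact lox2 f g hf hg hf1 hg1 hff hgg
    · obtain ⟨μ₀, h⟩ := lox1 g f hg hf hg1 hff
      refine ⟨μ₀, fun μ hμ => ?_⟩
      obtain ⟨K, Φ, hK⟩ := h μ hμ
      refine ⟨K⁻¹, K⁻¹ * g⁻¹ * Φ, ?_⟩
      calc f * (K⁻¹ * g * K⁻¹⁻¹) = K⁻¹ * g⁻¹ * (g * (K * f * K⁻¹)) * (g * K) := by group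
        _ = K⁻¹ * g⁻¹ * (Φ * scal (μ : ℂ) * Φ⁻¹) * (g * K) := by rw [hK]
        _ = K⁻¹ * g⁻¹ * Φ * scal (μ : ℂ) * (K⁻¹ * g⁻¹ * Φ)⁻¹ := by group
  · exact lox1 f g hf hg hf1 hgg

/-- every nontrivial element of `G` is a product of three conjugates of any other one -/
theorem pn_three : PN (OnePoint ℂ) 3 := by
  intro A B hA hB hA1 hB1
  obtain ⟨μ₁, h1⟩ := lox A A hA hA hA1 hA1
  obtain ⟨μ₂, h2⟩ := lox B A⁻¹ hB (isot_inv hA) hB1 (inv_ne_one.mpr hA1)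
  obtain ⟨K₁, Φ, e1⟩ := h1 (max μ₁ μ₂ + 1) (by linarith [le_max_left μ₁ μ₂])
  obtain ⟨K₂, Ψ, e2⟩ := h2 (max μ₁ μ₂ + 1) (by linarith [le_max_right μ₁ μ₂])
  generalize scal ((max μ₁ μ₂ + 1 : ℝ) : ℂ) = S at e1 e2
  refine ⟨![Ψ * Φ⁻¹, Ψ * Φ⁻¹ * K₁, K₂], ?_⟩
  have e3 : (List.ofFn fun i => (![Ψ * Φ⁻¹, Ψ * Φ⁻¹ * K₁, K₂] : Fin 3 → _) i * A *
      ((![Ψ * Φ⁻¹, Ψ * Φ⁻¹ * K₁, K₂] : Fin 3 → _) i)⁻¹).prod =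
      (Ψ * Φ⁻¹ * A * (Ψ * Φ⁻¹)⁻¹) * ((Ψ * Φ⁻¹ * K₁ * A * (Ψ * Φ⁻¹ * K₁)⁻¹) * (K₂ * A * K₂⁻¹)) := by
    simp only [List.ofFn_succ, List.ofFn_zero, List.prod_cons, List.prod_nil, mul_one]
    rfl
  rw [e3]
  calc B = (B * (K₂ * A⁻¹ * K₂⁻¹)) * (K₂ * A * K₂⁻¹) := by group
    _ = (Ψ * S * Ψ⁻¹) * (K₂ * A * K₂⁻¹) := by rw [e2]
    _ = (Ψ * Φ⁻¹) * (Φ * S * Φ⁻¹) * (Ψ * Φ⁻¹)⁻¹ * (K₂ * A * K₂⁻¹) := by group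
    _ = (Ψ * Φ⁻¹) * (A * (K₁ * A * K₁⁻¹)) * (Ψ * Φ⁻¹)⁻¹ * (K₂ * A * K₂⁻¹) := by rw [e1]
    _ = _ := by group

end Pool.Agent.SphN
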