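import Mathlib
import Pool.Agent.SphN.Three
import Pool.Agent.SphN.Lower

set_option autoImplicit false

namespace Pool.Agent.SphN
open Topology Set Filter

/-- the 2-sphere -/
abbrev S2 : Type := Metric.sphere (0 : EuclideanSpace ℝ (Fin 3)) 1

/-- the compact-open topology on the homeomorphism group of the sphere -/
def homeoTop : TopologicalSpace (S2 ≃ₜ S2) :=
  TopologicalSpace.induced (fun h => (⟨h, h.continuous⟩ : C(S2, S2))) inferInstance

/-- `G`: the path component of the identity in the homeomorphism group of the sphere, with the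
compact-open topology -/
def G : Set (S2 ≃ₜ S2) := @pathComponent (S2 ≃ₜ S2) homeoTop 1

/-- the property `P(n)` of the problem -/
def P (n : ℕ) : Prop :=
  ∀ A ∈ G, ∀ B ∈ G, A ≠ 1 → B ≠ 1 →
    ∃ H : Fin n → (S2 ≃ₜ S2), B = (List.ofFn fun i => H i * A * (H i)⁻¹).prod

/-- conjugation by a homeomorphism -/
noncomputable def cj {X Y : Type*} [TopologicalSpace X] [TopologicalSpace Y] (e : X ≃ₜ Y) :
    (X ≃ₜ X) ≃* (Y ≃ₜ Y) where
  toFun f := e.symm.trans (f.trans e)
  invFun g := e.symm.symm.trans (g.trans e.symm)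
  left_inv f := by ext x; simp
  right_inv g := by ext y; simp
  map_mul' f g := by
    ext y
    show e (f (g (e.symm y))) = e (f (e.symm (e (g (e.symm y)))))
    rw [e.symm_apply_apply]

theorem pn_of {X Y : Type*} [TopologicalSpace X] [TopologicalSpace Y] (e : X ≃ₜ Y) (n : ℕ)
    (h : PN X n) : PN Y n := by
  intro A B hA hB hA1 hB1
  have hA' : Isot ((cj e).symm A) := isot_conj e.symm hA
  have hB' : Isot ((cj e).symm B) := isot_conj e.symm hB
  have hA1' : (cj e).symm A ≠ 1 := by
    intro h1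
    apply hA1
    have := congrArg (cj e) h1
    rwa [MulEquiv.apply_symm_apply, map_one] at this
  have hB1' : (cj e).symm B ≠ 1 := by
    intro h1
    apply hB1
    have := congrArg (cj e) h1
    rwa [MulEquiv.apply_symm_apply, map_one] at this
  obtain ⟨H, hH⟩ := h _ _ hA' hB' hA1' hB1'
  refine ⟨fun i => cj e (H i), ?_⟩
  have h2 := congrArg (cj e) hH
  rw [MulEquiv.apply_symm_apply, map_list_prod, List.map_ofFn] at h2
  rw [h2]
  congr 2
  all_goals (try (funext i; simp only [Function.comp, map_mul, map_inv, MulEquiv.apply_symm_apply]))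

theorem pn_congr {X Y : Type*} [TopologicalSpace X] [TopologicalSpace Y] (e : X ≃ₜ Y) (n : ℕ) :
    PN X n ↔ PN Y n := ⟨pn_of e n, pn_of e.symm n⟩

theorem mem_G_iff (f : S2 ≃ₜ S2) : f ∈ G ↔ Isot f := by
  letI := homeoTop
  rw [isot_iff_joined]
  constructor
  · rintro ⟨p⟩
    refine ⟨fun t => p t, ?_, p.source, p.target⟩
    have h1 : Continuous (fun h : S2 ≃ₜ S2 => (⟨h, h.continuous⟩ : C(S2, S2))) :=
      continuous_induced_dom
    exact h1.comp p.continuous
  · rintro ⟨γ, hγ, h0, h1⟩
    exact ⟨{ toFun := γ, continuous_toFun := continuous_induced_rng.2 hγ, source' := h0,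
             target' := h1 }⟩

theorem P_iff (n : ℕ) : P n ↔ PN (OnePoint ℂ) n := by
  have e : OnePoint ℂ ≃ₜ S2 := onePointEquivSphereOfFinrankEq (V := ℂ) (ι := Fin 3)
    (by simp [Complex.finrank_real_complex])
  rw [pn_congr e n]
  constructor
  · intro h A B hA hB hA1 hB1
    exact h A ((mem_G_iff A).2 hA) B ((mem_G_iff B).2 hB) hA1 hB1
  · intro h A hA B hB hA1 hB1
    exact h A B ((mem_G_iff A).1 hA) ((mem_G_iff B).1 hB) hA1 hB1

theorem final : IsLeast {n : ℕ | 1 ≤ n ∧ P n} 3 := by
  constructor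
  · exact ⟨by norm_num, (P_iff 3).2 pn_three⟩
  · rintro n ⟨hn, hP⟩
    by_contra hlt
    have h2 : n = 1 ∨ n = 2 := by omega
    rcases h2 with rfl | rfl
    · exact not_pn_one ((P_iff 1).1 hP)
    · exact not_pn_two ((P_iff 2).1 hP)

end Pool.Agent.SphN
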